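import Pool.Agent.Lib.H62u.D0

set_option autoImplicit false

namespace H62

open Finset

/-- geometric domination -/
lemma eventually_half {mu nu c2 c3 : ℝ} (hmu : 0 < mu) (hnu : 0 ≤ nu) (h : nu < mu) (hc2 : 0 < c2) :
    ∃ K1 : ℕ, ∀ K : ℕ, K1 ≤ K → c2 / 2 * mu^K ≤ c2 * mu^K - c3 * nu^K := by
  have hr : nu / mu < 1 := by rw [div_lt_one hmu]; exact h
  have hr0 : 0 ≤ nu / mu := by positivity
  have ht : Filter.Tendsto (fun K : ℕ => c3 * (nu/mu)^K) Filter.atTop (nhds (c3 * 0)) :=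
    (tendsto_pow_atTop_nhds_zero_of_lt_one hr0 hr).const_mul c3
  rw [mul_zero] at ht
  have hev := ht.eventually (gt_mem_nhds (show (0:ℝ) < c2/2 by positivity))
  obtain ⟨K1, hK1⟩ := Filter.eventually_atTop.mp hev
  refine ⟨K1, fun K hK => ?_⟩
  have h1 := hK1 K hK
  have h2 : c3 * nu^K = (c3 * (nu/mu)^K) * mu^K := by
    rw [div_pow]; field_simp
  rw [h2]
  have h3 : (c3 * (nu/mu)^K) * mu^K ≤ c2/2 * mu^K :=
    mul_le_mul_of_nonneg_right h1.le (by positivity)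
  linarith

lemma exp_comp1 {X s δ l kap : ℝ} {K : ℕ} (hX0 : 0 < X) (hk : 0 < kap) :
    (X/3^K)^s * (((3:ℝ)^δ)^K * (kap * (3:ℝ)^(-((1-δ)/l)))^K) =
      X^s * (3:ℝ)^((δ - s - (1-δ)/l + Real.logb 3 kap)*K) := by
  rw [Real.div_rpow hX0.le (by positivity)]
  have a1 : ((3:ℝ)^K)^s = (3:ℝ)^(s*K) := by
    rw [mul_comm s, Real.rpow_mul (by norm_num), Real.rpow_natCast]
  have a2 : ((3:ℝ)^δ)^K = (3:ℝ)^(δ*K) := by
    rw [Real.rpow_mul (by norm_num), Real.rpow_natCast]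
  have a4 : kap * (3:ℝ)^(-((1-δ)/l)) = (3:ℝ)^(Real.logb 3 kap - (1-δ)/l) := by
    rw [Real.rpow_sub (by norm_num), Real.rpow_logb (by norm_num) (by norm_num) hk,
      Real.rpow_neg (by norm_num)]
    rfl
  have a3 : (kap * (3:ℝ)^(-((1-δ)/l)))^K = (3:ℝ)^((Real.logb 3 kap - (1-δ)/l)*K) := by
    rw [a4, Real.rpow_mul (by norm_num), Real.rpow_natCast]
  rw [a1, a2, a3, div_mul_eq_mul_div, ← Real.rpow_add (by norm_num), mul_div_assoc,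
    ← Real.rpow_sub (by norm_num)]
  have a5 : δ * K + (Real.logb 3 kap - (1 - δ) / l) * K - s * K =
      (δ - s - (1-δ)/l + Real.logb 3 kap)*K := by ring
  rw [a5]

lemma exp_comp2 {X s pq σ lb : ℝ} {K : ℕ} (hX0 : 0 < X) (hX3 : X = (3:ℝ)^lb)
    (hexp : pq * σ * lb - 2*|σ| ≤ σ * K) :
    X^(s + pq * σ) * (3:ℝ)^(-(2*|σ|)) ≤ X^s * (3:ℝ)^(σ*K) := by
  rw [Real.rpow_add hX0, mul_assoc]
  apply mul_le_mul_of_nonneg_left _ (by positivity)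
  have : X^(pq * σ) = (3:ℝ)^(pq * σ * lb) := by
    rw [hX3, ← Real.rpow_mul (by norm_num), mul_comm lb]
  rw [this, ← Real.rpow_add (by norm_num)]
  apply Real.rpow_le_rpow_of_exponent_le (by norm_num)
  linarith

/-- lower bound of the bracket -/
lemma bracket {lam n : ℕ} (hlam : 0 < lam) {δ g kap rho th tau c4 C1 hmin Gmax N : ℝ} (hg : 1 < g)
    (hk1 : 1 ≤ kap) (hkr : kap ≤ rho) (hr3 : rho ≤ 3) (hth : 0 ≤ th)
    (hc4 : 0 < c4) (hC1 : 1 ≤ C1) (hmin0 : 0 < hmin) (hG : 0 ≤ Gmax) :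
    ∃ c2 c3 : ℝ, 0 < c2 ∧ ∀ K0 E L : ℕ, ∀ N : ℝ, (3:ℝ)^E ≤ C1 * g^K0 →
      c4 * ((3:ℝ)^δ / g)^K0 ≤ N → (3:ℝ)^(K0+E) / 2^L ≤ 2 * (3:ℝ)^(-(tau*K0)) →
      c2 * (kap * (3:ℝ)^(-((1-δ)/lam)) / g^2)^K0 -
        c3 * (rho * (3:ℝ)^(-(tau*th)) * g)^K0 ≤
      (N / (3^(n+1) * 3^(K0+E)))^((1:ℝ)/lam) * (kap^(K0+E) * hmin) -
        (2:ℝ)^th * ((3:ℝ)^(K0+E) / 2^L)^th * rho^(K0+E) * Gmax := by
  have hg0 : 0 < g := by linarith
  have hC10 : 0 < C1 := by linarith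
  have hk0 : 0 < kap := by linarith
  have hr0 : 0 < rho := by linarith
  have hlam' : (0:ℝ) < lam := by exact_mod_cast hlam
  have hlam1 : (1:ℝ) ≤ lam := by exact_mod_cast hlam
  have hl1 : (1:ℝ)/lam ≤ 1 := by rw [div_le_one hlam']; exact hlam1
  refine ⟨(c4/(3^(n+1)*C1))^((1:ℝ)/lam) * hmin, (2:ℝ)^th * (2:ℝ)^th * C1 * Gmax, by positivity, ?_⟩
  intro K0 E L N hE hN hL
  -- U part
  have hU : (c4/(3^(n+1)*C1))^((1:ℝ)/lam) * hmin * (kap * (3:ℝ)^(-((1-δ)/lam)) / g^2)^K0 ≤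
      (N / (3^(n+1) * 3^(K0+E)))^((1:ℝ)/lam) * (kap^(K0+E) * hmin) := by
    have h1 : c4/(3^(n+1)*C1) * ((3:ℝ)^(δ-1) / g^2)^K0 ≤ N / (3^(n+1) * 3^(K0+E)) := by
      rw [le_div_iff₀ (by positivity)]
      have e : ((3:ℝ)^(δ-1) / g^2)^K0 = ((3:ℝ)^δ / g)^K0 * (3^K0 * g^K0)⁻¹ := by
        rw [← mul_pow, ← inv_pow, ← mul_pow]
        congr 1
        rw [Real.rpow_sub (by norm_num), Real.rpow_one]
        field_simp
      rw [e]
      calc c4/(3^(n+1)*C1) * (((3:ℝ)^δ / g)^K0 * (3^K0 * g^K0)⁻¹) * (3^(n+1) * 3^(K0+E))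
          = (c4 * ((3:ℝ)^δ / g)^K0) * (3^E / (C1 * g^K0)) := by
            have ep : (3:ℝ)^(K0+E) = 3^K0 * 3^E := pow_add _ _ _
            rw [ep]; field_simp
        _ ≤ (c4 * ((3:ℝ)^δ / g)^K0) * 1 := by
            apply mul_le_mul_of_nonneg_left _ (by positivity)
            rw [div_le_one (by positivity)]; exact hE
        _ ≤ N := by rw [mul_one]; exact hN
    have h2 : (c4/(3^(n+1)*C1) * ((3:ℝ)^(δ-1) / g^2)^K0)^((1:ℝ)/lam) ≤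
        (N / (3^(n+1) * 3^(K0+E)))^((1:ℝ)/lam) :=
      Real.rpow_le_rpow (by positivity) h1 (by positivity)
    have h3 : (c4/(3^(n+1)*C1))^((1:ℝ)/lam) * ((3:ℝ)^(-((1-δ)/lam)) / g^2)^K0 ≤
        (c4/(3^(n+1)*C1) * ((3:ℝ)^(δ-1) / g^2)^K0)^((1:ℝ)/lam) := by
      rw [Real.mul_rpow (by positivity) (by positivity)]
      apply mul_le_mul_of_nonneg_left _ (by positivity)
      have e : (((3:ℝ)^(δ-1) / g^2)^K0)^((1:ℝ)/lam) = (((3:ℝ)^(δ-1) / g^2)^((1:ℝ)/lam))^K0 := by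
        rw [← Real.rpow_natCast ((3:ℝ)^(δ-1) / g^2) K0, ← Real.rpow_natCast _ K0,
          ← Real.rpow_mul (by positivity), ← Real.rpow_mul (by positivity), mul_comm]
      rw [e]
      apply pow_le_pow_left₀ (by positivity)
      rw [Real.div_rpow (by positivity) (by positivity), ← Real.rpow_mul (by norm_num)]
      have e2 : (δ-1) * (1/(lam:ℝ)) = -((1-δ)/lam) := by ring
      rw [e2]
      apply div_le_div_of_nonneg_left (by positivity) (by positivity)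
      have hg2 : 1 ≤ g^2 := one_le_pow₀ hg.le
      calc (g^2)^((1:ℝ)/lam) ≤ (g^2)^(1:ℝ) := Real.rpow_le_rpow_of_exponent_le hg2 hl1
        _ = g^2 := Real.rpow_one _
    have h4 : kap^K0 ≤ kap^(K0+E) := pow_le_pow_right₀ hk1 (by omega)
    calc (c4/(3^(n+1)*C1))^((1:ℝ)/lam) * hmin * (kap * (3:ℝ)^(-((1-δ)/lam)) / g^2)^K0
        = ((c4/(3^(n+1)*C1))^((1:ℝ)/lam) * ((3:ℝ)^(-((1-δ)/lam)) / g^2)^K0) * (kap^K0 * hmin) := by
          rw [mul_div_assoc, mul_pow]; ring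
      _ ≤ _ := mul_le_mul (h3.trans h2) (mul_le_mul_of_nonneg_right h4 hmin0.le) (by positivity)
          (Real.rpow_nonneg (le_trans (by positivity) h1) _)
  -- R part
  have hR : (2:ℝ)^th * ((3:ℝ)^(K0+E) / 2^L)^th * rho^(K0+E) * Gmax ≤
      (2:ℝ)^th * (2:ℝ)^th * C1 * Gmax * (rho * (3:ℝ)^(-(tau*th)) * g)^K0 := by
    have h1 : ((3:ℝ)^(K0+E) / 2^L)^th ≤ (2:ℝ)^th * ((3:ℝ)^(-(tau*th)))^K0 := by
      calc ((3:ℝ)^(K0+E) / 2^L)^th ≤ (2 * (3:ℝ)^(-(tau*K0)))^th :=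
            Real.rpow_le_rpow (by positivity) hL hth
        _ = (2:ℝ)^th * ((3:ℝ)^(-(tau*K0)))^th := Real.mul_rpow (by norm_num) (by positivity)
        _ = _ := by
          rw [← Real.rpow_natCast ((3:ℝ)^(-(tau*th))) K0, ← Real.rpow_mul (by norm_num),
            ← Real.rpow_mul (by norm_num)]
          congr 2; ring
    have h2 : rho^(K0+E) ≤ rho^K0 * (C1 * g^K0) := by
      rw [pow_add]
      apply mul_le_mul_of_nonneg_left _ (by positivity)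
      calc rho^E ≤ 3^E := pow_le_pow_left₀ hr0.le hr3 E
        _ ≤ _ := hE
    calc (2:ℝ)^th * ((3:ℝ)^(K0+E) / 2^L)^th * rho^(K0+E) * Gmax
        ≤ (2:ℝ)^th * ((2:ℝ)^th * ((3:ℝ)^(-(tau*th)))^K0) * (rho^K0 * (C1 * g^K0)) * Gmax := by
          gcongr
      _ = _ := by rw [mul_pow, mul_pow]; ring
  linarith

/-- final comparison of exponents -/
lemma final_exp {R s δ l kap e pq : ℝ} {K0 : ℕ} (hR : 1 ≤ R) (hk : 0 < kap)
    (h1 : (K0:ℝ) ≤ pq * Real.logb 3 R) (h2 : pq * Real.logb 3 R - 2 ≤ K0) {δ' : ℝ}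
    (hδ' : δ' ≤ s + pq * (δ - s - (1-δ)/l + Real.logb 3 kap - 3*e)) :
    R^δ' * (3:ℝ)^(-(2*|δ - s - (1-δ)/l + Real.logb 3 kap - 3*e|)) ≤
      (R/3^K0)^s * (((3:ℝ)^δ / (3:ℝ)^e)^K0 * (kap * (3:ℝ)^(-((1-δ)/l)) / ((3:ℝ)^e)^2)^K0) := by
  have hR0 : 0 < R := by linarith
  set σ := δ - s - (1-δ)/l + Real.logb 3 kap - 3*e with hσ
  have hRlb : R = (3:ℝ)^(Real.logb 3 R) := by
    rw [Real.rpow_logb (by norm_num) (by norm_num) hR0]
  have hexp : pq * σ * Real.logb 3 R - 2*|σ| ≤ σ * K0 := by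
    rcases le_or_gt 0 σ with h0 | h0
    · rw [abs_of_nonneg h0]
      have := mul_le_mul_of_nonneg_left h2 h0
      linarith
    · rw [abs_of_neg h0]
      have := mul_le_mul_of_nonpos_left h1 h0.le
      linarith
  have a1 := exp_comp2 (s := s) hR0 hRlb hexp
  have a2 : R^δ' ≤ R^(s + pq * σ) := Real.rpow_le_rpow_of_exponent_le hR hδ'
  have a3 : (R/3^K0)^s * (((3:ℝ)^δ / (3:ℝ)^e)^K0 * (kap * (3:ℝ)^(-((1-δ)/l)) / ((3:ℝ)^e)^2)^K0) =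
      R^s * (3:ℝ)^(σ*K0) := by
    have b1 := exp_comp1 (s := s) (δ := δ) (l := l) (K := K0) hR0 hk
    have b2 : ((3:ℝ)^δ / (3:ℝ)^e)^K0 * (kap * (3:ℝ)^(-((1-δ)/l)) / ((3:ℝ)^e)^2)^K0 =
        (((3:ℝ)^δ)^K0 * (kap * (3:ℝ)^(-((1-δ)/l)))^K0) * (3:ℝ)^(-(3*e*K0)) := by
      have b3 : (3:ℝ)^(-(3*e*K0)) = ((((3:ℝ)^e)^3)⁻¹)^K0 := by
        have : (((3:ℝ)^e)^3)⁻¹ = (3:ℝ)^(-(3*e)) := by
          rw [← Real.rpow_natCast, ← Real.rpow_mul (by norm_num), ← Real.rpow_neg (by norm_num)]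
          congr 1; push_cast; ring
        rw [this, ← Real.rpow_natCast, ← Real.rpow_mul (by norm_num)]
        congr 1; ring
      rw [b3, ← mul_pow, ← mul_pow, ← mul_pow]
      congr 1
      field_simp
    rw [b2, ← mul_assoc, b1, mul_assoc, ← Real.rpow_add (by norm_num)]
    congr 2
    rw [hσ]; ring
  rw [a3]
  calc R^δ' * (3:ℝ)^(-(2*|σ|)) ≤ R^(s + pq * σ) * (3:ℝ)^(-(2*|σ|)) :=
        mul_le_mul_of_nonneg_right a2 (by positivity)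
    _ ≤ _ := a1

lemma cnt_mono_L' {X L L' i : ℕ} (h : L ≤ L') : (cnt X L i : ℝ) ≤ (cnt X L' i : ℝ) := by
  exact_mod_cast cnt_mono_L h

end H62
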