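import Pool.Agent.Lib.H62u.UBase

set_option autoImplicit false

namespace H62

open Finset

/-- comparison of a rational power with a number, lower bound -/
lemma rpow_le_of_pow_le {b c : ℝ} (hb : 0 < b) (hc : 0 < c) {u v : ℕ} (hv : 0 < v)
    (h : b^u ≤ c^v) : b^((u:ℝ)/v) ≤ c := by
  have hv' : (0:ℝ) < v := by exact_mod_cast hv
  apply le_of_pow_le_pow_left₀ hv.ne' hc.le
  rw [← Real.rpow_natCast (b^((u:ℝ)/v)) v, ← Real.rpow_mul hb.le, div_mul_cancel₀ _ hv'.ne',
    Real.rpow_natCast]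
  exact h

lemma le_rpow_of_pow_le {b c : ℝ} (hb : 0 < b) (hc : 0 < c) {u v : ℕ} (hv : 0 < v)
    (h : c^v ≤ b^u) : c ≤ b^((u:ℝ)/v) := by
  have hv' : (0:ℝ) < v := by exact_mod_cast hv
  have hb' : 0 ≤ b^((u:ℝ)/v) := by positivity
  apply le_of_pow_le_pow_left₀ hv.ne' hb'
  rw [← Real.rpow_natCast (b^((u:ℝ)/v)) v, ← Real.rpow_mul hb.le, div_mul_cancel₀ _ hv'.ne',
    Real.rpow_natCast]
  exact h

lemma root_choice' {a : ℕ} (ha : ¬ 3 ∣ a) : ∃ i j : ℕ, T^[j] (3*i+2) = a ∧ j ≤ 1 ∧ 3*i+2 ≤ 2*a := by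
  have h3 : a % 3 = 1 ∨ a % 3 = 2 := by omega
  rcases h3 with h | h
  · refine ⟨(2*a-2)/3, 1, ?_, le_rfl, by omega⟩
    have : 3 * ((2*a-2)/3) + 2 = 2 * a := by omega
    rw [this, Function.iterate_one, T_even]
  · refine ⟨(a-2)/3, 0, ?_, by norm_num, by omega⟩
    have : 3 * ((a-2)/3) + 2 = a := by omega
    rw [this]; rfl

theorem final_uniform {θ θ' : ℝ} (H : UGood θ) (hθ : θ' < θ) (hθ2 : 1/2 < θ') :
    ∃ c C : ℝ, 0 < c ∧ 0 < C ∧ ∀ a x : ℕ, ¬ 3 ∣ a → a ≤ x →
      c * ((x:ℝ)/a)^θ' ≤ ((reach a C x).card : ℝ) := by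
  obtain ⟨v, c, D, hv0, hv1, hc, hD, H⟩ := H
  set ep := Real.log v⁻¹ with hep
  have hep0 : 0 < ep := Real.log_pos (by rw [one_lt_inv₀ hv0]; exact hv1)
  set e := θ - θ' with he
  have he0 : 0 < e := by rw [he]; linarith
  set c3 := c / (D + 2 + D/e) with hc3
  have hc30 : 0 < c3 := by positivity
  -- threshold
  obtain ⟨R1, hR1e, hR1⟩ : ∃ R1 : ℝ, Real.exp 1 ≤ R1 ∧ ∀ R : ℝ, R1 ≤ R →
      R^((1:ℝ)/2) + 1 ≤ c3/2 * R^θ' := by
    have ht : Filter.Tendsto (fun R : ℝ => R^(-(θ' - 1/2))) Filter.atTop (nhds 0) :=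
      tendsto_rpow_neg_atTop (by linarith)
    have hev := ht.eventually (gt_mem_nhds (show (0:ℝ) < c3/4 by positivity))
    obtain ⟨R2, h2⟩ := Filter.eventually_atTop.mp hev
    refine ⟨max R2 (Real.exp 1), le_max_right _ _, fun R hR => ?_⟩
    have hR2 := h2 R ((le_max_left _ _).trans hR)
    have hRe : Real.exp 1 ≤ R := (le_max_right _ _).trans hR
    have hR1 : 1 ≤ R := by
      have := Real.add_one_le_exp 1
      linarith
    have hRp : 0 < R := by linarith
    have a1 : R^((1:ℝ)/2) = R^θ' * R^(-(θ' - 1/2)) := by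
      rw [← Real.rpow_add hRp]; congr 1; ring
    have a2 : R^((1:ℝ)/2) ≤ R^θ' * (c3/4) := by
      rw [a1]; exact mul_le_mul_of_nonneg_left hR2.le (by positivity)
    have a3 : 1 ≤ R^((1:ℝ)/2) := Real.one_le_rpow hR1 (by norm_num)
    linarith
  have hR11 : 1 < R1 := by
    have := Real.add_one_lt_exp (show (1:ℝ) ≠ 0 by norm_num)
    linarith
  have hR10 : 0 < R1 := by linarith
  set c0 : ℝ := min (c3/2 * ((2:ℝ)^θ')⁻¹) (((2*R1)^θ')⁻¹) with hc0
  have hc00 : 0 < c0 := lt_min (by positivity) (by positivity)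
  set C1 : ℝ := 3 + D + (D + 1/ep) with hC1
  have hC10 : 0 < C1 := by positivity
  refine ⟨c0, 4 * C1, hc00, by positivity, ?_⟩
  intro a x ha hax
  have ha1 : 1 ≤ a := by
    rcases Nat.eq_zero_or_pos a with rfl | h
    · exact absurd (dvd_zero 3) ha
    · exact h
  have ha0 : (0:ℝ) < a := by exact_mod_cast ha1
  have hx0 : (0:ℝ) < x := by
    have : 0 < x := by omega
    exact_mod_cast this
  have hxa1 : 1 ≤ (x:ℝ)/a := by rw [one_le_div ha0]; exact_mod_cast hax
  -- the trivial bound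
  have htriv : (1:ℝ) ≤ ((reach a (4*C1) x).card : ℝ) := by
    have : a ∈ reach a (4*C1) x := by
      rw [mem_reach]
      refine ⟨⟨ha1, hax⟩, 0, rfl, ?_⟩
      have : 0 ≤ Real.log (a:ℝ) := Real.log_nonneg (by exact_mod_cast ha1)
      push_cast
      positivity
    have h2 : 1 ≤ (reach a (4*C1) x).card := Finset.card_pos.mpr ⟨a, this⟩
    exact_mod_cast h2
  have hsmall : (x:ℝ)/a ≤ 2*R1 → c0 * ((x:ℝ)/a)^θ' ≤ ((reach a (4*C1) x).card : ℝ) := by
    intro h
    refine le_trans ?_ htriv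
    calc c0 * ((x:ℝ)/a)^θ' ≤ (((2*R1)^θ')⁻¹) * (2*R1)^θ' :=
          mul_le_mul (min_le_right _ _) (Real.rpow_le_rpow (by positivity) h (by linarith))
            (by positivity) (by positivity)
      _ = 1 := by field_simp
  obtain ⟨i', j, hj, hj1, hi'a⟩ := root_choice' ha
  rcases Nat.lt_or_ge x (3*i'+2) with hxi | hxi
  · apply hsmall
    have : (x:ℝ) ≤ 2*a := by
      have : x ≤ 2*a := by omega
      exact_mod_cast this
    rw [div_le_iff₀ ha0]
    calc (x:ℝ) ≤ 2*a := this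
      _ = 2*1*a := by ring
      _ ≤ 2*R1*a := by gcongr
  obtain ⟨n0, N0, h1, h2, h3, h4⟩ := exists_qmin hv0 hv1 (m := 3*i'+2) (by omega)
  obtain ⟨i0, hi0⟩ : ∃ i0, n0 = 3*i0+2 := ⟨n0/3, by omega⟩
  subst hi0
  have hn0 : (0:ℝ) < 3*(i0:ℝ)+2 := by positivity
  have hy0 : (0:ℝ) < 3*(i':ℝ)+2 := by positivity
  push_cast at h4
  have hi'x : 3*(i':ℝ)+2 ≤ x := by exact_mod_cast hxi
  have hn0y : 3*(i0:ℝ)+2 ≤ 3*i'+2 := by
    refine h4.trans ?_
    have : v^N0 ≤ 1 := pow_le_one₀ hv0.le hv1.le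
    calc (3*(i':ℝ)+2) * v^N0 ≤ (3*i'+2) * 1 := mul_le_mul_of_nonneg_left this hy0.le
      _ = _ := mul_one _
  have hn0x : 3*i0+2 ≤ x := by
    have : 3*(i0:ℝ)+2 ≤ x := hn0y.trans hi'x
    exact_mod_cast this
  have hi'a' : 3*(i':ℝ)+2 ≤ 2*a := by exact_mod_cast hi'a
  obtain ⟨R, hR⟩ : ∃ R : ℝ, R = (x:ℝ)/(3*i0+2) := ⟨_, rfl⟩
  have hRge1 : 1 ≤ R := by rw [hR, one_le_div hn0]; exact_mod_cast hn0x
  have hR0 : 0 < R := by linarith
  have hlR : 0 ≤ Real.log R := Real.log_nonneg hRge1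
  have hxaR : (x:ℝ)/a ≤ 2*R := by
    rw [hR, div_le_iff₀ ha0]
    have : (3*(i0:ℝ)+2) ≤ 2*a := hn0y.trans hi'a'
    calc (x:ℝ) = x/(3*i0+2) * (3*i0+2) := by field_simp
      _ ≤ x/(3*i0+2) * (2*a) := mul_le_mul_of_nonneg_left this (by positivity)
      _ = _ := by ring
  rcases lt_or_ge R R1 with hRR | hRR
  · exact hsmall (hxaR.trans (by linarith))
  -- main case
  obtain ⟨L, hL⟩ : ∃ L : ℕ, L = ⌈D * (1 + Real.log R)⌉₊ := ⟨_, rfl⟩
  have hLle : (L:ℝ) ≤ D * (1 + Real.log R) + 1 := by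
    rw [hL]; exact (Nat.ceil_lt_add_one (by positivity)).le
  have hcnt := H i0 x L hn0x h3 (by rw [← hR, hL]; exact Nat.le_ceil _)
  rw [← hR] at hcnt
  have hN0 : (N0:ℝ) ≤ 1/ep * Real.log R := by
    have h5 : (1:ℝ) ≤ ((x:ℝ)/(3*i0+2)) * v^N0 := by
      rw [div_mul_eq_mul_div, one_le_div hn0]
      exact h4.trans (mul_le_mul_of_nonneg_right hi'x (by positivity))
    rw [← hR] at h5
    have h6 := Real.log_le_log one_pos h5
    rw [Real.log_one, Real.log_mul hR0.ne' (by positivity), Real.log_pow] at h6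
    have e1 : Real.log v = -ep := by rw [hep, Real.log_inv]; ring
    rw [e1] at h6
    rw [one_div, inv_mul_eq_div, le_div_iff₀ hep0]
    linarith
  have hlogR1 : 1 ≤ Real.log R := by
    rw [Real.le_log_iff_exp_le hR0]; exact hR1e.trans hRR
  -- the numbers found
  set S := (pairs x L i0).image (fun p => p.1) with hS
  have hpS : (cnt x L i0 : ℝ) ≤ (S.card : ℝ) * ((L:ℝ)+1) := by
    have hsub : pairs x L i0 ⊆ S ×ˢ (range (L+1)) := by
      intro p hp
      rw [Finset.mem_product]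
      refine ⟨Finset.mem_image_of_mem _ hp, ?_⟩
      rw [mem_pairs] at hp
      rw [Finset.mem_range]; omega
    have := Finset.card_le_card hsub
    rw [Finset.card_product, Finset.card_range] at this
    have h7 : (cnt x L i0 : ℝ) ≤ ((S.card * (L+1) : ℕ) : ℝ) := by exact_mod_cast this
    push_cast at h7
    exact h7
  obtain ⟨y, hy⟩ : ∃ y : ℕ, y = ⌊R^((1:ℝ)/2)⌋₊ := ⟨_, rfl⟩
  have hyle : (y:ℝ) ≤ R^((1:ℝ)/2) := by rw [hy]; exact Nat.floor_le (by positivity)
  have hylt : R^((1:ℝ)/2) < y + 1 := by rw [hy]; exact Nat.lt_floor_add_one _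
  have hsub : S ⊆ reach a (4*C1) x ∪ Icc 1 y := by
    intro n hn
    rw [hS, Finset.mem_image] at hn
    obtain ⟨p, hp, rfl⟩ := hn
    rw [mem_pairs] at hp
    rw [Finset.mem_union]
    rcases Nat.lt_or_ge y p.1 with h | h
    · left
      rw [mem_reach]
      refine ⟨hp.1, j + (N0 + p.2), ?_, ?_⟩
      · rw [Function.iterate_add_apply, Function.iterate_add_apply, hp.2.2.2, h1, hj]
      · have hn1 : R^((1:ℝ)/2) ≤ p.1 := by
          have : ((y+1:ℕ):ℝ) ≤ p.1 := by exact_mod_cast h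
          push_cast at this
          linarith
        have hlogn : Real.log R ≤ 2 * Real.log (p.1:ℝ) := by
          have := Real.log_le_log (by positivity) hn1
          rw [Real.log_rpow hR0] at this
          linarith
        have hj' : (j:ℝ) ≤ 1 := by exact_mod_cast hj1
        have hp2 : (p.2:ℝ) ≤ L := by exact_mod_cast hp.2.1
        push_cast
        have h8 : (j:ℝ) + (N0 + p.2) ≤ C1 * (1 + Real.log R) := by
          have h9 : (1/ep) * Real.log R ≤ (1/ep) * (1 + Real.log R) := by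
            apply mul_le_mul_of_nonneg_left _ (by positivity); linarith
          have h10 : C1 * (1 + Real.log R) = 3 * (1 + Real.log R) + D * (1 + Real.log R)
            + D * (1 + Real.log R) + (1/ep) * (1 + Real.log R) := by rw [hC1]; ring
          have h11 : 0 ≤ D * (1 + Real.log R) := by positivity
          rw [h10]; linarith
        have h12 : C1 * (1 + Real.log R) ≤ C1 * (4 * Real.log (p.1:ℝ)) := by
          apply mul_le_mul_of_nonneg_left _ hC10.le
          linarith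
        linarith
    · right
      rw [Finset.mem_Icc]; exact ⟨hp.1.1, h⟩
  have hcard : (S.card : ℝ) ≤ ((reach a (4*C1) x).card : ℝ) + y := by
    have h13 : S.card ≤ (reach a (4*C1) x).card + y := by
      calc S.card ≤ (reach a (4*C1) x ∪ Icc 1 y).card := Finset.card_le_card hsub
        _ ≤ _ := Finset.card_union_le _ _
        _ = _ := by rw [Nat.card_Icc]; rfl
    exact_mod_cast h13
  -- lower bound for the number of distinct numbers
  have hSlow : c3 * R^θ' ≤ (S.card : ℝ) := by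
    have h14 : Real.log R ≤ R^e / e := Real.log_le_rpow_div hR0.le he0
    have h15 : 1 ≤ R^e := Real.one_le_rpow hRge1 he0.le
    have h16 : (L:ℝ) + 1 ≤ (D + 2 + D/e) * R^e := by
      have h17 : D * Real.log R ≤ D * (R^e / e) := mul_le_mul_of_nonneg_left h14 hD.le
      have h18 : D * (R^e/e) = D/e * R^e := by ring
      have h19 : (D + 2) * 1 ≤ (D+2) * R^e := mul_le_mul_of_nonneg_left h15 (by positivity)
      calc (L:ℝ) + 1 ≤ D * (1 + Real.log R) + 2 := by linarith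
        _ ≤ (D+2) * R^e + D/e * R^e := by rw [← h18]; linarith
        _ = _ := by ring
    have h20 : c * R^θ ≤ (S.card : ℝ) * ((D + 2 + D/e) * R^e) := by
      calc c * R^θ ≤ _ := hcnt
        _ ≤ _ := hpS
        _ ≤ _ := mul_le_mul_of_nonneg_left h16 (by positivity)
    have h21 : R^θ = R^θ' * R^e := by
      rw [← Real.rpow_add hR0]; congr 1; rw [he]; ring
    rw [h21] at h20
    have h22 : (c3 * R^θ') * ((D + 2 + D/e) * R^e) = c * (R^θ' * R^e) := by
      rw [hc3]; field_simp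
    rw [← h22] at h20
    exact le_of_mul_le_mul_right h20 (by positivity)
  have hfin := hR1 R hRR
  have h23 : c3/2 * R^θ' ≤ ((reach a (4*C1) x).card : ℝ) := by linarith
  refine le_trans ?_ h23
  calc c0 * ((x:ℝ)/a)^θ' ≤ (c3/2 * ((2:ℝ)^θ')⁻¹) * (2*R)^θ' :=
        mul_le_mul (min_le_left _ _) (Real.rpow_le_rpow (by positivity) hxaR (by linarith))
          (by positivity) (by positivity)
    _ = c3/2 * R^θ' := by
        rw [Real.mul_rpow (by norm_num) hR0.le]
        field_simp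

end H62
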