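import Pool.Agent.Lib.H62u.PRel

set_option autoImplicit false

namespace H62

open Finset

theorem ugood_base {s z : ℝ} {w : ℕ → ℝ} {wmin : ℝ} (H : PSub s z w wmin) : UGood s := by
  have hs := H.s_pos
  have hz := H.z_pos
  have hz1 := H.z_lt
  have hwm := H.wmin_pos
  -- choose t with z * t < 1
  set t : ℝ := (1+z)/(2*z) with ht
  have ht1 : 1 < t := by rw [ht, lt_div_iff₀ (by positivity)]; linarith
  have ht0 : 0 < t := by linarith
  have hzt : z * t = (1+z)/2 := by rw [ht]; field_simp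
  have hzt1 : z * t < 1 := by rw [hzt]; linarith
  have hzt0 : 0 < z * t := by positivity
  set v : ℝ := t^(-(1/s)) with hv
  have hv0 : 0 < v := by positivity
  have hv1 : v < 1 := Real.rpow_lt_one_of_one_lt_of_neg ht1 (by
    have : 0 < 1/s := by positivity
    linarith)
  have hvs : v^s = t⁻¹ := by
    rw [hv, ← Real.rpow_mul ht0.le, ← Real.rpow_neg_one]
    congr 1; field_simp
  set lz := Real.log (z*t)⁻¹ with hlz
  have hlz0 : 0 < lz := Real.log_pos (by rw [one_lt_inv₀ hzt0]; exact hzt1)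
  have hlzi : 0 < Real.log z⁻¹ := Real.log_pos (by rw [one_lt_inv₀ hz]; exact hz1)
  refine ⟨v, wmin/((4:ℝ)^s+1), (Real.log z⁻¹ + s)/lz, hv0, hv1, by positivity, by positivity, ?_⟩
  intro i X L hi hq hL
  have hm0 : (0:ℝ) < 3*(i:ℝ)+2 := by positivity
  have hX0 : (0:ℝ) < X := by
    have : 0 < X := by omega
    exact_mod_cast this
  set R : ℝ := (X:ℝ)/(3*i+2) with hR
  have hR1 : 1 ≤ R := by
    rw [hR, one_le_div hm0]; exact_mod_cast hi
  have hR0 : 0 < R := by linarith
  have hlR : 0 ≤ Real.log R := Real.log_nonneg hR1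
  have hmain := P_rel H X (closed_reach (3*i+2)) (B := R^s) (t := t) (by positivity) ht1.le
    (by
      intro N i' hN hi'
      have h1 := hq N (3*i'+2) hN (by omega)
      push_cast at h1
      have h2 : (X:ℝ)/(3*i'+2) ≤ R * (v⁻¹)^N := by
        rw [div_le_iff₀ (by positivity)]
        calc (X:ℝ) = R * (3*i+2) := by rw [hR]; field_simp
          _ = R * (v⁻¹)^N * ((3*i+2) * v^N) := by rw [inv_pow]; field_simp
          _ ≤ _ := mul_le_mul_of_nonneg_left h1 (by positivity)
      calc ((X:ℝ)/(3*i'+2))^s ≤ (R * (v⁻¹)^N)^s :=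
            Real.rpow_le_rpow (by positivity) h2 hs.le
        _ = R^s * t^N := by
          rw [Real.mul_rpow hR0.le (by positivity)]
          congr 1
          rw [← Real.rpow_natCast, ← Real.rpow_mul (by positivity), mul_comm (N:ℝ) s,
            Real.rpow_mul (by positivity), Real.inv_rpow hv0.le, hvs, inv_inv, Real.rpow_natCast])
    L 0 i rfl hi
  rw [← hR, zero_add] at hmain
  have hcond : z^L * (z⁻¹ * (R^s * t^L)) ≤ 1 := by
    have e : z^L * (z⁻¹ * (R^s * t^L)) = (z*t)^L * (z⁻¹ * R^s) := by rw [mul_pow]; ring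
    rw [e]
    have h1 : z⁻¹ * R^s ≤ ((z*t)⁻¹)^L := by
      rw [← Real.log_le_log_iff (by positivity) (by positivity), Real.log_mul (by positivity)
        (by positivity), Real.log_rpow hR0, Real.log_pow]
      have h2 : (Real.log z⁻¹ + s)/lz * (1 + Real.log R) * lz ≤ L * lz :=
        mul_le_mul_of_nonneg_right hL hlz0.le
      have h3 : (Real.log z⁻¹ + s)/lz * (1 + Real.log R) * lz =
          (Real.log z⁻¹ + s) * (1 + Real.log R) := by field_simp
      rw [h3] at h2
      have h4 : 0 ≤ Real.log z⁻¹ * Real.log R := mul_nonneg hlzi.le hlR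
      nlinarith
    calc (z*t)^L * (z⁻¹ * R^s) ≤ (z*t)^L * ((z*t)⁻¹)^L :=
          mul_le_mul_of_nonneg_left h1 (by positivity)
      _ = 1 := by rw [← mul_pow, mul_inv_cancel₀ hzt0.ne', one_pow]
  have h5 : wmin * R^s ≤ ((4:ℝ)^s + 1) * (cnt X L i : ℝ) := by
    calc wmin * R^s ≤ w i * R^s := mul_le_mul_of_nonneg_right (H.w_ge i) (by positivity)
      _ ≤ _ := hmain
      _ ≤ _ := by
        apply mul_le_mul_of_nonneg_right _ (by positivity)
        linarith
  rw [div_mul_eq_mul_div, div_le_iff₀ (by positivity)]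
  linarith

end H62
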