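import Pool.Agent.Lib.H62u.UImp

set_option autoImplicit false

namespace H62

open Finset

/-- One uniform improvement step with rational data. -/
theorem ustep {n lam : ℕ} (hlam : 0 < lam) {s s' th rho kap : ℝ} {h G : ℕ → ℝ}
    {hmin Gmax : ℝ} (hs0 : 0 < s) (HH : HSub n lam s kap h hmin)
    (HR : RSup s' rho G Gmax) (hs : s = s' + th) (hth : 0 ≤ th) (hk1 : 1 ≤ kap) (hkr : kap ≤ rho)
    (hr3 : rho ≤ 3) {rk rr : ℝ} (hrk : (3:ℝ)^rk ≤ kap) (hrr : rho ≤ (3:ℝ)^rr)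
    {p q : ℕ} (hp : 0 < p) (hpq : p < q) {δ : ℝ}
    (hcond : rr - ((q:ℝ)-p)/p * th < rk - (1-δ)/lam)
    {δ' : ℝ} (hδ' : δ' < s + (p:ℝ)/q * (δ - s - (1-δ)/lam + rk)) (hsδ : s ≤ δ) (Hd : UGood δ) :
    UGood δ' := by
  have hk := HH.kap_pos
  have hrho := HR.rho_pos
  have hq' : (0:ℝ) < q := by exact_mod_cast (hp.trans hpq)
  refine uimprove hlam hs0 HH HR hs hth hk1 hkr hr3 (Hd.mono hsδ) hp hpq Hd ?_ ?_
  · calc rho * (3:ℝ)^(-(((q:ℝ)-p)/p * th)) ≤ (3:ℝ)^rr * (3:ℝ)^(-(((q:ℝ)-p)/p * th)) :=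
        mul_le_mul_of_nonneg_right hrr (by positivity)
      _ = (3:ℝ)^(rr - ((q:ℝ)-p)/p * th) := by
        rw [← Real.rpow_add (by norm_num)]; congr 1
      _ < (3:ℝ)^(rk - (1-δ)/lam) := Real.rpow_lt_rpow_of_exponent_lt (by norm_num) hcond
      _ = (3:ℝ)^rk * (3:ℝ)^(-((1-δ)/lam)) := by
        rw [← Real.rpow_add (by norm_num)]; congr 1
      _ ≤ _ := mul_le_mul_of_nonneg_right hrk (by positivity)
  · refine lt_of_lt_of_le hδ' ?_
    have : rk ≤ Real.logb 3 kap := by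
      rw [Real.le_logb_iff_rpow_le (by norm_num) hk]; exact hrk
    have h2 : (p:ℝ)/q * (δ - s - (1-δ)/lam + rk) ≤
        (p:ℝ)/q * (δ - s - (1-δ)/lam + Real.logb 3 kap) :=
      mul_le_mul_of_nonneg_left (by linarith) (by positivity)
    linarith

end H62
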