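import Pool.Agent.Lib.H62u.CertMk
import Pool.Agent.Lib.H62u.UStep
import Pool.Agent.Lib.H62u.UBase2
import Pool.Agent.Lib.H62u.Fin
import Pool.Agent.Lib.H62u.PB.PB_All
import Pool.Agent.Lib.H62u.RB.RB_All
import Pool.Agent.Lib.H62u.HB.HB_All
import Pool.Agent.Lib.H62u.HC.HC_All
import Pool.Agent.Lib.H62u.HD.HD_All
import Pool.Agent.Lib.H62u.HE.HE_All

set_option autoImplicit false

namespace H62

/-- lower bound for `4 ^ (-u/v)` -/
lemma four_neg_ge {r : ℝ} (hr : 0 < r) {u v : ℕ} (hv : 0 < v) (h : r^v * 4^u ≤ 1) :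
    r ≤ (4:ℝ)^(-((u:ℝ)/v)) := by
  rw [Real.rpow_neg (by norm_num)]
  have h1 : (4:ℝ)^((u:ℝ)/v) ≤ r⁻¹ := by
    apply rpow_le_of_pow_le (by norm_num) (by positivity) hv
    rw [inv_pow, le_inv_comm₀ (by positivity) (by positivity), ← one_div, le_div_iff₀ (by positivity)]
    exact h
  rw [le_inv_comm₀ hr (by positivity)]
  exact h1

/-- upper bound for `4 ^ (-u/v)` -/
lemma four_neg_le {r : ℝ} (hr : 0 < r) {u v : ℕ} (hv : 0 < v) (h : 1 ≤ r^v * 4^u) :
    (4:ℝ)^(-((u:ℝ)/v)) ≤ r := by
  rw [Real.rpow_neg (by norm_num)]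
  have h1 : r⁻¹ ≤ (4:ℝ)^((u:ℝ)/v) := by
    apply le_rpow_of_pow_le (by norm_num) (by positivity) hv
    rw [inv_pow, inv_le_comm₀ (by positivity) (by positivity), ← one_div, div_le_iff₀ (by positivity)]
    exact h
  rw [inv_le_comm₀ (by positivity) hr]
  exact h1

theorem PB_exists : ∃ (w : ℕ → ℝ) (wmin : ℝ), PSub (69/82) (1 - 1/10^7) w wmin := by
  refine mkP (n := 9) (D := 1048576) (al := 326579) (be := 1474939) (ga := 823130) (t := PB_root)
    (mkLow (n := 8) PB_root PB_chk1 PB_chk2 PB_chk0) PB_chkB (by norm_num)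
    (by norm_num) (by norm_num) (by norm_num) ?_ ?_ ?_
  · have h : ((326579152:ℝ)/(1000*1048576)) ≤ (4:ℝ)^(-(((69:ℕ):ℝ)/(82:ℕ))) :=
      four_neg_ge (by norm_num) (by norm_num) (by norm_num)
    push_cast at h ⊢
    refine le_trans ?_ (mul_le_mul_of_nonneg_left h (by positivity))
    norm_num
  · have h : ((1474939700:ℝ)/(1000*1048576)) ≤ (3/2:ℝ)^(((69:ℕ):ℝ)/(82:ℕ)) :=
      le_rpow_of_pow_le (by norm_num) (by norm_num) (by norm_num) (by norm_num)
    push_cast at h ⊢
    refine le_trans ?_ (mul_le_mul_of_nonneg_left h (by norm_num))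
    norm_num
  · have h : ((823130202:ℝ)/(1000*1048576)) ≤ (3/4:ℝ)^(((69:ℕ):ℝ)/(82:ℕ)) :=
      le_rpow_of_pow_le (by norm_num) (by norm_num) (by norm_num) (by norm_num)
    push_cast at h ⊢
    refine le_trans ?_ (mul_le_mul_of_nonneg_left h (by positivity))
    norm_num

theorem RB_exists : ∃ (G : ℕ → ℝ) (Gmax : ℝ), RSup (13/25) (13831/10000) G Gmax := by
  refine mkR (n := 9) (D := 1048576) (al := 509952) (be := 936082) (ga := 652798) (t := RB_root)
    (mkUpp (n := 8) RB_root RB_chk1 RB_chk2 RB_chk0) RB_chkB (by norm_num)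
    (by norm_num) ?_ ?_ ?_
  · have h : (4:ℝ)^(-(((13:ℕ):ℝ)/(25:ℕ))) ≤ ((509952:ℝ)/1048576) :=
      four_neg_le (by norm_num) (by norm_num) (by norm_num)
    push_cast at h ⊢
    exact h
  · have h : (3/2:ℝ)^(((13:ℕ):ℝ)/(25:ℕ)) ≤ ((936082:ℝ)/1048576 * (13831/10000)) :=
      rpow_le_of_pow_le (by norm_num) (by norm_num) (by norm_num) (by norm_num)
    push_cast at h ⊢
    rw [div_le_iff₀ (by norm_num)]
    exact h
  · have h : (3/4:ℝ)^(((13:ℕ):ℝ)/(25:ℕ)) ≤ ((652798:ℝ)/1048576 * (13831/10000)) :=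
      rpow_le_of_pow_le (by norm_num) (by norm_num) (by norm_num) (by norm_num)
    push_cast at h ⊢
    rw [div_le_iff₀ (by norm_num)]
    exact h

theorem HB_exists : ∃ (h : ℕ → ℝ) (hmin : ℝ),
    HSub 10 14 (69/82) (5189/5000) h hmin := by
  refine mkH (n := 10) (D := 1048576) (al := 326579) (be := 1421217) (ga := 793149) (t := HB_root)
    (mkLow (n := 9) HB_root HB_chk1 HB_chk2 HB_chk0) HB_chkB (by norm_num)
    (by norm_num) ?_ ?_ ?_
  · have h : ((326579:ℝ)/1048576) ≤ (4:ℝ)^(-(((69:ℕ):ℝ)/(82:ℕ))) :=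
      four_neg_ge (by norm_num) (by norm_num) (by norm_num)
    push_cast at h ⊢
    exact h
  · have h : ((1421217:ℝ)/1048576 * (5189/5000)) ≤ (3/2:ℝ)^(((69:ℕ):ℝ)/(82:ℕ)) :=
      le_rpow_of_pow_le (by norm_num) (by norm_num) (by norm_num) (by norm_num)
    push_cast at h ⊢
    rw [le_div_iff₀ (by norm_num)]
    exact h
  · have h : ((793149:ℝ)/1048576 * (5189/5000)) ≤ (3/4:ℝ)^(((69:ℕ):ℝ)/(82:ℕ)) :=
      le_rpow_of_pow_le (by norm_num) (by norm_num) (by norm_num) (by norm_num)
    push_cast at h ⊢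
    rw [le_div_iff₀ (by norm_num)]
    exact h

theorem HC_exists : ∃ (h : ℕ → ℝ) (hmin : ℝ),
    HSub 11 14 (87/100) (10243/10000) h hmin := by
  refine mkH (n := 11) (D := 1048576) (al := 313911) (be := 1456706) (ga := 797032) (t := HC_root)
    (mkLow (n := 10) HC_root HC_chk1 HC_chk2 HC_chk0) HC_chkB (by norm_num)
    (by norm_num) ?_ ?_ ?_
  · have h : ((313911:ℝ)/1048576) ≤ (4:ℝ)^(-(((87:ℕ):ℝ)/(100:ℕ))) :=
      four_neg_ge (by norm_num) (by norm_num) (by norm_num)
    push_cast at h ⊢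
    exact h
  · have h : ((1456706:ℝ)/1048576 * (10243/10000)) ≤ (3/2:ℝ)^(((87:ℕ):ℝ)/(100:ℕ)) :=
      le_rpow_of_pow_le (by norm_num) (by norm_num) (by norm_num) (by norm_num)
    push_cast at h ⊢
    rw [le_div_iff₀ (by norm_num)]
    exact h
  · have h : ((797032:ℝ)/1048576 * (10243/10000)) ≤ (3/4:ℝ)^(((87:ℕ):ℝ)/(100:ℕ)) :=
      le_rpow_of_pow_le (by norm_num) (by norm_num) (by norm_num) (by norm_num)
    push_cast at h ⊢
    rw [le_div_iff₀ (by norm_num)]
    exact h

theorem HD_exists : ∃ (h : ℕ → ℝ) (hmin : ℝ),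
    HSub 11 13 (39/44) (10153/10000) h hmin := by
  refine mkH (n := 11) (D := 1048576) (al := 306870) (be := 1479402) (ga := 800321) (t := HD_root)
    (mkLow (n := 10) HD_root HD_chk1 HD_chk2 HD_chk0) HD_chkB (by norm_num)
    (by norm_num) ?_ ?_ ?_
  · have h : ((306870:ℝ)/1048576) ≤ (4:ℝ)^(-(((39:ℕ):ℝ)/(44:ℕ))) :=
      four_neg_ge (by norm_num) (by norm_num) (by norm_num)
    push_cast at h ⊢
    exact h
  · have h : ((1479402:ℝ)/1048576 * (10153/10000)) ≤ (3/2:ℝ)^(((39:ℕ):ℝ)/(44:ℕ)) :=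
      le_rpow_of_pow_le (by norm_num) (by norm_num) (by norm_num) (by norm_num)
    push_cast at h ⊢
    rw [le_div_iff₀ (by norm_num)]
    exact h
  · have h : ((800321:ℝ)/1048576 * (10153/10000)) ≤ (3/4:ℝ)^(((39:ℕ):ℝ)/(44:ℕ)) :=
      le_rpow_of_pow_le (by norm_num) (by norm_num) (by norm_num) (by norm_num)
    push_cast at h ⊢
    rw [le_div_iff₀ (by norm_num)]
    exact h

theorem HE_exists : ∃ (h : ℕ → ℝ) (hmin : ℝ),
    HSub 12 13 (25/28) (10157/10000) h hmin := by
  refine mkH (n := 12) (D := 1048576) (al := 304120) (be := 1482718) (ga := 798513) (t := HE_root)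
    (mkLow (n := 11) HE_root HE_chk1 HE_chk2 HE_chk0) HE_chkB (by norm_num)
    (by norm_num) ?_ ?_ ?_
  · have h : ((304120:ℝ)/1048576) ≤ (4:ℝ)^(-(((25:ℕ):ℝ)/(28:ℕ))) :=
      four_neg_ge (by norm_num) (by norm_num) (by norm_num)
    push_cast at h ⊢
    exact h
  · have h : ((1482718:ℝ)/1048576 * (10157/10000)) ≤ (3/2:ℝ)^(((25:ℕ):ℝ)/(28:ℕ)) :=
      le_rpow_of_pow_le (by norm_num) (by norm_num) (by norm_num) (by norm_num)
    push_cast at h ⊢
    rw [le_div_iff₀ (by norm_num)]
    exact h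
  · have h : ((798513:ℝ)/1048576 * (10157/10000)) ≤ (3/4:ℝ)^(((25:ℕ):ℝ)/(28:ℕ)) :=
      le_rpow_of_pow_le (by norm_num) (by norm_num) (by norm_num) (by norm_num)
    push_cast at h ⊢
    rw [le_div_iff₀ (by norm_num)]
    exact h

lemma step1 {h G : ℕ → ℝ} {hmin Gmax : ℝ}
    (HH : HSub 10 14 (69/82) (5189/5000) h hmin)
    (HR : RSup (13/25) (13831/10000) G Gmax)
    (p q : ℕ) (δ δ' : ℝ) (hp : 0 < p) (hpq : p < q)
    (hcond : (31/105:ℝ) - ((q:ℝ)-p)/p * (659/2050) < 8/237 - (1-δ)/14)
    (hδ' : δ' < 69/82 + (p:ℝ)/q * (δ - 69/82 - (1-δ)/14 + 8/237)) (hs : 69/82 ≤ δ)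
    (hg : UGood δ) : UGood δ' := by
  refine ustep (rk := 8/237) (rr := 31/105) (th := 659/2050) (by norm_num) (by norm_num) HH HR
    (by norm_num) (by norm_num) (by norm_num) (by norm_num) (by norm_num) ?_ ?_ hp hpq ?_ ?_ hs hg
  · have := rpow_le_of_pow_le (b := 3) (c := 5189/5000) (u := 8)
      (v := 237) (by norm_num) (by norm_num) (by norm_num) (by norm_num)
    push_cast at this
    exact this
  · have := le_rpow_of_pow_le (b := 3) (c := 13831/10000) (u := 31)
      (v := 105) (by norm_num) (by norm_num) (by norm_num) (by norm_num)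
    push_cast at this
    exact this
  · push_cast; exact hcond
  · push_cast; exact hδ'

theorem stage1 (h0 : UGood (69/82)) : UGood (87007/100000) := by
  obtain ⟨h, hmin, HH⟩ := HB_exists
  obtain ⟨G, Gmax, HR⟩ := RB_exists
  have h1 := step1 HH HR 27 50 (69/82) (85357/100000) (by norm_num) (by norm_num) (by norm_num)
    (by norm_num) (by norm_num) h0
  have h2 := step1 HH HR 27 50 (85357/100000) (43029/50000) (by norm_num) (by norm_num) (by norm_num)
    (by norm_num) (by norm_num) h1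
  have h3 := step1 HH HR 27 50 (43029/50000) (86463/100000) (by norm_num) (by norm_num) (by norm_num)
    (by norm_num) (by norm_num) h2
  have h4 := step1 HH HR 27 50 (86463/100000) (86697/100000) (by norm_num) (by norm_num) (by norm_num)
    (by norm_num) (by norm_num) h3
  have h5 := step1 HH HR 27 50 (86697/100000) (86833/100000) (by norm_num) (by norm_num) (by norm_num)
    (by norm_num) (by norm_num) h4
  have h6 := step1 HH HR 27 50 (86833/100000) (2716/3125) (by norm_num) (by norm_num) (by norm_num)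
    (by norm_num) (by norm_num) h5
  have h7 := step1 HH HR 27 50 (2716/3125) (86957/100000) (by norm_num) (by norm_num) (by norm_num)
    (by norm_num) (by norm_num) h6
  have h8 := step1 HH HR 27 50 (86957/100000) (86983/100000) (by norm_num) (by norm_num) (by norm_num)
    (by norm_num) (by norm_num) h7
  have h9 := step1 HH HR 27 50 (86983/100000) (43499/50000) (by norm_num) (by norm_num) (by norm_num)
    (by norm_num) (by norm_num) h8
  have h10 := step1 HH HR 27 50 (43499/50000) (87007/100000) (by norm_num) (by norm_num) (by norm_num)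
    (by norm_num) (by norm_num) h9
  exact h10

lemma step2 {h G : ℕ → ℝ} {hmin Gmax : ℝ}
    (HH : HSub 11 14 (87/100) (10243/10000) h hmin)
    (HR : RSup (13/25) (13831/10000) G Gmax)
    (p q : ℕ) (δ δ' : ℝ) (hp : 0 < p) (hpq : p < q)
    (hcond : (31/105:ℝ) - ((q:ℝ)-p)/p * (7/20) < 5/229 - (1-δ)/14)
    (hδ' : δ' < 87/100 + (p:ℝ)/q * (δ - 87/100 - (1-δ)/14 + 5/229)) (hs : 87/100 ≤ δ)
    (hg : UGood δ) : UGood δ' := by
  refine ustep (rk := 5/229) (rr := 31/105) (th := 7/20) (by norm_num) (by norm_num) HH HR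
    (by norm_num) (by norm_num) (by norm_num) (by norm_num) (by norm_num) ?_ ?_ hp hpq ?_ ?_ hs hg
  · have := rpow_le_of_pow_le (b := 3) (c := 10243/10000) (u := 5)
      (v := 229) (by norm_num) (by norm_num) (by norm_num) (by norm_num)
    push_cast at this
    exact this
  · have := le_rpow_of_pow_le (b := 3) (c := 13831/10000) (u := 31)
      (v := 105) (by norm_num) (by norm_num) (by norm_num) (by norm_num)
    push_cast at this
    exact this
  · push_cast; exact hcond
  · push_cast; exact hδ'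

theorem stage2 (h0 : UGood (87007/100000)) : UGood (17731/20000) := by
  obtain ⟨h, hmin, HH⟩ := HC_exists
  obtain ⟨G, Gmax, HR⟩ := RB_exists
  have h1 := step2 HH HR 11 20 (87007/100000) (43847/50000) (by norm_num) (by norm_num) (by norm_num)
    (by norm_num) (by norm_num) h0
  have h2 := step2 HH HR 11 20 (43847/50000) (88099/100000) (by norm_num) (by norm_num) (by norm_num)
    (by norm_num) (by norm_num) h1
  have h3 := step2 HH HR 11 20 (88099/100000) (88337/100000) (by norm_num) (by norm_num) (by norm_num)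
    (by norm_num) (by norm_num) h2
  have h4 := step2 HH HR 11 20 (88337/100000) (44239/50000) (by norm_num) (by norm_num) (by norm_num)
    (by norm_num) (by norm_num) h3
  have h5 := step2 HH HR 11 20 (44239/50000) (88561/100000) (by norm_num) (by norm_num) (by norm_num)
    (by norm_num) (by norm_num) h4
  have h6 := step2 HH HR 11 20 (88561/100000) (8861/10000) (by norm_num) (by norm_num) (by norm_num)
    (by norm_num) (by norm_num) h5
  have h7 := step2 HH HR 11 20 (8861/10000) (44319/50000) (by norm_num) (by norm_num) (by norm_num)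
    (by norm_num) (by norm_num) h6
  have h8 := step2 HH HR 11 20 (44319/50000) (17731/20000) (by norm_num) (by norm_num) (by norm_num)
    (by norm_num) (by norm_num) h7
  exact h8

lemma step3 {h G : ℕ → ℝ} {hmin Gmax : ℝ}
    (HH : HSub 11 13 (39/44) (10153/10000) h hmin)
    (HR : RSup (13/25) (13831/10000) G Gmax)
    (p q : ℕ) (δ δ' : ℝ) (hp : 0 < p) (hpq : p < q)
    (hcond : (31/105:ℝ) - ((q:ℝ)-p)/p * (403/1100) < 2/145 - (1-δ)/13)
    (hδ' : δ' < 39/44 + (p:ℝ)/q * (δ - 39/44 - (1-δ)/13 + 2/145)) (hs : 39/44 ≤ δ)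
    (hg : UGood δ) : UGood δ' := by
  refine ustep (rk := 2/145) (rr := 31/105) (th := 403/1100) (by norm_num) (by norm_num) HH HR
    (by norm_num) (by norm_num) (by norm_num) (by norm_num) (by norm_num) ?_ ?_ hp hpq ?_ ?_ hs hg
  · have := rpow_le_of_pow_le (b := 3) (c := 10153/10000) (u := 2)
      (v := 145) (by norm_num) (by norm_num) (by norm_num) (by norm_num)
    push_cast at this
    exact this
  · have := le_rpow_of_pow_le (b := 3) (c := 13831/10000) (u := 31)
      (v := 105) (by norm_num) (by norm_num) (by norm_num) (by norm_num)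
    push_cast at this
    exact this
  · push_cast; exact hcond
  · push_cast; exact hδ'

theorem stage3 (h0 : UGood (17731/20000)) : UGood (89301/100000) := by
  obtain ⟨h, hmin, HH⟩ := HD_exists
  obtain ⟨G, Gmax, HR⟩ := RB_exists
  have h1 := step3 HH HR 111 200 (17731/20000) (88927/100000) (by norm_num) (by norm_num) (by norm_num)
    (by norm_num) (by norm_num) h0
  have h2 := step3 HH HR 111 200 (88927/100000) (8909/10000) (by norm_num) (by norm_num) (by norm_num)
    (by norm_num) (by norm_num) h1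
  have h3 := step3 HH HR 111 200 (8909/10000) (89187/100000) (by norm_num) (by norm_num) (by norm_num)
    (by norm_num) (by norm_num) h2
  have h4 := step3 HH HR 111 200 (89187/100000) (17849/20000) (by norm_num) (by norm_num) (by norm_num)
    (by norm_num) (by norm_num) h3
  have h5 := step3 HH HR 111 200 (17849/20000) (558/625) (by norm_num) (by norm_num) (by norm_num)
    (by norm_num) (by norm_num) h4
  have h6 := step3 HH HR 111 200 (558/625) (89301/100000) (by norm_num) (by norm_num) (by norm_num)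
    (by norm_num) (by norm_num) h5
  exact h6

lemma step4 {h G : ℕ → ℝ} {hmin Gmax : ℝ}
    (HH : HSub 12 13 (25/28) (10157/10000) h hmin)
    (HR : RSup (13/25) (13831/10000) G Gmax)
    (p q : ℕ) (δ δ' : ℝ) (hp : 0 < p) (hpq : p < q)
    (hcond : (31/105:ℝ) - ((q:ℝ)-p)/p * (261/700) < 3/212 - (1-δ)/13)
    (hδ' : δ' < 25/28 + (p:ℝ)/q * (δ - 25/28 - (1-δ)/13 + 3/212)) (hs : 25/28 ≤ δ)
    (hg : UGood δ) : UGood δ' := by
  refine ustep (rk := 3/212) (rr := 31/105) (th := 261/700) (by norm_num) (by norm_num) HH HR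
    (by norm_num) (by norm_num) (by norm_num) (by norm_num) (by norm_num) ?_ ?_ hp hpq ?_ ?_ hs hg
  · have := rpow_le_of_pow_le (b := 3) (c := 10157/10000) (u := 3)
      (v := 212) (by norm_num) (by norm_num) (by norm_num) (by norm_num)
    push_cast at this
    exact this
  · have := le_rpow_of_pow_le (b := 3) (c := 13831/10000) (u := 31)
      (v := 105) (by norm_num) (by norm_num) (by norm_num) (by norm_num)
    push_cast at this
    exact this
  · push_cast; exact hcond
  · push_cast; exact hδ'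

theorem stage4 (h0 : UGood (89301/100000)) : UGood (90079/100000) := by
  obtain ⟨h, hmin, HH⟩ := HE_exists
  obtain ⟨G, Gmax, HR⟩ := RB_exists
  have h1 := step4 HH HR 14 25 (89301/100000) (717/800) (by norm_num) (by norm_num) (by norm_num)
    (by norm_num) (by norm_num) h0
  have h2 := step4 HH HR 14 25 (717/800) (89821/100000) (by norm_num) (by norm_num) (by norm_num)
    (by norm_num) (by norm_num) h1
  have h3 := step4 HH HR 14 25 (89821/100000) (89939/100000) (by norm_num) (by norm_num) (by norm_num)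
    (by norm_num) (by norm_num) h2
  have h4 := step4 HH HR 14 25 (89939/100000) (9001/10000) (by norm_num) (by norm_num) (by norm_num)
    (by norm_num) (by norm_num) h3
  have h5 := step4 HH HR 14 25 (9001/10000) (90053/100000) (by norm_num) (by norm_num) (by norm_num)
    (by norm_num) (by norm_num) h4
  have h6 := step4 HH HR 14 25 (90053/100000) (90079/100000) (by norm_num) (by norm_num) (by norm_num)
    (by norm_num) (by norm_num) h5
  exact h6

theorem ugood_final : UGood (90079/100000) := by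
  obtain ⟨w, wmin, HP⟩ := PB_exists
  exact stage4 (stage3 (stage2 (stage1 (ugood_base HP))))

end H62
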