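set_option autoImplicit false

/-!
# Ternary trees of natural numbers and linear inequalities between their entries

`Tree n` is the type of full ternary trees of depth `n` whose leaves carry four natural numbers
`x y z v`: the values `x y z` are indexed by one more ternary digit, and `v` is an auxiliary value
attached to the leaf.
-/

namespace H62

/-- A leaf. -/
structure B0 : Type where
  x : Nat
  y : Nat
  z : Nat
  v : Nat

/-- An inner node. -/
structure Tri (α : Type) : Type where
  a : α
  b : α
  c : α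

/-- Full ternary trees of depth `n`. -/
def Tree (n : Nat) : Type := Nat.rec (motive := fun _ => Type) B0 (fun _ T => Tri T) n

/-- The carry digit. -/
inductive C4 : Type
  | c0 | c1 | c2 | c3

/-- The auxiliary value of a leaf. -/
noncomputable def mn (t : B0) : Nat := B0.rec (motive := fun _ => Nat) (fun _ _ _ v => v) t

/-- conjunction of three -/
@[reducible] noncomputable def and3 (a b c : Bool) : Bool :=
  Bool.rec (motive := fun _ => Bool) false (Bool.rec (motive := fun _ => Bool) false c b) a

/-- Check of inequalities at the leaves, one further entry (move A), carry 0 -/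
noncomputable def leaf1_0 (lin : Nat → Nat → Bool) (I A : B0) : Bool :=
  B0.rec (motive := fun _ => Bool) (fun x y z _ =>
    B0.rec (motive := fun _ => Bool) (fun a0 a1 a2 _ =>
      (and3 (lin x a0) (lin y a1) (lin z a2))) A) I

/-- Check of inequalities at the leaves, one further entry (move A), carry 1 -/
noncomputable def leaf1_1 (lin : Nat → Nat → Bool) (I A : B0) : Bool :=
  B0.rec (motive := fun _ => Bool) (fun x y z _ =>
    B0.rec (motive := fun _ => Bool) (fun a0 a1 a2 _ =>
      (and3 (lin x a1) (lin y a2) (lin z a0))) A) I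

/-- Check of inequalities at the leaves, one further entry (move A), carry 2 -/
noncomputable def leaf1_2 (lin : Nat → Nat → Bool) (I A : B0) : Bool :=
  B0.rec (motive := fun _ => Bool) (fun x y z _ =>
    B0.rec (motive := fun _ => Bool) (fun a0 a1 a2 _ =>
      (and3 (lin x a2) (lin y a0) (lin z a1))) A) I

/-- Check of inequalities at the leaves, one further entry (move A), carry 3 -/
noncomputable def leaf1_3 (lin : Nat → Nat → Bool) (I A : B0) : Bool :=
  B0.rec (motive := fun _ => Bool) (fun x y z _ =>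
    B0.rec (motive := fun _ => Bool) (fun a0 a1 a2 _ =>
      (and3 (lin x a0) (lin y a1) (lin z a2))) A) I

/-- Check of inequalities at the leaves, one further entry (move A) -/
noncomputable def leaf1 (lin : Nat → Nat → Bool) (I : B0) (c : C4) (A : B0) : Bool :=
  C4.rec (motive := fun _ => Bool) (leaf1_0 lin I A) (leaf1_1 lin I A) (leaf1_2 lin I A)
    (leaf1_3 lin I A) c

/-- Check of inequalities, one further entry (move A), carry 0 -/
noncomputable def go1_0 (n : Nat) (f : Tree n → C4 → Tree n → Bool)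
    (I A : Tri (Tree n)) : Bool :=
  Tri.rec (motive := fun _ => Bool) (fun i0 i1 i2 =>
    Tri.rec (motive := fun _ => Bool) (fun a0 a1 a2 =>
      (and3 (f i0 C4.c0 a0) (f i1 C4.c1 a1) (f i2 C4.c2 a2))) A) I

/-- Check of inequalities, one further entry (move A), carry 1 -/
noncomputable def go1_1 (n : Nat) (f : Tree n → C4 → Tree n → Bool)
    (I A : Tri (Tree n)) : Bool :=
  Tri.rec (motive := fun _ => Bool) (fun i0 i1 i2 =>
    Tri.rec (motive := fun _ => Bool) (fun a0 a1 a2 =>
      (and3 (f i0 C4.c0 a1) (f i1 C4.c1 a2) (f i2 C4.c3 a0))) A) I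

/-- Check of inequalities, one further entry (move A), carry 2 -/
noncomputable def go1_2 (n : Nat) (f : Tree n → C4 → Tree n → Bool)
    (I A : Tri (Tree n)) : Bool :=
  Tri.rec (motive := fun _ => Bool) (fun i0 i1 i2 =>
    Tri.rec (motive := fun _ => Bool) (fun a0 a1 a2 =>
      (and3 (f i0 C4.c0 a2) (f i1 C4.c2 a0) (f i2 C4.c3 a1))) A) I

/-- Check of inequalities, one further entry (move A), carry 3 -/
noncomputable def go1_3 (n : Nat) (f : Tree n → C4 → Tree n → Bool)
    (I A : Tri (Tree n)) : Bool :=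
  Tri.rec (motive := fun _ => Bool) (fun i0 i1 i2 =>
    Tri.rec (motive := fun _ => Bool) (fun a0 a1 a2 =>
      (and3 (f i0 C4.c1 a0) (f i1 C4.c2 a1) (f i2 C4.c3 a2))) A) I

/-- Check of inequalities, one further entry (move A) -/
noncomputable def go1 (lin : Nat → Nat → Bool) (n : Nat) :
    Tree n → C4 → Tree n → Bool :=
  Nat.rec (motive := fun n => Tree n → C4 → Tree n → Bool)
    (fun I c A => leaf1 lin I c A)
    (fun n f I c A => C4.rec (motive := fun _ => Bool) (go1_0 n f I A) (go1_1 n f I A)
      (go1_2 n f I A) (go1_3 n f I A) c) n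

/-- Check of inequalities at the leaves, two further entries (moves A and B), carry 0 -/
noncomputable def leaf2_0 (lin : Nat → Nat → Nat → Bool) (I A : B0) (B : Tri B0) : Bool :=
  B0.rec (motive := fun _ => Bool) (fun x y z _ =>
    B0.rec (motive := fun _ => Bool) (fun a0 a1 a2 _ =>
      Tri.rec (motive := fun _ => Bool) (fun b0 b1 b2 =>
        (and3 (lin x a0 (mn b0)) (lin y a1 (mn b2)) (lin z a2 (mn b1)))) B) A) I

/-- Check of inequalities at the leaves, two further entries (moves A and B), carry 1 -/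
noncomputable def leaf2_1 (lin : Nat → Nat → Nat → Bool) (I A : B0) (B : Tri B0) : Bool :=
  B0.rec (motive := fun _ => Bool) (fun x y z _ =>
    B0.rec (motive := fun _ => Bool) (fun a0 a1 a2 _ =>
      Tri.rec (motive := fun _ => Bool) (fun b0 b1 b2 =>
        (and3 (lin x a1 (mn b0)) (lin y a2 (mn b2)) (lin z a0 (mn b1)))) B) A) I

/-- Check of inequalities at the leaves, two further entries (moves A and B), carry 2 -/
noncomputable def leaf2_2 (lin : Nat → Nat → Nat → Bool) (I A : B0) (B : Tri B0) : Bool :=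
  B0.rec (motive := fun _ => Bool) (fun x y z _ =>
    B0.rec (motive := fun _ => Bool) (fun a0 a1 a2 _ =>
      Tri.rec (motive := fun _ => Bool) (fun b0 b1 b2 =>
        (and3 (lin x a2 (mn b1)) (lin y a0 (mn b0)) (lin z a1 (mn b2)))) B) A) I

/-- Check of inequalities at the leaves, two further entries (moves A and B), carry 3 -/
noncomputable def leaf2_3 (lin : Nat → Nat → Nat → Bool) (I A : B0) (B : Tri B0) : Bool :=
  B0.rec (motive := fun _ => Bool) (fun x y z _ =>
    B0.rec (motive := fun _ => Bool) (fun a0 a1 a2 _ =>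
      Tri.rec (motive := fun _ => Bool) (fun b0 b1 b2 =>
        (and3 (lin x a0 (mn b1)) (lin y a1 (mn b0)) (lin z a2 (mn b2)))) B) A) I

/-- Check of inequalities at the leaves, two further entries (moves A and B) -/
noncomputable def leaf2 (lin : Nat → Nat → Nat → Bool) (I : B0) (c : C4) (A : B0) (B : Tri B0) : Bool :=
  C4.rec (motive := fun _ => Bool) (leaf2_0 lin I A B) (leaf2_1 lin I A B) (leaf2_2 lin I A B)
    (leaf2_3 lin I A B) c

/-- Check of inequalities, two further entries (moves A and B), carry 0 -/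
noncomputable def go2_0 (n : Nat) (f : Tree n → C4 → Tree n → Tree (n+1) → Bool)
    (I A : Tri (Tree n)) (B : Tri (Tree (n+1))) : Bool :=
  Tri.rec (motive := fun _ => Bool) (fun i0 i1 i2 =>
    Tri.rec (motive := fun _ => Bool) (fun a0 a1 a2 =>
      Tri.rec (motive := fun _ => Bool) (fun b0 b1 b2 =>
        (and3 (f i0 C4.c0 a0 b0) (f i1 C4.c1 a1 b2) (f i2 C4.c2 a2 b1))) B) A) I

/-- Check of inequalities, two further entries (moves A and B), carry 1 -/
noncomputable def go2_1 (n : Nat) (f : Tree n → C4 → Tree n → Tree (n+1) → Bool)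
    (I A : Tri (Tree n)) (B : Tri (Tree (n+1))) : Bool :=
  Tri.rec (motive := fun _ => Bool) (fun i0 i1 i2 =>
    Tri.rec (motive := fun _ => Bool) (fun a0 a1 a2 =>
      Tri.rec (motive := fun _ => Bool) (fun b0 b1 b2 =>
        (and3 (f i0 C4.c0 a1 b0) (f i1 C4.c1 a2 b2) (f i2 C4.c3 a0 b1))) B) A) I

/-- Check of inequalities, two further entries (moves A and B), carry 2 -/
noncomputable def go2_2 (n : Nat) (f : Tree n → C4 → Tree n → Tree (n+1) → Bool)
    (I A : Tri (Tree n)) (B : Tri (Tree (n+1))) : Bool :=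
  Tri.rec (motive := fun _ => Bool) (fun i0 i1 i2 =>
    Tri.rec (motive := fun _ => Bool) (fun a0 a1 a2 =>
      Tri.rec (motive := fun _ => Bool) (fun b0 b1 b2 =>
        (and3 (f i0 C4.c0 a2 b1) (f i1 C4.c2 a0 b0) (f i2 C4.c3 a1 b2))) B) A) I

/-- Check of inequalities, two further entries (moves A and B), carry 3 -/
noncomputable def go2_3 (n : Nat) (f : Tree n → C4 → Tree n → Tree (n+1) → Bool)
    (I A : Tri (Tree n)) (B : Tri (Tree (n+1))) : Bool :=
  Tri.rec (motive := fun _ => Bool) (fun i0 i1 i2 =>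
    Tri.rec (motive := fun _ => Bool) (fun a0 a1 a2 =>
      Tri.rec (motive := fun _ => Bool) (fun b0 b1 b2 =>
        (and3 (f i0 C4.c1 a0 b1) (f i1 C4.c2 a1 b0) (f i2 C4.c3 a2 b2))) B) A) I

/-- Check of inequalities, two further entries (moves A and B) -/
noncomputable def go2 (lin : Nat → Nat → Nat → Bool) (n : Nat) :
    Tree n → C4 → Tree n → Tree (n+1) → Bool :=
  Nat.rec (motive := fun n => Tree n → C4 → Tree n → Tree (n+1) → Bool)
    (fun I c A B => leaf2 lin I c A B)
    (fun n f I c A B => C4.rec (motive := fun _ => Bool) (go2_0 n f I A B) (go2_1 n f I A B)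
      (go2_2 n f I A B) (go2_3 n f I A B) c) n

/-- Check of inequalities at the leaves, two further entries (moves A and C), carry 0 -/
noncomputable def leaf0_0 (lin : Nat → Nat → Nat → Bool) (I A : B0) (B : Tri B0) : Bool :=
  B0.rec (motive := fun _ => Bool) (fun x y z _ =>
    B0.rec (motive := fun _ => Bool) (fun a0 a1 a2 _ =>
      Tri.rec (motive := fun _ => Bool) (fun b0 b1 b2 =>
        (and3 (lin x a0 (mn b0)) (lin y a1 (mn b1)) (lin z a2 (mn b2)))) B) A) I

/-- Check of inequalities at the leaves, two further entries (moves A and C), carry 1 -/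
noncomputable def leaf0_1 (lin : Nat → Nat → Nat → Bool) (I A : B0) (B : Tri B0) : Bool :=
  B0.rec (motive := fun _ => Bool) (fun x y z _ =>
    B0.rec (motive := fun _ => Bool) (fun a0 a1 a2 _ =>
      Tri.rec (motive := fun _ => Bool) (fun b0 b1 b2 =>
        (and3 (lin x a1 (mn b1)) (lin y a2 (mn b2)) (lin z a0 (mn b0)))) B) A) I

/-- Check of inequalities at the leaves, two further entries (moves A and C), carry 2 -/
noncomputable def leaf0_2 (lin : Nat → Nat → Nat → Bool) (I A : B0) (B : Tri B0) : Bool :=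
  B0.rec (motive := fun _ => Bool) (fun x y z _ =>
    B0.rec (motive := fun _ => Bool) (fun a0 a1 a2 _ =>
      Tri.rec (motive := fun _ => Bool) (fun b0 b1 b2 =>
        (and3 (lin x a2 (mn b2)) (lin y a0 (mn b0)) (lin z a1 (mn b1)))) B) A) I

/-- Check of inequalities at the leaves, two further entries (moves A and C), carry 3 -/
noncomputable def leaf0_3 (lin : Nat → Nat → Nat → Bool) (I A : B0) (B : Tri B0) : Bool :=
  B0.rec (motive := fun _ => Bool) (fun x y z _ =>
    B0.rec (motive := fun _ => Bool) (fun a0 a1 a2 _ =>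
      Tri.rec (motive := fun _ => Bool) (fun b0 b1 b2 =>
        (and3 (lin x a0 (mn b0)) (lin y a1 (mn b1)) (lin z a2 (mn b2)))) B) A) I

/-- Check of inequalities at the leaves, two further entries (moves A and C) -/
noncomputable def leaf0 (lin : Nat → Nat → Nat → Bool) (I : B0) (c : C4) (A : B0) (B : Tri B0) : Bool :=
  C4.rec (motive := fun _ => Bool) (leaf0_0 lin I A B) (leaf0_1 lin I A B) (leaf0_2 lin I A B)
    (leaf0_3 lin I A B) c

/-- Check of inequalities, two further entries (moves A and C), carry 0 -/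
noncomputable def go0_0 (n : Nat) (f : Tree n → C4 → Tree n → Tree (n+1) → Bool)
    (I A : Tri (Tree n)) (B : Tri (Tree (n+1))) : Bool :=
  Tri.rec (motive := fun _ => Bool) (fun i0 i1 i2 =>
    Tri.rec (motive := fun _ => Bool) (fun a0 a1 a2 =>
      Tri.rec (motive := fun _ => Bool) (fun b0 b1 b2 =>
        (and3 (f i0 C4.c0 a0 b0) (f i1 C4.c1 a1 b1) (f i2 C4.c2 a2 b2))) B) A) I

/-- Check of inequalities, two further entries (moves A and C), carry 1 -/
noncomputable def go0_1 (n : Nat) (f : Tree n → C4 → Tree n → Tree (n+1) → Bool)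
    (I A : Tri (Tree n)) (B : Tri (Tree (n+1))) : Bool :=
  Tri.rec (motive := fun _ => Bool) (fun i0 i1 i2 =>
    Tri.rec (motive := fun _ => Bool) (fun a0 a1 a2 =>
      Tri.rec (motive := fun _ => Bool) (fun b0 b1 b2 =>
        (and3 (f i0 C4.c0 a1 b1) (f i1 C4.c1 a2 b2) (f i2 C4.c3 a0 b0))) B) A) I

/-- Check of inequalities, two further entries (moves A and C), carry 2 -/
noncomputable def go0_2 (n : Nat) (f : Tree n → C4 → Tree n → Tree (n+1) → Bool)
    (I A : Tri (Tree n)) (B : Tri (Tree (n+1))) : Bool :=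
  Tri.rec (motive := fun _ => Bool) (fun i0 i1 i2 =>
    Tri.rec (motive := fun _ => Bool) (fun a0 a1 a2 =>
      Tri.rec (motive := fun _ => Bool) (fun b0 b1 b2 =>
        (and3 (f i0 C4.c0 a2 b2) (f i1 C4.c2 a0 b0) (f i2 C4.c3 a1 b1))) B) A) I

/-- Check of inequalities, two further entries (moves A and C), carry 3 -/
noncomputable def go0_3 (n : Nat) (f : Tree n → C4 → Tree n → Tree (n+1) → Bool)
    (I A : Tri (Tree n)) (B : Tri (Tree (n+1))) : Bool :=
  Tri.rec (motive := fun _ => Bool) (fun i0 i1 i2 =>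
    Tri.rec (motive := fun _ => Bool) (fun a0 a1 a2 =>
      Tri.rec (motive := fun _ => Bool) (fun b0 b1 b2 =>
        (and3 (f i0 C4.c1 a0 b0) (f i1 C4.c2 a1 b1) (f i2 C4.c3 a2 b2))) B) A) I

/-- Check of inequalities, two further entries (moves A and C) -/
noncomputable def go0 (lin : Nat → Nat → Nat → Bool) (n : Nat) :
    Tree n → C4 → Tree n → Tree (n+1) → Bool :=
  Nat.rec (motive := fun n => Tree n → C4 → Tree n → Tree (n+1) → Bool)
    (fun I c A B => leaf0 lin I c A B)
    (fun n f I c A B => C4.rec (motive := fun _ => Bool) (go0_0 n f I A B) (go0_1 n f I A B)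
      (go0_2 n f I A B) (go0_3 n f I A B) c) n

/-- Check of all leaves. -/
noncomputable def blk (q : Nat → Nat → Nat → Nat → Bool) (n : Nat) : Tree n → Bool :=
  Nat.rec (motive := fun n => Tree n → Bool)
    (fun t => B0.rec (motive := fun _ => Bool) (fun x y z v => q x y z v) t)
    (fun _ f t => Tri.rec (motive := fun _ => Bool) (fun a b c => and3 (f a) (f b) (f c)) t) n

/-! ### splitting a check into three parts -/

theorem and3_true {a b c : Bool} (ha : a = true) (hb : b = true) (hc : c = true) :
    and3 a b c = true := by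
  subst ha; subst hb; subst hc; rfl

theorem go1_split2 {lin : Nat → Nat → Bool} {n : Nat} (I A : Tri (Tree n))
    (h0 : go1 lin n I.a C4.c0 A.c = true) (h1 : go1 lin n I.b C4.c2 A.a = true)
    (h2 : go1 lin n I.c C4.c3 A.b = true) : go1 lin (n+1) I C4.c2 A = true := by
  cases I; cases A; exact and3_true h0 h1 h2

theorem go2_split3 {lin : Nat → Nat → Nat → Bool} {n : Nat} (I A : Tri (Tree n))
    (B : Tri (Tree (n+1))) (h0 : go2 lin n I.a C4.c1 A.a B.b = true)
    (h1 : go2 lin n I.b C4.c2 A.b B.a = true) (h2 : go2 lin n I.c C4.c3 A.c B.c = true) :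
    go2 lin (n+1) I C4.c3 A B = true := by
  cases I; cases A; cases B; exact and3_true h0 h1 h2

theorem go0_split0 {lin : Nat → Nat → Nat → Bool} {n : Nat} (I A : Tri (Tree n))
    (B : Tri (Tree (n+1))) (h0 : go0 lin n I.a C4.c0 A.a B.a = true)
    (h1 : go0 lin n I.b C4.c1 A.b B.b = true) (h2 : go0 lin n I.c C4.c2 A.c B.c = true) :
    go0 lin (n+1) I C4.c0 A B = true := by
  cases I; cases A; cases B; exact and3_true h0 h1 h2

theorem blk_split {q : Nat → Nat → Nat → Nat → Bool} {n : Nat} (t : Tri (Tree n))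
    (h0 : blk q n t.a = true) (h1 : blk q n t.b = true) (h2 : blk q n t.c = true) :
    blk q (n+1) t = true := by
  cases t; exact and3_true h0 h1 h2

/-- `D * h ≤ al * a` -/
noncomputable def lin1 (D al : Nat) (h a : Nat) : Bool := Nat.ble (Nat.mul D h) (Nat.mul al a)

/-- `D * h ≤ al * a + be * v` -/
noncomputable def lin2 (D al be : Nat) (h a v : Nat) : Bool :=
  Nat.ble (Nat.mul D h) (Nat.add (Nat.mul al a) (Nat.mul be v))

/-- `al * a ≤ D * h` -/
noncomputable def ulin1 (D al : Nat) (h a : Nat) : Bool := Nat.ble (Nat.mul al a) (Nat.mul D h)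

/-- `al * a + be * v ≤ D * h` -/
noncomputable def ulin2 (D al be : Nat) (h a v : Nat) : Bool :=
  Nat.ble (Nat.add (Nat.mul al a) (Nat.mul be v)) (Nat.mul D h)

/-- `1 ≤ v ≤ x, y, z` -/
noncomputable def qmin (x y z v : Nat) : Bool :=
  and3 (Nat.ble v x) (Nat.ble v y) (Bool.rec (motive := fun _ => Bool) false (Nat.ble 1 v)
    (Nat.ble v z))

/-- `1 ≤ x, y, z ≤ v` -/
noncomputable def qmax (x y z v : Nat) : Bool :=
  and3 (and3 (Nat.ble x v) (Nat.ble y v) (Nat.ble z v)) (Nat.ble 1 x)
    (Bool.rec (motive := fun _ => Bool) false (Nat.ble 1 y) (Nat.ble 1 z))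

/-- the mean inequality, powers given -/
noncomputable def qmean' (p q r w : Nat) : Bool :=
  Nat.ble (Nat.mul w (Nat.add (Nat.mul (Nat.add p q) r) (Nat.mul p q)))
    (Nat.mul (Nat.mul 3 r) (Nat.mul p q))

/-- `1 ≤ x, y, z, v` and `v ^ lam * (x ^ lam * z ^ lam + ...) ≤ 3 * x ^ lam * y ^ lam * z ^ lam` -/
noncomputable def qmean (lam : Nat) (x y z v : Nat) : Bool :=
  and3 (Nat.ble 1 v) (Nat.ble 1 (Nat.mul x (Nat.mul y z)))
    (qmean' (Nat.pow x lam) (Nat.pow y lam) (Nat.pow z lam) (Nat.pow v lam))


/-- the leaf packed in `n` -/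
noncomputable def uB (n : Nat) : B0 :=
  B0.mk (Nat.land n (nat_lit 0x3ffffff)) (Nat.land (Nat.shiftRight n (nat_lit 26)) (nat_lit 0x3ffffff))
    (Nat.land (Nat.shiftRight n (nat_lit 52)) (nat_lit 0x3ffffff)) (Nat.shiftRight n (nat_lit 78))

/-- the tree of depth 1 packed in `n` -/
noncomputable def u1 (n : Nat) : Tri B0 :=
  Tri.mk (uB (Nat.land n (nat_lit 0xffffffffffffffffffffffffff)))
    (uB (Nat.land (Nat.shiftRight n (nat_lit 104)) (nat_lit 0xffffffffffffffffffffffffff)))
    (uB (Nat.shiftRight n (nat_lit 208)))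

/-- the tree of depth 2 packed in `n` -/
noncomputable def u2 (n : Nat) : Tri (Tri B0) :=
  Tri.mk (u1 (Nat.land n (nat_lit 0xffffffffffffffffffffffffffffffffffffffffffffffffffffffffffffffffffffffffffffff)))
    (u1 (Nat.land (Nat.shiftRight n (nat_lit 312)) (nat_lit 0xffffffffffffffffffffffffffffffffffffffffffffffffffffffffffffffffffffffffffffff)))
    (u1 (Nat.shiftRight n (nat_lit 624)))

/-- the tree of depth 3 packed in `n` -/
noncomputable def u3 (n : Nat) : Tri (Tri (Tri B0)) :=
  Tri.mk (u2 (Nat.land n (nat_lit 0xffffffffffffffffffffffffffffffffffffffffffffffffffffffffffffffffffffffffffffffffffffffffffffffffffffffffffffffffffffffffffffffffffffffffffffffffffffffffffffffffffffffffffffffffffffffffffffffffffffffffffffffffffffffffffffffffffffffffff)))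
    (u2 (Nat.land (Nat.shiftRight n (nat_lit 936)) (nat_lit 0xffffffffffffffffffffffffffffffffffffffffffffffffffffffffffffffffffffffffffffffffffffffffffffffffffffffffffffffffffffffffffffffffffffffffffffffffffffffffffffffffffffffffffffffffffffffffffffffffffffffffffffffffffffffffffffffffffffffffff)))
    (u2 (Nat.shiftRight n (nat_lit 1872)))


end H62
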