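import Pool.Agent.Lib.H62u.CertSpec

set_option autoImplicit false

namespace H62

/-! ### general facts about trees -/

lemma tval_bdd : ∀ (n : ℕ) (t : Tree n), ∃ M : ℕ, 1 ≤ M ∧ ∀ i, tval n t i ≤ M := by
  intro n
  induction n with
  | zero =>
    intro t
    change B0 at t
    refine ⟨1 + t.x + t.y + t.z, by omega, fun i => ?_⟩
    obtain ⟨k, rfl | rfl | rfl⟩ := three_cases i
    · rw [tval0_0]; omega
    · rw [tval0_1]; omega
    · rw [tval0_2]; omega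
  | succ n ih =>
    intro t
    change Tri (Tree n) at t
    obtain ⟨Ma, hMa, ha⟩ := ih t.a
    obtain ⟨Mb, _, hb⟩ := ih t.b
    obtain ⟨Mc, _, hc⟩ := ih t.c
    refine ⟨Ma + Mb + Mc, by omega, fun i => ?_⟩
    obtain ⟨k, rfl | rfl | rfl⟩ := three_cases i
    · rw [tvals_0]; have := ha k; omega
    · rw [tvals_1]; have := hb k; omega
    · rw [tvals_2]; have := hc k; omega

lemma tval_per : ∀ (n : ℕ) (t : Tree n) (i : ℕ), tval n t (i + 3^(n+1)) = tval n t i := by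
  intro n
  induction n with
  | zero =>
    intro t i
    change B0 at t
    obtain ⟨k, rfl | rfl | rfl⟩ := three_cases i
    · rw [show 3*k + 3^(0+1) = 3*(k+1) by ring, tval0_0, tval0_0]
    · rw [show 3*k+1 + 3^(0+1) = 3*(k+1)+1 by ring, tval0_1, tval0_1]
    · rw [show 3*k+2 + 3^(0+1) = 3*(k+1)+2 by ring, tval0_2, tval0_2]
  | succ n ih =>
    intro t i
    change Tri (Tree n) at t
    obtain ⟨k, rfl | rfl | rfl⟩ := three_cases i
    · rw [show 3*k + 3^(n+1+1) = 3*(k+3^(n+1)) by ring, tvals_0, tvals_0, ih]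
    · rw [show 3*k+1 + 3^(n+1+1) = 3*(k+3^(n+1))+1 by ring, tvals_1, tvals_1, ih]
    · rw [show 3*k+2 + 3^(n+1+1) = 3*(k+3^(n+1))+2 by ring, tvals_2, tvals_2, ih]

/-- leaf statement for arbitrary indices -/
lemma blk_pt {q : ℕ → ℕ → ℕ → ℕ → Bool} {Q : ℕ → ℕ → Prop}
    (hq : ∀ x y z v, q x y z v = true → Q x v ∧ Q y v ∧ Q z v) : ∀ (n : ℕ) (t : Tree n),
    blk q n t = true → ∀ i, Q (tval n t i) (tmean n t i) := by
  intro n
  induction n with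
  | zero =>
    intro t h i
    change B0 at t
    obtain ⟨x, y, z, v⟩ := t
    change q x y z v = true at h
    have := hq _ _ _ _ h
    obtain ⟨k, rfl | rfl | rfl⟩ := three_cases i
    · rw [tval0_0, tmean0]; exact this.1
    · rw [tval0_1, tmean0]; exact this.2.1
    · rw [tval0_2, tmean0]; exact this.2.2
  | succ n ih =>
    intro t h i
    change Tri (Tree n) at t
    obtain ⟨a, b, c⟩ := t
    change and3 (blk q n a) (blk q n b) (blk q n c) = true at h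
    rw [and3_iff] at h
    obtain ⟨k, rfl | rfl | rfl⟩ := three_cases i
    · rw [tvals_0, tmeans_0]; exact ih _ h.1 k
    · rw [tvals_1, tmeans_1]; exact ih _ h.2.1 k
    · rw [tvals_2, tmeans_2]; exact ih _ h.2.2 k

/-- leaf statement for the three lifts -/
lemma blk_cyc {q : ℕ → ℕ → ℕ → ℕ → Bool} {Q : ℕ → ℕ → ℕ → ℕ → Prop}
    (hq : ∀ x y z v, q x y z v = true → Q x y z v ∧ Q y z x v ∧ Q z x y v) :
    ∀ (n : ℕ) (t : Tree n), blk q n t = true →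
    ∀ i, Q (tval n t i) (tval n t (i + 3^n)) (tval n t (i + 2*3^n)) (tmean n t i) := by
  intro n
  induction n with
  | zero =>
    intro t h i
    change B0 at t
    obtain ⟨x, y, z, v⟩ := t
    change q x y z v = true at h
    have := hq _ _ _ _ h
    obtain ⟨k, rfl | rfl | rfl⟩ := three_cases i
    · rw [show 3*k + 3^0 = 3*k+1 by ring, show 3*k + 2*3^0 = 3*k+2 by ring,
        tval0_0, tval0_1, tval0_2, tmean0]; exact this.1
    · rw [show 3*k+1 + 3^0 = 3*k+2 by ring, show 3*k+1 + 2*3^0 = 3*(k+1) by ring,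
        tval0_0, tval0_1, tval0_2, tmean0]; exact this.2.1
    · rw [show 3*k+2 + 3^0 = 3*(k+1) by ring, show 3*k+2 + 2*3^0 = 3*(k+1)+1 by ring,
        tval0_0, tval0_1, tval0_2, tmean0]; exact this.2.2
  | succ n ih =>
    intro t h i
    change Tri (Tree n) at t
    obtain ⟨a, b, c⟩ := t
    change and3 (blk q n a) (blk q n b) (blk q n c) = true at h
    rw [and3_iff] at h
    obtain ⟨k, rfl | rfl | rfl⟩ := three_cases i
    · rw [show 3*k + 3^(n+1) = 3*(k+3^n) by ring, show 3*k + 2*3^(n+1) = 3*(k+2*3^n) by ring,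
        tvals_0, tvals_0, tvals_0, tmeans_0]; exact ih _ h.1 k
    · rw [show 3*k+1 + 3^(n+1) = 3*(k+3^n)+1 by ring,
        show 3*k+1 + 2*3^(n+1) = 3*(k+2*3^n)+1 by ring,
        tvals_1, tvals_1, tvals_1, tmeans_1]; exact ih _ h.2.1 k
    · rw [show 3*k+2 + 3^(n+1) = 3*(k+3^n)+2 by ring,
        show 3*k+2 + 2*3^(n+1) = 3*(k+2*3^n)+2 by ring,
        tvals_2, tvals_2, tvals_2, tmeans_2]; exact ih _ h.2.2 k

/-! ### the three kinds of leaf tests -/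

lemma qmin_spec (x y z v : ℕ) (h : qmin x y z v = true) :
    (v ≤ x ∧ 1 ≤ v) ∧ (v ≤ y ∧ 1 ≤ v) ∧ (v ≤ z ∧ 1 ≤ v) := by
  unfold qmin at h
  rw [and3_iff] at h
  obtain ⟨h1, h2, h3⟩ := h
  have h3' : Nat.ble 1 v = true ∧ Nat.ble v z = true := by
    revert h3
    cases Nat.ble 1 v <;> cases Nat.ble v z <;> simp
  rw [Nat.ble_eq] at h1 h2
  have h4 := Nat.le_of_ble_eq_true h3'.1
  have h5 := Nat.le_of_ble_eq_true h3'.2
  exact ⟨⟨h1, h4⟩, ⟨h2, h4⟩, ⟨h5, h4⟩⟩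

lemma qmax_spec (x y z v : ℕ) (h : qmax x y z v = true) :
    (x ≤ v ∧ 1 ≤ x) ∧ (y ≤ v ∧ 1 ≤ y) ∧ (z ≤ v ∧ 1 ≤ z) := by
  unfold qmax at h
  rw [and3_iff, and3_iff] at h
  obtain ⟨⟨h1, h2, h3⟩, h4, h5⟩ := h
  have h5' : Nat.ble 1 y = true ∧ Nat.ble 1 z = true := by
    revert h5
    cases Nat.ble 1 y <;> cases Nat.ble 1 z <;> simp
  rw [Nat.ble_eq] at h1 h2 h3 h4
  have h6 := Nat.le_of_ble_eq_true h5'.1
  have h7 := Nat.le_of_ble_eq_true h5'.2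
  exact ⟨⟨h1, h4⟩, ⟨h2, h6⟩, ⟨h3, h7⟩⟩

/-- the mean inequality -/
def QM (lam x y z v : ℕ) : Prop :=
  1 ≤ x ∧ 1 ≤ y ∧ 1 ≤ z ∧ 1 ≤ v ∧
    v^lam * (x^lam * y^lam + y^lam * z^lam + x^lam * z^lam) ≤ 3 * (x^lam * y^lam * z^lam)

lemma qmean_spec (lam x y z v : ℕ) (h : qmean lam x y z v = true) : QM lam x y z v := by
  unfold qmean at h
  rw [and3_iff] at h
  obtain ⟨h1, h2, h3⟩ := h
  have h1' := Nat.le_of_ble_eq_true h1
  have h2' : 1 ≤ x * (y * z) := Nat.le_of_ble_eq_true h2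
  have h3' : v^lam * ((x^lam + y^lam) * z^lam + x^lam * y^lam) ≤ (3 * z^lam) * (x^lam * y^lam) :=
    Nat.le_of_ble_eq_true h3
  have hx : x ≠ 0 := by rintro rfl; simp at h2'
  have hy : y ≠ 0 := by rintro rfl; simp at h2'
  have hz : z ≠ 0 := by rintro rfl; simp at h2'
  refine ⟨by omega, by omega, by omega, h1', ?_⟩
  calc v^lam * (x^lam * y^lam + y^lam * z^lam + x^lam * z^lam)
      = v^lam * ((x^lam + y^lam) * z^lam + x^lam * y^lam) := by ring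
    _ ≤ _ := h3'
    _ = _ := by ring

lemma QM_rot {lam x y z v : ℕ} (h : QM lam x y z v) : QM lam y z x v := by
  obtain ⟨h1, h2, h3, h4, h5⟩ := h
  refine ⟨h2, h3, h1, h4, ?_⟩
  calc v^lam * (y^lam * z^lam + z^lam * x^lam + y^lam * x^lam)
      = v^lam * (x^lam * y^lam + y^lam * z^lam + x^lam * z^lam) := by ring
    _ ≤ _ := h5
    _ = _ := by ring

/-- `a ≤ B`, cross multiplied form of the leaf inequality -/
lemma QM_real {lam x y z v : ℕ} (h : QM lam x y z v) {M : ℝ} (hM : 0 < M) :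
    (((x:ℝ)/M)^lam)⁻¹ + (((y:ℝ)/M)^lam)⁻¹ + (((z:ℝ)/M)^lam)⁻¹ ≤ 3 * (((v:ℝ)/M)^lam)⁻¹ := by
  obtain ⟨h1, h2, h3, h4, h5⟩ := h
  have hx : (0:ℝ) < x := by exact_mod_cast h1
  have hy : (0:ℝ) < y := by exact_mod_cast h2
  have hz : (0:ℝ) < z := by exact_mod_cast h3
  have hv : (0:ℝ) < v := by exact_mod_cast h4
  have h5' : (v:ℝ)^lam * ((x:ℝ)^lam * (y:ℝ)^lam + (y:ℝ)^lam * (z:ℝ)^lam + (x:ℝ)^lam * (z:ℝ)^lam)
      ≤ 3 * ((x:ℝ)^lam * (y:ℝ)^lam * (z:ℝ)^lam) := by exact_mod_cast h5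
  simp only [div_pow, inv_div]
  have hxl : (0:ℝ) < (x:ℝ)^lam := by positivity
  have hyl : (0:ℝ) < (y:ℝ)^lam := by positivity
  have hzl : (0:ℝ) < (z:ℝ)^lam := by positivity
  have hvl : (0:ℝ) < (v:ℝ)^lam := by positivity
  have hMl : (0:ℝ) < M^lam := by positivity
  have e : M^lam / (x:ℝ)^lam + M^lam / (y:ℝ)^lam + M^lam / (z:ℝ)^lam =
      M^lam * (((x:ℝ)^lam * (y:ℝ)^lam + (y:ℝ)^lam * (z:ℝ)^lam + (x:ℝ)^lam * (z:ℝ)^lam) /
        ((x:ℝ)^lam * (y:ℝ)^lam * (z:ℝ)^lam)) := by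
    field_simp
    ring
  rw [e]
  have : ((x:ℝ)^lam * (y:ℝ)^lam + (y:ℝ)^lam * (z:ℝ)^lam + (x:ℝ)^lam * (z:ℝ)^lam) /
        ((x:ℝ)^lam * (y:ℝ)^lam * (z:ℝ)^lam) ≤ 3 / (v:ℝ)^lam := by
    rw [div_le_div_iff₀ (by positivity) hvl]
    linarith
  calc _ ≤ M^lam * (3 / (v:ℝ)^lam) := mul_le_mul_of_nonneg_left this hMl.le
    _ = _ := by ring

/-! ### the linear checks -/

lemma lin1_spec {D al h a : ℕ} (H : lin1 D al h a = true) : D * h ≤ al * a :=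
  Nat.le_of_ble_eq_true H
lemma lin2_spec {D al be h a v : ℕ} (H : lin2 D al be h a v = true) : D * h ≤ al * a + be * v :=
  Nat.le_of_ble_eq_true H
lemma ulin1_spec {D al h a : ℕ} (H : ulin1 D al h a = true) : al * a ≤ D * h :=
  Nat.le_of_ble_eq_true H
lemma ulin2_spec {D al be h a v : ℕ} (H : ulin2 D al be h a v = true) :
    al * a + be * v ≤ D * h :=
  Nat.le_of_ble_eq_true H

/-- The three families of lower inequalities. -/
structure Low (n D al be ga : ℕ) (t : Tree n) : Prop where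
  h1 : ∀ j, D * tval n t (3*j+1) ≤ al * tval n t (4*(3*j+1)+2)
  h2 : ∀ j, D * tval n t (3*j+2) ≤ al * tval n t (4*(3*j+2)+2) + be * tmean n t (2*j+1)
  h0 : ∀ j, D * tval n t (3*j) ≤ al * tval n t (4*(3*j)+2) + ga * tmean n t (4*j)

/-- The three families of upper inequalities. -/
structure Upp (n D al be ga : ℕ) (t : Tree n) : Prop where
  h1 : ∀ j, al * tval n t (4*(3*j+1)+2) ≤ D * tval n t (3*j+1)
  h2 : ∀ j, al * tval n t (4*(3*j+2)+2) + be * tmean n t (2*j+1) ≤ D * tval n t (3*j+2)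
  h0 : ∀ j, al * tval n t (4*(3*j)+2) + ga * tmean n t (4*j) ≤ D * tval n t (3*j)

lemma mkLow {n D al be ga : ℕ} (t : Tri (Tree n))
    (c1 : go1 (lin1 D al) n t.b C4.c2 t.a = true)
    (c2 : go2 (lin2 D al be) n t.c C4.c3 t.b t = true)
    (c0 : go0 (lin2 D al ga) n t.a C4.c0 t.c t = true) : Low (n+1) D al be ga t := by
  refine ⟨fun j => ?_, fun j => ?_, fun j => ?_⟩
  · have := lin1_spec (go1_spec _ n _ _ _ c1 j)
    rw [show 4*(3*j+1)+2 = 3*(4*j+2) by ring, tvals_1, tvals_0]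
    exact this
  · have := lin2_spec (go2_spec _ n _ _ _ _ c2 j)
    rw [show 4*(3*j+2)+2 = 3*(4*j+3)+1 by ring, tvals_2, tvals_1]
    exact this
  · have := lin2_spec (go0_spec _ n _ _ _ _ c0 j)
    rw [show 4*(3*j)+2 = 3*(4*j)+2 by ring, tvals_0, tvals_2]
    exact this

lemma mkUpp {n D al be ga : ℕ} (t : Tri (Tree n))
    (c1 : go1 (ulin1 D al) n t.b C4.c2 t.a = true)
    (c2 : go2 (ulin2 D al be) n t.c C4.c3 t.b t = true)
    (c0 : go0 (ulin2 D al ga) n t.a C4.c0 t.c t = true) : Upp (n+1) D al be ga t := by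
  refine ⟨fun j => ?_, fun j => ?_, fun j => ?_⟩
  · have := ulin1_spec (go1_spec _ n _ _ _ c1 j)
    rw [show 4*(3*j+1)+2 = 3*(4*j+2) by ring, tvals_1, tvals_0]
    exact this
  · have := ulin2_spec (go2_spec _ n _ _ _ _ c2 j)
    rw [show 4*(3*j+2)+2 = 3*(4*j+3)+1 by ring, tvals_2, tvals_1]
    exact this
  · have := ulin2_spec (go0_spec _ n _ _ _ _ c0 j)
    rw [show 4*(3*j)+2 = 3*(4*j)+2 by ring, tvals_0, tvals_2]
    exact this

/-! ### building the three kinds of subsolutions -/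

lemma Low.r1 {n D al be ga : ℕ} {t : Tree n} (H : Low n D al be ga t) (j : ℕ) :
    (D:ℝ) * (tval n t (3*j+1) : ℝ) ≤ al * (tval n t (4*(3*j+1)+2) : ℝ) := by
  exact_mod_cast H.h1 j
lemma Low.r2 {n D al be ga : ℕ} {t : Tree n} (H : Low n D al be ga t) (j : ℕ) :
    (D:ℝ) * (tval n t (3*j+2) : ℝ) ≤ al * (tval n t (4*(3*j+2)+2) : ℝ)
      + be * (tmean n t (2*j+1) : ℝ) := by
  exact_mod_cast H.h2 j
lemma Low.r0 {n D al be ga : ℕ} {t : Tree n} (H : Low n D al be ga t) (j : ℕ) :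
    (D:ℝ) * (tval n t (3*j) : ℝ) ≤ al * (tval n t (4*(3*j)+2) : ℝ)
      + ga * (tmean n t (4*j) : ℝ) := by
  exact_mod_cast H.h0 j

lemma div_ineq1 {D al : ℕ} {h a M c : ℝ} (hD : 0 < D) (hM : 0 < M) (ha : 0 ≤ a)
    (hc : (al:ℝ) / D ≤ c) (H : (D:ℝ) * h ≤ al * a) : h / M ≤ c * (a / M) := by
  have hD' : (0:ℝ) < D := by exact_mod_cast hD
  have h1 : h ≤ (al:ℝ) / D * a := by
    rw [div_mul_eq_mul_div, le_div_iff₀ hD']; linarith
  calc h / M ≤ ((al:ℝ) / D * a) / M := div_le_div_of_nonneg_right h1 hM.le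
    _ = (al:ℝ) / D * (a / M) := by ring
    _ ≤ _ := mul_le_mul_of_nonneg_right hc (by positivity)

lemma div_ineq2 {D al be : ℕ} {h a v M c d : ℝ} (hD : 0 < D) (hM : 0 < M) (ha : 0 ≤ a) (hv : 0 ≤ v)
    (hc : (al:ℝ) / D ≤ c) (hd : (be:ℝ) / D ≤ d) (H : (D:ℝ) * h ≤ al * a + be * v) :
    h / M ≤ c * (a / M) + d * (v / M) := by
  have hD' : (0:ℝ) < D := by exact_mod_cast hD
  have h1 : h ≤ (al:ℝ) / D * a + (be:ℝ) / D * v := by
    rw [div_mul_eq_mul_div, div_mul_eq_mul_div, ← add_div, le_div_iff₀ hD']; linarith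
  calc h / M ≤ ((al:ℝ) / D * a + (be:ℝ) / D * v) / M := div_le_div_of_nonneg_right h1 hM.le
    _ = (al:ℝ) / D * (a / M) + (be:ℝ) / D * (v / M) := by ring
    _ ≤ _ := add_le_add (mul_le_mul_of_nonneg_right hc (by positivity))
        (mul_le_mul_of_nonneg_right hd (by positivity))

theorem mkP {n D al be ga : ℕ} {t : Tree n} (HL : Low n D al be ga t)
    (hb : blk qmin n t = true) {s z : ℝ} (hs : 0 < s) (hz : 0 < z) (hz1 : z < 1) (hD : 0 < D)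
    (hal : (al:ℝ)/D ≤ z^2 * (4:ℝ)^(-s)) (hbe : (be:ℝ)/D ≤ z * (3/2:ℝ)^s)
    (hga : (ga:ℝ)/D ≤ z^2 * (3/4:ℝ)^s) :
    ∃ (w : ℕ → ℝ) (wmin : ℝ), PSub s z w wmin := by
  obtain ⟨M, hM1, hM⟩ := tval_bdd n t
  have hM0 : (0:ℝ) < M := by exact_mod_cast hM1
  have hb' := blk_pt (Q := fun a v => v ≤ a ∧ 1 ≤ v) qmin_spec n t hb
  have hnn : ∀ i, (0:ℝ) ≤ (tval n t i : ℝ) := fun i => Nat.cast_nonneg _
  have hnm : ∀ i, (0:ℝ) ≤ (tmean n t i : ℝ) := fun i => Nat.cast_nonneg _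
  have hmv : ∀ i, (tmean n t i : ℝ) / M ≤ (tval n t i : ℝ) / M := fun i =>
    div_le_div_of_nonneg_right (by exact_mod_cast (hb' i).1) hM0.le
  refine ⟨fun i => (tval n t i : ℝ)/M, 1/M, hs, hz, hz1, by positivity, ?_, ?_, ?_, ?_, ?_⟩
  · intro i
    apply div_le_div_of_nonneg_right _ hM0.le
    exact_mod_cast (hb' i).2.trans (hb' i).1
  · intro i
    rw [div_le_one hM0]
    exact_mod_cast hM i
  · intro j
    have := div_ineq1 hD hM0 (hnn _) hal (HL.r1 j)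
    calc _ ≤ _ := this
      _ = _ := by ring
  · intro j
    have := div_ineq2 hD hM0 (hnn _) (hnm _) hal hbe (HL.r2 j)
    have h2 := mul_le_mul_of_nonneg_left (hmv (2*j+1)) (show 0 ≤ z * (3/2:ℝ)^s by positivity)
    calc _ ≤ _ := this
      _ ≤ z^2 * (4:ℝ)^(-s) * ((tval n t (4*(3*j+2)+2) : ℝ)/M) +
          z * (3/2:ℝ)^s * ((tval n t (2*j+1) : ℝ)/M) := by linarith
      _ = _ := by ring
  · intro j
    have := div_ineq2 hD hM0 (hnn _) (hnm _) hal hga (HL.r0 j)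
    have h2 := mul_le_mul_of_nonneg_left (hmv (4*j)) (show 0 ≤ z^2 * (3/4:ℝ)^s by positivity)
    calc _ ≤ _ := this
      _ ≤ z^2 * (4:ℝ)^(-s) * ((tval n t (4*(3*j)+2) : ℝ)/M) +
          z^2 * (3/4:ℝ)^s * ((tval n t (4*j) : ℝ)/M) := by linarith
      _ = _ := by ring

theorem mkH {n D al be ga lam : ℕ} {t : Tree n} (HL : Low n D al be ga t)
    (hb : blk (qmean lam) n t = true) {s kap : ℝ} (hk : 0 < kap) (hD : 0 < D)
    (hal : (al:ℝ)/D ≤ (4:ℝ)^(-s)) (hbe : (be:ℝ)/D ≤ (3/2:ℝ)^s / kap)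
    (hga : (ga:ℝ)/D ≤ (3/4:ℝ)^s / kap) :
    ∃ (h : ℕ → ℝ) (hmin : ℝ), HSub n lam s kap h hmin := by
  obtain ⟨M, hM1, hM⟩ := tval_bdd n t
  have hM0 : (0:ℝ) < M := by exact_mod_cast hM1
  have hb' := blk_cyc (Q := QM lam) (fun x y z v h => ⟨qmean_spec lam x y z v h,
    QM_rot (qmean_spec lam x y z v h), QM_rot (QM_rot (qmean_spec lam x y z v h))⟩) n t hb
  have hnn : ∀ i, (0:ℝ) ≤ (tval n t i : ℝ) := fun i => Nat.cast_nonneg _
  have hnm : ∀ i, (0:ℝ) ≤ (tmean n t i : ℝ) := fun i => Nat.cast_nonneg _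
  have hm1 : ∀ i, (0:ℝ) < (tmean n t i : ℝ) := fun i => by exact_mod_cast (hb' i).2.2.2.1
  refine ⟨fun i => (tval n t i : ℝ)/M, 1/M, ?_, hk, by positivity, ?_, ?_, ?_, ?_, ?_⟩
  · intro i
    rw [tval_per]
  · intro i
    apply div_le_div_of_nonneg_right _ hM0.le
    exact_mod_cast (hb' i).1
  · intro i
    rw [div_le_one hM0]
    exact_mod_cast hM i
  · intro j
    exact div_ineq1 hD hM0 (hnn _) hal (HL.r1 j)
  · intro j
    refine ⟨(tmean n t (2*j+1) : ℝ)/M, div_pos (hm1 _) hM0, QM_real (hb' (2*j+1)) hM0, ?_⟩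
    have := div_ineq2 hD hM0 (hnn _) (hnm _) hal hbe (HL.r2 j)
    calc _ ≤ _ := this
      _ = _ := by ring
  · intro j
    refine ⟨(tmean n t (4*j) : ℝ)/M, div_pos (hm1 _) hM0, QM_real (hb' (4*j)) hM0, ?_⟩
    have := div_ineq2 hD hM0 (hnn _) (hnm _) hal hga (HL.r0 j)
    calc _ ≤ _ := this
      _ = _ := by ring

theorem mkR {n D al be ga : ℕ} {t : Tree n} (HU : Upp n D al be ga t)
    (hb : blk qmax n t = true) {s' rho : ℝ} (hr : 0 < rho) (hD : 0 < D)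
    (hal : (4:ℝ)^(-s') ≤ (al:ℝ)/D) (hbe : (3/2:ℝ)^s' / rho ≤ (be:ℝ)/D)
    (hga : (3/4:ℝ)^s' / rho ≤ (ga:ℝ)/D) :
    ∃ (G : ℕ → ℝ) (Gmax : ℝ), RSup s' rho G Gmax := by
  obtain ⟨M, hM1, hM⟩ := tval_bdd n t
  have hD' : (0:ℝ) < D := by exact_mod_cast hD
  have hb' := blk_pt (Q := fun a v => a ≤ v ∧ 1 ≤ a) qmax_spec n t hb
  have hnn : ∀ i, (0:ℝ) ≤ (tval n t i : ℝ) := fun i => Nat.cast_nonneg _
  have hnm : ∀ i, (0:ℝ) ≤ (tmean n t i : ℝ) := fun i => Nat.cast_nonneg _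
  have hmv : ∀ i, (tval n t i : ℝ) ≤ (tmean n t i : ℝ) := fun i => by exact_mod_cast (hb' i).1
  refine ⟨fun i => (tval n t i : ℝ), M, hr, ?_, ?_, ?_, ?_, ?_⟩
  · intro i
    exact_mod_cast (hb' i).2
  · intro i
    exact_mod_cast hM i
  · intro j
    have h1 : (al:ℝ) * tval n t (4*(3*j+1)+2) ≤ D * tval n t (3*j+1) := by exact_mod_cast HU.h1 j
    calc _ ≤ (al:ℝ)/D * tval n t (4*(3*j+1)+2) := mul_le_mul_of_nonneg_right hal (hnn _)
      _ ≤ _ := by rw [div_mul_eq_mul_div, div_le_iff₀ hD']; linarith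
  · intro j
    have h1 : (al:ℝ) * tval n t (4*(3*j+2)+2) + be * tmean n t (2*j+1) ≤ D * tval n t (3*j+2) := by
      exact_mod_cast HU.h2 j
    calc (4:ℝ)^(-s') * tval n t (4*(3*j+2)+2) + (3/2:ℝ)^s' * tval n t (2*j+1) / rho
        = (4:ℝ)^(-s') * tval n t (4*(3*j+2)+2) + (3/2:ℝ)^s' / rho * tval n t (2*j+1) := by ring
      _ ≤ (al:ℝ)/D * tval n t (4*(3*j+2)+2) + (be:ℝ)/D * tmean n t (2*j+1) :=
          add_le_add (mul_le_mul_of_nonneg_right hal (hnn _))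
            (mul_le_mul hbe (hmv _) (hnn _) (by positivity))
      _ ≤ _ := by
        rw [div_mul_eq_mul_div, div_mul_eq_mul_div, ← add_div, div_le_iff₀ hD']; linarith
  · intro j
    have h1 : (al:ℝ) * tval n t (4*(3*j)+2) + ga * tmean n t (4*j) ≤ D * tval n t (3*j) := by
      exact_mod_cast HU.h0 j
    calc (4:ℝ)^(-s') * tval n t (4*(3*j)+2) + (3/4:ℝ)^s' * tval n t (4*j) / rho
        = (4:ℝ)^(-s') * tval n t (4*(3*j)+2) + (3/4:ℝ)^s' / rho * tval n t (4*j) := by ring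
      _ ≤ (al:ℝ)/D * tval n t (4*(3*j)+2) + (ga:ℝ)/D * tmean n t (4*j) :=
          add_le_add (mul_le_mul_of_nonneg_right hal (hnn _))
            (mul_le_mul hga (hmv _) (hnn _) (by positivity))
      _ ≤ _ := by
        rw [div_mul_eq_mul_div, div_mul_eq_mul_div, ← add_div, div_le_iff₀ hD']; linarith

end H62
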