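import Pool.Agent.Lib.H62u.D0
import Pool.Agent.Lib.H62u.CertBase

set_option autoImplicit false

namespace H62

/-- value at `i` (ternary digits of `i`, low to high) -/
noncomputable def tval (n : ℕ) : Tree n → ℕ → ℕ :=
  Nat.rec (motive := fun n => Tree n → ℕ → ℕ)
    (fun (t : B0) i => if i % 3 = 0 then t.x else if i % 3 = 1 then t.y else t.z)
    (fun n f (t : Tri (Tree n)) i => if i % 3 = 0 then f t.a (i/3) else if i % 3 = 1 then f t.b (i/3)
      else f t.c (i/3)) n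

/-- auxiliary value at `i` -/
noncomputable def tmean (n : ℕ) : Tree n → ℕ → ℕ :=
  Nat.rec (motive := fun n => Tree n → ℕ → ℕ)
    (fun (t : B0) _ => mn t)
    (fun n f (t : Tri (Tree n)) i => if i % 3 = 0 then f t.a (i/3) else if i % 3 = 1 then f t.b (i/3)
      else f t.c (i/3)) n

section basics

lemma mod3_0 (k : ℕ) : (3*k) % 3 = 0 := by omega
lemma mod3_1 (k : ℕ) : (3*k+1) % 3 = 1 := by omega
lemma mod3_2 (k : ℕ) : (3*k+2) % 3 = 2 := by omega
lemma div3_0 (k : ℕ) : (3*k) / 3 = k := by omega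
lemma div3_1 (k : ℕ) : (3*k+1) / 3 = k := by omega
lemma div3_2 (k : ℕ) : (3*k+2) / 3 = k := by omega

lemma tval0_0 (t : B0) (k : ℕ) : tval 0 t (3*k) = t.x := by
  show (if (3*k) % 3 = 0 then t.x else if (3*k) % 3 = 1 then t.y else t.z) = t.x
  rw [mod3_0]; rfl
lemma tval0_1 (t : B0) (k : ℕ) : tval 0 t (3*k+1) = t.y := by
  show (if (3*k+1) % 3 = 0 then t.x else if (3*k+1) % 3 = 1 then t.y else t.z) = t.y
  rw [mod3_1]; rfl
lemma tval0_2 (t : B0) (k : ℕ) : tval 0 t (3*k+2) = t.z := by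
  show (if (3*k+2) % 3 = 0 then t.x else if (3*k+2) % 3 = 1 then t.y else t.z) = t.z
  rw [mod3_2]; rfl

lemma tmean0 (t : B0) (k : ℕ) : tmean 0 t k = t.v := rfl

lemma tvals_0 {n : ℕ} (t : Tri (Tree n)) (k : ℕ) : tval (n+1) t (3*k) = tval n t.a k := by
  show (if (3*k) % 3 = 0 then tval n t.a (3*k/3) else if (3*k) % 3 = 1 then tval n t.b (3*k/3)
    else tval n t.c (3*k/3)) = _
  rw [mod3_0, div3_0]; rfl
lemma tvals_1 {n : ℕ} (t : Tri (Tree n)) (k : ℕ) : tval (n+1) t (3*k+1) = tval n t.b k := by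
  show (if (3*k+1) % 3 = 0 then tval n t.a ((3*k+1)/3) else if (3*k+1) % 3 = 1
    then tval n t.b ((3*k+1)/3) else tval n t.c ((3*k+1)/3)) = _
  rw [mod3_1, div3_1]; rfl
lemma tvals_2 {n : ℕ} (t : Tri (Tree n)) (k : ℕ) : tval (n+1) t (3*k+2) = tval n t.c k := by
  show (if (3*k+2) % 3 = 0 then tval n t.a ((3*k+2)/3) else if (3*k+2) % 3 = 1
    then tval n t.b ((3*k+2)/3) else tval n t.c ((3*k+2)/3)) = _
  rw [mod3_2, div3_2]; rfl

lemma tmeans_0 {n : ℕ} (t : Tri (Tree n)) (k : ℕ) : tmean (n+1) t (3*k) = tmean n t.a k := by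
  show (if (3*k) % 3 = 0 then tmean n t.a (3*k/3) else if (3*k) % 3 = 1 then tmean n t.b (3*k/3)
    else tmean n t.c (3*k/3)) = _
  rw [mod3_0, div3_0]; rfl
lemma tmeans_1 {n : ℕ} (t : Tri (Tree n)) (k : ℕ) : tmean (n+1) t (3*k+1) = tmean n t.b k := by
  show (if (3*k+1) % 3 = 0 then tmean n t.a ((3*k+1)/3) else if (3*k+1) % 3 = 1
    then tmean n t.b ((3*k+1)/3) else tmean n t.c ((3*k+1)/3)) = _
  rw [mod3_1, div3_1]; rfl
lemma tmeans_2 {n : ℕ} (t : Tri (Tree n)) (k : ℕ) : tmean (n+1) t (3*k+2) = tmean n t.c k := by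
  show (if (3*k+2) % 3 = 0 then tmean n t.a ((3*k+2)/3) else if (3*k+2) % 3 = 1
    then tmean n t.b ((3*k+2)/3) else tmean n t.c ((3*k+2)/3)) = _
  rw [mod3_2, div3_2]; rfl

lemma three_cases (u : ℕ) : ∃ k, u = 3*k ∨ u = 3*k+1 ∨ u = 3*k+2 := ⟨u/3, by omega⟩

lemma and3_iff (a b c : Bool) : and3 a b c = true ↔ a = true ∧ b = true ∧ c = true := by
  cases a <;> cases b <;> cases c <;> simp [and3]

end basics

/-- numerical value of the carry -/
def C4.val : C4 → ℕ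
  | C4.c0 => 0 | C4.c1 => 1 | C4.c2 => 2 | C4.c3 => 3

theorem go1_spec (lin : ℕ → ℕ → Bool) : ∀ (n : ℕ) (I : Tree n) (c : C4) (A : Tree n),
    go1 lin n I c A = true → ∀ u, lin (tval n I u) (tval n A (4*u + c.val)) = true := by
  intro n
  induction n with
  | zero =>
    intro I c A h u
    change B0 at I A
    change leaf1 lin I c A = true at h
    obtain ⟨x, y, z, v⟩ := I
    obtain ⟨a0, a1, a2, av⟩ := A
    obtain ⟨k, hk⟩ := three_cases u
    cases c with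
    | c0 =>
      change and3 (lin x a0) (lin y a1) (lin z a2) = true at h
      rw [and3_iff] at h
      show lin _ (tval 0 _ (4*u + 0)) = true
      rcases hk with rfl | rfl | rfl
      · rw [show 4*(3*k)+0 = 3*(4*k) by ring, tval0_0, tval0_0]; exact h.1
      · rw [show 4*(3*k+1)+0 = 3*(4*k+1)+1 by ring, tval0_1, tval0_1]; exact h.2.1
      · rw [show 4*(3*k+2)+0 = 3*(4*k+2)+2 by ring, tval0_2, tval0_2]; exact h.2.2
    | c1 =>
      change and3 (lin x a1) (lin y a2) (lin z a0) = true at h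
      rw [and3_iff] at h
      show lin _ (tval 0 _ (4*u + 1)) = true
      rcases hk with rfl | rfl | rfl
      · rw [show 4*(3*k)+1 = 3*(4*k)+1 by ring, tval0_0, tval0_1]; exact h.1
      · rw [show 4*(3*k+1)+1 = 3*(4*k+1)+2 by ring, tval0_1, tval0_2]; exact h.2.1
      · rw [show 4*(3*k+2)+1 = 3*(4*k+3) by ring, tval0_2, tval0_0]; exact h.2.2
    | c2 =>
      change and3 (lin x a2) (lin y a0) (lin z a1) = true at h
      rw [and3_iff] at h
      show lin _ (tval 0 _ (4*u + 2)) = true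
      rcases hk with rfl | rfl | rfl
      · rw [show 4*(3*k)+2 = 3*(4*k)+2 by ring, tval0_0, tval0_2]; exact h.1
      · rw [show 4*(3*k+1)+2 = 3*(4*k+2) by ring, tval0_1, tval0_0]; exact h.2.1
      · rw [show 4*(3*k+2)+2 = 3*(4*k+3)+1 by ring, tval0_2, tval0_1]; exact h.2.2
    | c3 =>
      change and3 (lin x a0) (lin y a1) (lin z a2) = true at h
      rw [and3_iff] at h
      show lin _ (tval 0 _ (4*u + 3)) = true
      rcases hk with rfl | rfl | rfl
      · rw [show 4*(3*k)+3 = 3*(4*k+1) by ring, tval0_0, tval0_0]; exact h.1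
      · rw [show 4*(3*k+1)+3 = 3*(4*k+2)+1 by ring, tval0_1, tval0_1]; exact h.2.1
      · rw [show 4*(3*k+2)+3 = 3*(4*k+3)+2 by ring, tval0_2, tval0_2]; exact h.2.2
  | succ n ih =>
    intro I c A h u
    change Tri (Tree n) at I A
    obtain ⟨i0, i1, i2⟩ := I
    obtain ⟨a0, a1, a2⟩ := A
    obtain ⟨k, hk⟩ := three_cases u
    cases c with
    | c0 =>
      change and3 (go1 lin n i0 C4.c0 a0) (go1 lin n i1 C4.c1 a1) (go1 lin n i2 C4.c2 a2) = true at h
      rw [and3_iff] at h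
      show lin _ (tval (n+1) _ (4*u + 0)) = true
      rcases hk with rfl | rfl | rfl
      · rw [show 4*(3*k)+0 = 3*(4*k) by ring, tvals_0, tvals_0]; exact ih _ _ _ h.1 k
      · rw [show 4*(3*k+1)+0 = 3*(4*k+1)+1 by ring, tvals_1, tvals_1]; exact ih _ _ _ h.2.1 k
      · rw [show 4*(3*k+2)+0 = 3*(4*k+2)+2 by ring, tvals_2, tvals_2]; exact ih _ _ _ h.2.2 k
    | c1 =>
      change and3 (go1 lin n i0 C4.c0 a1) (go1 lin n i1 C4.c1 a2) (go1 lin n i2 C4.c3 a0) = true at h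
      rw [and3_iff] at h
      show lin _ (tval (n+1) _ (4*u + 1)) = true
      rcases hk with rfl | rfl | rfl
      · rw [show 4*(3*k)+1 = 3*(4*k)+1 by ring, tvals_0, tvals_1]; exact ih _ _ _ h.1 k
      · rw [show 4*(3*k+1)+1 = 3*(4*k+1)+2 by ring, tvals_1, tvals_2]; exact ih _ _ _ h.2.1 k
      · rw [show 4*(3*k+2)+1 = 3*(4*k+3) by ring, tvals_2, tvals_0]; exact ih _ _ _ h.2.2 k
    | c2 =>
      change and3 (go1 lin n i0 C4.c0 a2) (go1 lin n i1 C4.c2 a0) (go1 lin n i2 C4.c3 a1) = true at h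
      rw [and3_iff] at h
      show lin _ (tval (n+1) _ (4*u + 2)) = true
      rcases hk with rfl | rfl | rfl
      · rw [show 4*(3*k)+2 = 3*(4*k)+2 by ring, tvals_0, tvals_2]; exact ih _ _ _ h.1 k
      · rw [show 4*(3*k+1)+2 = 3*(4*k+2) by ring, tvals_1, tvals_0]; exact ih _ _ _ h.2.1 k
      · rw [show 4*(3*k+2)+2 = 3*(4*k+3)+1 by ring, tvals_2, tvals_1]; exact ih _ _ _ h.2.2 k
    | c3 =>
      change and3 (go1 lin n i0 C4.c1 a0) (go1 lin n i1 C4.c2 a1) (go1 lin n i2 C4.c3 a2) = true at h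
      rw [and3_iff] at h
      show lin _ (tval (n+1) _ (4*u + 3)) = true
      rcases hk with rfl | rfl | rfl
      · rw [show 4*(3*k)+3 = 3*(4*k+1) by ring, tvals_0, tvals_0]; exact ih _ _ _ h.1 k
      · rw [show 4*(3*k+1)+3 = 3*(4*k+2)+1 by ring, tvals_1, tvals_1]; exact ih _ _ _ h.2.1 k
      · rw [show 4*(3*k+2)+3 = 3*(4*k+3)+2 by ring, tvals_2, tvals_2]; exact ih _ _ _ h.2.2 k

theorem go0_spec (lin : ℕ → ℕ → ℕ → Bool) : ∀ (n : ℕ) (I : Tree n) (c : C4) (A : Tree n)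
    (B : Tree (n+1)), go0 lin n I c A B = true →
    ∀ u, lin (tval n I u) (tval n A (4*u + c.val)) (tmean (n+1) B (4*u + c.val)) = true := by
  intro n
  induction n with
  | zero =>
    intro I c A B h u
    change B0 at I A
    change Tri (Tree 0) at B
    change leaf0 lin I c A B = true at h
    obtain ⟨x, y, z, v⟩ := I
    obtain ⟨a0, a1, a2, av⟩ := A
    obtain ⟨b0, b1, b2⟩ := B
    obtain ⟨k, hk⟩ := three_cases u
    cases c with
    | c0 =>
      change and3 (lin x a0 (mn b0)) (lin y a1 (mn b1)) (lin z a2 (mn b2)) = true at h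
      rw [and3_iff] at h
      show lin _ (tval 0 _ (4*u + 0)) (tmean 1 _ (4*u+0)) = true
      rcases hk with rfl | rfl | rfl
      · rw [show 4*(3*k)+0 = 3*(4*k) by ring, tval0_0, tval0_0, tmeans_0]; exact h.1
      · rw [show 4*(3*k+1)+0 = 3*(4*k+1)+1 by ring, tval0_1, tval0_1, tmeans_1]; exact h.2.1
      · rw [show 4*(3*k+2)+0 = 3*(4*k+2)+2 by ring, tval0_2, tval0_2, tmeans_2]; exact h.2.2
    | c1 =>
      change and3 (lin x a1 (mn b1)) (lin y a2 (mn b2)) (lin z a0 (mn b0)) = true at h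
      rw [and3_iff] at h
      show lin _ (tval 0 _ (4*u + 1)) (tmean 1 _ (4*u+1)) = true
      rcases hk with rfl | rfl | rfl
      · rw [show 4*(3*k)+1 = 3*(4*k)+1 by ring, tval0_0, tval0_1, tmeans_1]; exact h.1
      · rw [show 4*(3*k+1)+1 = 3*(4*k+1)+2 by ring, tval0_1, tval0_2, tmeans_2]; exact h.2.1
      · rw [show 4*(3*k+2)+1 = 3*(4*k+3) by ring, tval0_2, tval0_0, tmeans_0]; exact h.2.2
    | c2 =>
      change and3 (lin x a2 (mn b2)) (lin y a0 (mn b0)) (lin z a1 (mn b1)) = true at h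
      rw [and3_iff] at h
      show lin _ (tval 0 _ (4*u + 2)) (tmean 1 _ (4*u+2)) = true
      rcases hk with rfl | rfl | rfl
      · rw [show 4*(3*k)+2 = 3*(4*k)+2 by ring, tval0_0, tval0_2, tmeans_2]; exact h.1
      · rw [show 4*(3*k+1)+2 = 3*(4*k+2) by ring, tval0_1, tval0_0, tmeans_0]; exact h.2.1
      · rw [show 4*(3*k+2)+2 = 3*(4*k+3)+1 by ring, tval0_2, tval0_1, tmeans_1]; exact h.2.2
    | c3 =>
      change and3 (lin x a0 (mn b0)) (lin y a1 (mn b1)) (lin z a2 (mn b2)) = true at h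
      rw [and3_iff] at h
      show lin _ (tval 0 _ (4*u + 3)) (tmean 1 _ (4*u+3)) = true
      rcases hk with rfl | rfl | rfl
      · rw [show 4*(3*k)+3 = 3*(4*k+1) by ring, tval0_0, tval0_0, tmeans_0]; exact h.1
      · rw [show 4*(3*k+1)+3 = 3*(4*k+2)+1 by ring, tval0_1, tval0_1, tmeans_1]; exact h.2.1
      · rw [show 4*(3*k+2)+3 = 3*(4*k+3)+2 by ring, tval0_2, tval0_2, tmeans_2]; exact h.2.2
  | succ n ih =>
    intro I c A B h u
    change Tri (Tree n) at I A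
    change Tri (Tree (n+1)) at B
    obtain ⟨i0, i1, i2⟩ := I
    obtain ⟨a0, a1, a2⟩ := A
    obtain ⟨b0, b1, b2⟩ := B
    obtain ⟨k, hk⟩ := three_cases u
    cases c with
    | c0 =>
      change and3 (go0 lin n i0 C4.c0 a0 b0) (go0 lin n i1 C4.c1 a1 b1)
        (go0 lin n i2 C4.c2 a2 b2) = true at h
      rw [and3_iff] at h
      show lin _ (tval (n+1) _ (4*u + 0)) (tmean (n+1+1) _ (4*u+0)) = true
      rcases hk with rfl | rfl | rfl
      · rw [show 4*(3*k)+0 = 3*(4*k) by ring, tvals_0, tvals_0, tmeans_0]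
        exact ih _ _ _ _ h.1 k
      · rw [show 4*(3*k+1)+0 = 3*(4*k+1)+1 by ring, tvals_1, tvals_1, tmeans_1]
        exact ih _ _ _ _ h.2.1 k
      · rw [show 4*(3*k+2)+0 = 3*(4*k+2)+2 by ring, tvals_2, tvals_2, tmeans_2]
        exact ih _ _ _ _ h.2.2 k
    | c1 =>
      change and3 (go0 lin n i0 C4.c0 a1 b1) (go0 lin n i1 C4.c1 a2 b2)
        (go0 lin n i2 C4.c3 a0 b0) = true at h
      rw [and3_iff] at h
      show lin _ (tval (n+1) _ (4*u + 1)) (tmean (n+1+1) _ (4*u+1)) = true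
      rcases hk with rfl | rfl | rfl
      · rw [show 4*(3*k)+1 = 3*(4*k)+1 by ring, tvals_0, tvals_1, tmeans_1]
        exact ih _ _ _ _ h.1 k
      · rw [show 4*(3*k+1)+1 = 3*(4*k+1)+2 by ring, tvals_1, tvals_2, tmeans_2]
        exact ih _ _ _ _ h.2.1 k
      · rw [show 4*(3*k+2)+1 = 3*(4*k+3) by ring, tvals_2, tvals_0, tmeans_0]
        exact ih _ _ _ _ h.2.2 k
    | c2 =>
      change and3 (go0 lin n i0 C4.c0 a2 b2) (go0 lin n i1 C4.c2 a0 b0)
        (go0 lin n i2 C4.c3 a1 b1) = true at h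
      rw [and3_iff] at h
      show lin _ (tval (n+1) _ (4*u + 2)) (tmean (n+1+1) _ (4*u+2)) = true
      rcases hk with rfl | rfl | rfl
      · rw [show 4*(3*k)+2 = 3*(4*k)+2 by ring, tvals_0, tvals_2, tmeans_2]
        exact ih _ _ _ _ h.1 k
      · rw [show 4*(3*k+1)+2 = 3*(4*k+2) by ring, tvals_1, tvals_0, tmeans_0]
        exact ih _ _ _ _ h.2.1 k
      · rw [show 4*(3*k+2)+2 = 3*(4*k+3)+1 by ring, tvals_2, tvals_1, tmeans_1]
        exact ih _ _ _ _ h.2.2 k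
    | c3 =>
      change and3 (go0 lin n i0 C4.c1 a0 b0) (go0 lin n i1 C4.c2 a1 b1)
        (go0 lin n i2 C4.c3 a2 b2) = true at h
      rw [and3_iff] at h
      show lin _ (tval (n+1) _ (4*u + 3)) (tmean (n+1+1) _ (4*u+3)) = true
      rcases hk with rfl | rfl | rfl
      · rw [show 4*(3*k)+3 = 3*(4*k+1) by ring, tvals_0, tvals_0, tmeans_0]
        exact ih _ _ _ _ h.1 k
      · rw [show 4*(3*k+1)+3 = 3*(4*k+2)+1 by ring, tvals_1, tvals_1, tmeans_1]
        exact ih _ _ _ _ h.2.1 k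
      · rw [show 4*(3*k+2)+3 = 3*(4*k+3)+2 by ring, tvals_2, tvals_2, tmeans_2]
        exact ih _ _ _ _ h.2.2 k

theorem go2_spec (lin : ℕ → ℕ → ℕ → Bool) : ∀ (n : ℕ) (I : Tree n) (c : C4) (A : Tree n)
    (B : Tree (n+1)), go2 lin n I c A B = true →
    ∀ u, lin (tval n I u) (tval n A (4*u + c.val)) (tmean (n+1) B (2*u + c.val/2)) = true := by
  intro n
  induction n with
  | zero =>
    intro I c A B h u
    change B0 at I A
    change Tri (Tree 0) at B
    change leaf2 lin I c A B = true at h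
    obtain ⟨x, y, z, v⟩ := I
    obtain ⟨a0, a1, a2, av⟩ := A
    obtain ⟨b0, b1, b2⟩ := B
    obtain ⟨k, hk⟩ := three_cases u
    cases c with
    | c0 =>
      change and3 (lin x a0 (mn b0)) (lin y a1 (mn b2)) (lin z a2 (mn b1)) = true at h
      rw [and3_iff] at h
      show lin _ (tval 0 _ (4*u + 0)) (tmean 1 _ (2*u+0)) = true
      rcases hk with rfl | rfl | rfl
      · rw [show 4*(3*k)+0 = 3*(4*k) by ring, show 2*(3*k)+0 = 3*(2*k) by ring,
          tval0_0, tval0_0, tmeans_0]; exact h.1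
      · rw [show 4*(3*k+1)+0 = 3*(4*k+1)+1 by ring, show 2*(3*k+1)+0 = 3*(2*k)+2 by ring,
          tval0_1, tval0_1, tmeans_2]; exact h.2.1
      · rw [show 4*(3*k+2)+0 = 3*(4*k+2)+2 by ring, show 2*(3*k+2)+0 = 3*(2*k+1)+1 by ring,
          tval0_2, tval0_2, tmeans_1]; exact h.2.2
    | c1 =>
      change and3 (lin x a1 (mn b0)) (lin y a2 (mn b2)) (lin z a0 (mn b1)) = true at h
      rw [and3_iff] at h
      show lin _ (tval 0 _ (4*u + 1)) (tmean 1 _ (2*u+0)) = true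
      rcases hk with rfl | rfl | rfl
      · rw [show 4*(3*k)+1 = 3*(4*k)+1 by ring, show 2*(3*k)+0 = 3*(2*k) by ring,
          tval0_0, tval0_1, tmeans_0]; exact h.1
      · rw [show 4*(3*k+1)+1 = 3*(4*k+1)+2 by ring, show 2*(3*k+1)+0 = 3*(2*k)+2 by ring,
          tval0_1, tval0_2, tmeans_2]; exact h.2.1
      · rw [show 4*(3*k+2)+1 = 3*(4*k+3) by ring, show 2*(3*k+2)+0 = 3*(2*k+1)+1 by ring,
          tval0_2, tval0_0, tmeans_1]; exact h.2.2
    | c2 =>
      change and3 (lin x a2 (mn b1)) (lin y a0 (mn b0)) (lin z a1 (mn b2)) = true at h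
      rw [and3_iff] at h
      show lin _ (tval 0 _ (4*u + 2)) (tmean 1 _ (2*u+1)) = true
      rcases hk with rfl | rfl | rfl
      · rw [show 4*(3*k)+2 = 3*(4*k)+2 by ring, show 2*(3*k)+1 = 3*(2*k)+1 by ring,
          tval0_0, tval0_2, tmeans_1]; exact h.1
      · rw [show 4*(3*k+1)+2 = 3*(4*k+2) by ring, show 2*(3*k+1)+1 = 3*(2*k+1) by ring,
          tval0_1, tval0_0, tmeans_0]; exact h.2.1
      · rw [show 4*(3*k+2)+2 = 3*(4*k+3)+1 by ring, show 2*(3*k+2)+1 = 3*(2*k+1)+2 by ring,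
          tval0_2, tval0_1, tmeans_2]; exact h.2.2
    | c3 =>
      change and3 (lin x a0 (mn b1)) (lin y a1 (mn b0)) (lin z a2 (mn b2)) = true at h
      rw [and3_iff] at h
      show lin _ (tval 0 _ (4*u + 3)) (tmean 1 _ (2*u+1)) = true
      rcases hk with rfl | rfl | rfl
      · rw [show 4*(3*k)+3 = 3*(4*k+1) by ring, show 2*(3*k)+1 = 3*(2*k)+1 by ring,
          tval0_0, tval0_0, tmeans_1]; exact h.1
      · rw [show 4*(3*k+1)+3 = 3*(4*k+2)+1 by ring, show 2*(3*k+1)+1 = 3*(2*k+1) by ring,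
          tval0_1, tval0_1, tmeans_0]; exact h.2.1
      · rw [show 4*(3*k+2)+3 = 3*(4*k+3)+2 by ring, show 2*(3*k+2)+1 = 3*(2*k+1)+2 by ring,
          tval0_2, tval0_2, tmeans_2]; exact h.2.2
  | succ n ih =>
    intro I c A B h u
    change Tri (Tree n) at I A
    change Tri (Tree (n+1)) at B
    obtain ⟨i0, i1, i2⟩ := I
    obtain ⟨a0, a1, a2⟩ := A
    obtain ⟨b0, b1, b2⟩ := B
    obtain ⟨k, hk⟩ := three_cases u
    cases c with
    | c0 =>
      change and3 (go2 lin n i0 C4.c0 a0 b0) (go2 lin n i1 C4.c1 a1 b2)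
        (go2 lin n i2 C4.c2 a2 b1) = true at h
      rw [and3_iff] at h
      show lin _ (tval (n+1) _ (4*u + 0)) (tmean (n+1+1) _ (2*u+0)) = true
      rcases hk with rfl | rfl | rfl
      · rw [show 4*(3*k)+0 = 3*(4*k) by ring, show 2*(3*k)+0 = 3*(2*k) by ring,
          tvals_0, tvals_0, tmeans_0]
        exact ih _ _ _ _ h.1 k
      · rw [show 4*(3*k+1)+0 = 3*(4*k+1)+1 by ring, show 2*(3*k+1)+0 = 3*(2*k)+2 by ring,
          tvals_1, tvals_1, tmeans_2]
        exact ih _ _ _ _ h.2.1 k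
      · rw [show 4*(3*k+2)+0 = 3*(4*k+2)+2 by ring, show 2*(3*k+2)+0 = 3*(2*k+1)+1 by ring,
          tvals_2, tvals_2, tmeans_1]
        exact ih _ _ _ _ h.2.2 k
    | c1 =>
      change and3 (go2 lin n i0 C4.c0 a1 b0) (go2 lin n i1 C4.c1 a2 b2)
        (go2 lin n i2 C4.c3 a0 b1) = true at h
      rw [and3_iff] at h
      show lin _ (tval (n+1) _ (4*u + 1)) (tmean (n+1+1) _ (2*u+0)) = true
      rcases hk with rfl | rfl | rfl
      · rw [show 4*(3*k)+1 = 3*(4*k)+1 by ring, show 2*(3*k)+0 = 3*(2*k) by ring,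
          tvals_0, tvals_1, tmeans_0]
        exact ih _ _ _ _ h.1 k
      · rw [show 4*(3*k+1)+1 = 3*(4*k+1)+2 by ring, show 2*(3*k+1)+0 = 3*(2*k)+2 by ring,
          tvals_1, tvals_2, tmeans_2]
        exact ih _ _ _ _ h.2.1 k
      · rw [show 4*(3*k+2)+1 = 3*(4*k+3) by ring, show 2*(3*k+2)+0 = 3*(2*k+1)+1 by ring,
          tvals_2, tvals_0, tmeans_1]
        exact ih _ _ _ _ h.2.2 k
    | c2 =>
      change and3 (go2 lin n i0 C4.c0 a2 b1) (go2 lin n i1 C4.c2 a0 b0)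
        (go2 lin n i2 C4.c3 a1 b2) = true at h
      rw [and3_iff] at h
      show lin _ (tval (n+1) _ (4*u + 2)) (tmean (n+1+1) _ (2*u+1)) = true
      rcases hk with rfl | rfl | rfl
      · rw [show 4*(3*k)+2 = 3*(4*k)+2 by ring, show 2*(3*k)+1 = 3*(2*k)+1 by ring,
          tvals_0, tvals_2, tmeans_1]
        exact ih _ _ _ _ h.1 k
      · rw [show 4*(3*k+1)+2 = 3*(4*k+2) by ring, show 2*(3*k+1)+1 = 3*(2*k+1) by ring,
          tvals_1, tvals_0, tmeans_0]
        exact ih _ _ _ _ h.2.1 k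
      · rw [show 4*(3*k+2)+2 = 3*(4*k+3)+1 by ring, show 2*(3*k+2)+1 = 3*(2*k+1)+2 by ring,
          tvals_2, tvals_1, tmeans_2]
        exact ih _ _ _ _ h.2.2 k
    | c3 =>
      change and3 (go2 lin n i0 C4.c1 a0 b1) (go2 lin n i1 C4.c2 a1 b0)
        (go2 lin n i2 C4.c3 a2 b2) = true at h
      rw [and3_iff] at h
      show lin _ (tval (n+1) _ (4*u + 3)) (tmean (n+1+1) _ (2*u+1)) = true
      rcases hk with rfl | rfl | rfl
      · rw [show 4*(3*k)+3 = 3*(4*k+1) by ring, show 2*(3*k)+1 = 3*(2*k)+1 by ring,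
          tvals_0, tvals_0, tmeans_1]
        exact ih _ _ _ _ h.1 k
      · rw [show 4*(3*k+1)+3 = 3*(4*k+2)+1 by ring, show 2*(3*k+1)+1 = 3*(2*k+1) by ring,
          tvals_1, tvals_1, tmeans_0]
        exact ih _ _ _ _ h.2.1 k
      · rw [show 4*(3*k+2)+3 = 3*(4*k+3)+2 by ring, show 2*(3*k+2)+1 = 3*(2*k+1)+2 by ring,
          tvals_2, tvals_2, tmeans_2]
        exact ih _ _ _ _ h.2.2 k

end H62
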