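import Pool.Agent.Lib.H62u.D0
import Mathlib.Analysis.Convex.Mul

set_option autoImplicit false

namespace H62

open Finset

lemma neg_jensen (lam : ℕ) {x y u v : ℝ} (hx : 0 < x) (hy : 0 < y) (hu : 0 < u) (hv : 0 < v) :
    ((x + y)^lam)⁻¹ ≤ (u/(u+v))^(lam+1) * (x^lam)⁻¹ + (v/(u+v))^(lam+1) * (y^lam)⁻¹ := by
  have huv : 0 < u + v := by positivity
  set p := u/(u+v) with hp
  set q := v/(u+v) with hq
  have hp0 : 0 < p := by positivity
  have hq0 : 0 < q := by positivity
  have hpq : p + q = 1 := by rw [hp, hq]; field_simp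
  have hc := (convexOn_zpow (𝕜 := ℝ) (-(lam:ℤ))).2 (x := x/p) (y := y/q)
    (by simp only [Set.mem_Ioi]; positivity) (by simp only [Set.mem_Ioi]; positivity)
    hp0.le hq0.le hpq
  simp only [smul_eq_mul, zpow_neg, zpow_natCast] at hc
  have e1 : p * (x/p) + q * (y/q) = x + y := by field_simp
  rw [e1] at hc
  have key : ∀ p x : ℝ, 0 < p → 0 < x → p * ((x/p)^lam)⁻¹ = p^(lam+1) * (x^lam)⁻¹ := by
    intro p x hp hx
    rw [div_pow, pow_succ]
    field_simp
  rw [key p x hp0 hx, key q y hq0 hy] at hc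
  exact hc

lemma neg_mink {ι : Type*} (S : Finset ι) (lam : ℕ) (x y : ι → ℝ) {N u v : ℝ}
    (hx : ∀ i ∈ S, 0 < x i) (hy : ∀ i ∈ S, 0 < y i) (hu : 0 < u) (hv : 0 < v)
    (h1 : ∑ i ∈ S, ((x i)^lam)⁻¹ ≤ N * (u^lam)⁻¹) (h2 : ∑ i ∈ S, ((y i)^lam)⁻¹ ≤ N * (v^lam)⁻¹) :
    ∑ i ∈ S, ((x i + y i)^lam)⁻¹ ≤ N * ((u+v)^lam)⁻¹ := by
  have huv : 0 < u + v := by positivity
  calc ∑ i ∈ S, ((x i + y i)^lam)⁻¹
      ≤ ∑ i ∈ S, ((u/(u+v))^(lam+1) * ((x i)^lam)⁻¹ + (v/(u+v))^(lam+1) * ((y i)^lam)⁻¹) :=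
        Finset.sum_le_sum (fun i hi => neg_jensen lam (hx i hi) (hy i hi) hu hv)
    _ = (u/(u+v))^(lam+1) * ∑ i ∈ S, ((x i)^lam)⁻¹ +
        (v/(u+v))^(lam+1) * ∑ i ∈ S, ((y i)^lam)⁻¹ := by
        rw [Finset.sum_add_distrib, Finset.mul_sum, Finset.mul_sum]
    _ ≤ (u/(u+v))^(lam+1) * (N * (u^lam)⁻¹) + (v/(u+v))^(lam+1) * (N * (v^lam)⁻¹) := by
        gcongr
    _ = N * ((u+v)^lam)⁻¹ := by
        rw [div_pow, div_pow, pow_succ, pow_succ, pow_succ]
        field_simp

/-! ### periodic sums -/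

lemma sum_perm {M k : ℕ} (hM : 0 < M) (hk : Nat.Coprime k M) (G : ℕ → ℝ)
    (hG : ∀ t, G (t + M) = G t) : ∑ t ∈ range M, G (k * t) = ∑ t ∈ range M, G t := by
  have hper : Function.Periodic G M := hG
  have hmod : ∀ t, G (t % M) = G t := fun t => hper.map_mod_nat t
  have hmaps : ∀ t ∈ range M, (k * t) % M ∈ range M := fun t _ =>
    Finset.mem_range.mpr (Nat.mod_lt _ hM)
  have hinj : Set.InjOn (fun t => (k * t) % M) (range M : Set ℕ) := by
    intro a ha b hb hab
    simp only [Finset.coe_range, Set.mem_Iio] at ha hb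
    have h1 : k * a ≡ k * b [MOD M] := hab
    have h2 : a ≡ b [MOD M] := Nat.ModEq.cancel_left_of_coprime (by rwa [Nat.coprime_comm] at hk) h1
    have := Nat.ModEq.eq_of_lt_of_lt h2 ha hb
    exact this
  apply Finset.sum_nbij (fun t => (k * t) % M) hmaps hinj
  · exact Finset.surjOn_of_injOn_of_card_le _ hmaps hinj (le_refl _)
  · intro t _
    exact (hmod _).symm

lemma sum_range_three (N : ℕ) (f : ℕ → ℝ) :
    ∑ t ∈ range (3 * N), f t = ∑ u ∈ range N, (f (3*u) + f (3*u+1) + f (3*u+2)) := by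
  induction N with
  | zero => simp
  | succ N ih =>
    rw [show 3 * (N+1) = 3*N+1+1+1 by ring, Finset.sum_range_succ, Finset.sum_range_succ,
      Finset.sum_range_succ, ih, Finset.sum_range_succ]
    ring

/-! ### periodicity of the tree sums -/

lemma W_periodic {al be ga : ℝ} {f : ℕ → ℝ} {g : ℕ → ℕ → ℝ} {n : ℕ}
    (hf : ∀ i, f (i + 3^n) = f i) (hg : ∀ K i, g K (i + 3^n) = g K i) (L : ℕ) :
    ∀ K, Function.Periodic (W al be ga f g L K) (3^(n+K)) := by
  have hg' : ∀ K', ∀ K i, g K' (i + 3^(n+K)) = g K' i := by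
    intro K' K i
    have : Function.Periodic (g K') (3^n) := hg K'
    have := this.nat_mul (3^K) i
    rw [pow_add, mul_comm (3^n)]
    exact this
  induction L using ind2 with
  | h0 =>
    intro K i
    rcases K with _ | K
    · rw [W_K0, W_K0]; exact hf i
    · rw [W_L0, W_L0]; exact hg' _ (K+1) i
  | h1 =>
    intro K i
    rcases K with _ | K
    · rw [W_K0, W_K0]; exact hf i
    · rw [W_L1, W_L1]; exact hg' _ (K+1) i
  | h2 L ih0 ih1 =>
    intro K i
    rcases K with _ | K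
    · rw [W_K0, W_K0]; exact hf i
    · rw [W_LK, W_LK]
      have e0 : 3^(n+(K+1)) = 3 * 3^(n+K) := by ring
      have e1 : (i + 3^(n+(K+1))) % 3 = i % 3 := by rw [e0]; omega
      have e2 : (i + 3^(n+(K+1))) / 3 = i / 3 + 3^(n+K) := by rw [e0]; omega
      rw [e1, e2]
      have a1 : W al be ga f g L (K+1) (4 * (i + 3^(n+(K+1))) + 2)
          = W al be ga f g L (K+1) (4*i+2) := by
        have := (ih0 (K+1)).nat_mul 4 (4*i+2)
        rw [← this]; congr 1; push_cast; ring
      have a2 : W al be ga f g (L+1) K (2 * (i/3 + 3^(n+K)) + 1)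
          = W al be ga f g (L+1) K (2*(i/3)+1) := by
        have := (ih1 K).nat_mul 2 (2*(i/3)+1)
        rw [← this]; congr 1; push_cast; ring
      have a3 : W al be ga f g L K (4 * (i/3 + 3^(n+K)))
          = W al be ga f g L K (4*(i/3)) := by
        have := (ih0 K).nat_mul 4 (4*(i/3))
        rw [← this]; congr 1; push_cast; ring
      rw [a1, a2, a3]

lemma UU_pos {n lam : ℕ} {s kap : ℝ} {h : ℕ → ℝ} {hmin : ℝ} (H : HSub n lam s kap h hmin)
    (L : ℕ) : ∀ K i, 0 < UU s kap h L K i := by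
  have hh : ∀ i, 0 < h i := fun i => H.hmin_pos.trans_le (H.h_ge i)
  have hk := H.kap_pos
  unfold UU
  induction L using ind2 with
  | h0 =>
    intro K i
    rcases K with _ | K
    · rw [W_K0]; exact hh i
    · rw [W_L0]; have := hh i; positivity
  | h1 =>
    intro K i
    rcases K with _ | K
    · rw [W_K0]; exact hh i
    · rw [W_L1]; have := hh i; positivity
  | h2 L ih0 ih1 =>
    intro K i
    rcases K with _ | K
    · rw [W_K0]; exact hh i
    · rw [W_LK]
      apply add_pos_of_pos_of_nonneg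
      · have := ih0 (K+1) (4*i+2); positivity
      · split_ifs
        · have := ih1 K (2*(i/3)+1); positivity
        · have := ih0 K (4*(i/3)); positivity
        · exact le_refl _

/-- sum of negative powers over a residue class -/
noncomputable def SS (n lam : ℕ) (s kap : ℝ) (h : ℕ → ℝ) (L K c : ℕ) : ℝ :=
  ∑ t ∈ range (3^K), ((UU s kap h L K (c + t * 3^(n+1)))^lam)⁻¹

lemma sum_class_step {n : ℕ} {F : ℕ → ℝ} {K : ℕ} (a k : ℕ) (hk : Nat.Coprime k 3)
    (hF : Function.Periodic F (3^(n+1+K))) :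
    ∑ t ∈ range (3^(K+1)), F (a + k * t * 3^n) =
      (∑ u ∈ range (3^K), F (a + u * 3^(n+1))) + (∑ u ∈ range (3^K), F (a + 3^n + u * 3^(n+1)))
        + (∑ u ∈ range (3^K), F (a + 2 * 3^n + u * 3^(n+1))) := by
  have h1 : ∑ t ∈ range (3^(K+1)), F (a + k * t * 3^n) = ∑ t ∈ range (3^(K+1)), F (a + t * 3^n) := by
    apply sum_perm (M := 3^(K+1)) (k := k) (by positivity) (Nat.Coprime.pow_right _ hk)
      (fun t => F (a + t * 3^n))
    intro t
    have := hF (a + t * 3^n)
    rw [← this]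
    congr 1
    rw [add_mul, ← pow_add, show K + 1 + n = n + 1 + K by ring]
    ring
  rw [h1, show 3^(K+1) = 3 * 3^K by ring, sum_range_three, Finset.sum_add_distrib,
    Finset.sum_add_distrib]
  congr 1
  · congr 1
    · apply Finset.sum_congr rfl
      intro u _; congr 1; ring
    · apply Finset.sum_congr rfl
      intro u _; congr 1; ring
  · apply Finset.sum_congr rfl
    intro u _; congr 1; ring

lemma neg_moment {n lam : ℕ} {s kap : ℝ} {h : ℕ → ℝ} {hmin : ℝ} (H : HSub n lam s kap h hmin)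
    (L : ℕ) : ∀ K c, SS n lam s kap h L K c ≤ 3^K * ((kap^K * h c)^lam)⁻¹ := by
  have hh : ∀ i, 0 < h i := fun i => H.hmin_pos.trans_le (H.h_ge i)
  have hk := H.kap_pos
  have hper : ∀ c t, h (c + t * 3^(n+1)) = h c := by
    intro c t
    have : Function.Periodic h (3^(n+1)) := H.per
    exact this.nat_mul t c
  have hUper : ∀ L K, Function.Periodic (UU s kap h L K) (3^(n+1+K)) := by
    intro L K
    unfold UU
    exact W_periodic H.per (fun K i => by
      show kap^K * h (i + 3^(n+1)) = kap^K * h i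
      rw [H.per]) L K
  have K0 : ∀ L c, SS n lam s kap h L 0 c ≤ 3^0 * ((kap^0 * h c)^lam)⁻¹ := by
    intro L c
    unfold SS UU
    simp [W_K0]
  have base : ∀ L ≤ 1, ∀ K c, SS n lam s kap h L (K+1) c ≤ 3^(K+1) * ((kap^(K+1) * h c)^lam)⁻¹ := by
    intro L hL K c
    unfold SS UU
    have : ∀ t, W ((4:ℝ)^(-s)) ((3/2:ℝ)^s) ((3/4:ℝ)^s) h (fun K i => kap^K * h i) L (K+1)
        (c + t * 3^(n+1)) = kap^(K+1) * h c := by
      intro t
      interval_cases L
      · rw [W_L0, hper]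
      · rw [W_L1, hper]
    simp only [this]
    rw [Finset.sum_const, Finset.card_range, nsmul_eq_mul]
    push_cast
    exact le_refl _
  induction L using ind2 with
  | h0 =>
    intro K c
    rcases K with _ | K
    · exact K0 0 c
    · exact base 0 (by norm_num) K c
  | h1 =>
    intro K c
    rcases K with _ | K
    · exact K0 1 c
    · exact base 1 (by norm_num) K c
  | h2 L ih0 ih1 =>
    intro K c
    rcases K with _ | K
    · exact K0 (L+2) c
    · -- the A-part
      have hA : ∑ t ∈ range (3^(K+1)),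
          (((4:ℝ)^(-s) * UU s kap h L (K+1) (4*(c + t * 3^(n+1))+2))^lam)⁻¹
          ≤ 3^(K+1) * (((4:ℝ)^(-s) * (kap^(K+1) * h (4*c+2)))^lam)⁻¹ := by
        have e1 : ∑ t ∈ range (3^(K+1)),
            ((UU s kap h L (K+1) (4*(c + t * 3^(n+1))+2))^lam)⁻¹
            = SS n lam s kap h L (K+1) (4*c+2) := by
          unfold SS
          have := sum_perm (M := 3^(K+1)) (k := 4) (by positivity)
            (Nat.Coprime.pow_right _ (by norm_num))
            (fun t => ((UU s kap h L (K+1) (4*c+2 + t * 3^(n+1)))^lam)⁻¹)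
            (by
              intro t
              have := hUper L (K+1) (4*c+2 + t * 3^(n+1))
              have e : 4*c+2 + (t + 3^(K+1)) * 3^(n+1) = 4*c+2 + t * 3^(n+1) + 3^(n+1+(K+1)) := by
                ring
              simp only [e, this])
          rw [← this]
          apply Finset.sum_congr rfl
          intro t _
          congr 3
          ring
        have e2 : ∑ t ∈ range (3^(K+1)),
            (((4:ℝ)^(-s) * UU s kap h L (K+1) (4*(c + t * 3^(n+1))+2))^lam)⁻¹
            = (((4:ℝ)^(-s))^lam)⁻¹ * SS n lam s kap h L (K+1) (4*c+2) := by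
          rw [← e1, Finset.mul_sum]
          apply Finset.sum_congr rfl
          intro t _
          rw [mul_pow, mul_inv]
        rw [e2]
        calc _ ≤ (((4:ℝ)^(-s))^lam)⁻¹ * (3^(K+1) * ((kap^(K+1) * h (4*c+2))^lam)⁻¹) :=
              mul_le_mul_of_nonneg_left (ih0 (K+1) (4*c+2)) (by positivity)
          _ = _ := by rw [mul_pow ((4:ℝ)^(-s)), mul_inv]; ring
      have hu : 0 < (4:ℝ)^(-s) * (kap^(K+1) * h (4*c+2)) := by
        have := hh (4*c+2); positivity
      -- general bound for the second part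
      have hBC : ∀ (be v : ℝ) (a k L' : ℕ), 0 < be → 0 < v → Nat.Coprime k 3 →
          (∀ c, SS n lam s kap h L' K c ≤ 3^K * ((kap^K * h c)^lam)⁻¹) →
          ((h a)^lam)⁻¹ + ((h (a+3^n))^lam)⁻¹ + ((h (a+2*3^n))^lam)⁻¹ ≤ 3 * (v^lam)⁻¹ →
          ∑ t ∈ range (3^(K+1)), ((be * UU s kap h L' K (a + k * t * 3^n))^lam)⁻¹
            ≤ 3^(K+1) * ((be * (kap^K * v))^lam)⁻¹ := by
        intro be v a k L' hbe hv hk3 ih hsum
        have e1 : ∑ t ∈ range (3^(K+1)), ((UU s kap h L' K (a + k * t * 3^n))^lam)⁻¹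
            = SS n lam s kap h L' K a + SS n lam s kap h L' K (a + 3^n)
              + SS n lam s kap h L' K (a + 2*3^n) := by
          unfold SS
          have hF : Function.Periodic (fun i => ((UU s kap h L' K i)^lam)⁻¹) (3^(n+1+K)) := by
            intro i; simp only [hUper L' K i]
          exact sum_class_step (n := n) (K := K) a k hk3 hF
        have e2 : ∑ t ∈ range (3^(K+1)), ((be * UU s kap h L' K (a + k * t * 3^n))^lam)⁻¹
            = (be^lam)⁻¹ * ∑ t ∈ range (3^(K+1)), ((UU s kap h L' K (a + k * t * 3^n))^lam)⁻¹ := by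
          rw [Finset.mul_sum]
          apply Finset.sum_congr rfl
          intro t _
          rw [mul_pow, mul_inv]
        rw [e2, e1]
        have e3 : ∀ c, 3^K * ((kap^K * h c)^lam)⁻¹ = 3^K * ((kap^K)^lam)⁻¹ * ((h c)^lam)⁻¹ := by
          intro c; rw [mul_pow, mul_inv]; ring
        calc (be^lam)⁻¹ * (SS n lam s kap h L' K a + SS n lam s kap h L' K (a + 3^n)
              + SS n lam s kap h L' K (a + 2*3^n))
            ≤ (be^lam)⁻¹ * (3^K * ((kap^K * h a)^lam)⁻¹ + 3^K * ((kap^K * h (a+3^n))^lam)⁻¹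
              + 3^K * ((kap^K * h (a+2*3^n))^lam)⁻¹) := by
              apply mul_le_mul_of_nonneg_left _ (by positivity)
              exact add_le_add (add_le_add (ih _) (ih _)) (ih _)
          _ = (be^lam)⁻¹ * (3^K * ((kap^K)^lam)⁻¹) * (((h a)^lam)⁻¹ + ((h (a+3^n))^lam)⁻¹
              + ((h (a+2*3^n))^lam)⁻¹) := by rw [e3, e3, e3]; ring
          _ ≤ (be^lam)⁻¹ * (3^K * ((kap^K)^lam)⁻¹) * (3 * (v^lam)⁻¹) :=
              mul_le_mul_of_nonneg_left hsum (by positivity)
          _ = _ := by rw [mul_pow be, mul_pow (kap^K), mul_inv, mul_inv, pow_succ]; ring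
      obtain ⟨j, hj⟩ : ∃ j, c = 3*j ∨ c = 3*j+1 ∨ c = 3*j+2 := ⟨c/3, by omega⟩
      rcases hj with rfl | rfl | rfl
      · -- C
        obtain ⟨v, hv, hsum, hle⟩ := H.h0 j
        have hB := hBC ((3/4:ℝ)^s) v (4*j) 4 L (by positivity) hv (by norm_num) (ih0 K) hsum
        have hr : ∀ t, UU s kap h (L+2) (K+1) (3*j + t * 3^(n+1)) =
            (4:ℝ)^(-s) * UU s kap h L (K+1) (4*(3*j + t * 3^(n+1))+2)
            + (3/4:ℝ)^s * UU s kap h L K (4*j + 4 * t * 3^n) := by
          intro t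
          unfold UU
          rw [W_LK]
          have e0 : 3^(n+1) = 3 * 3^n := by ring
          have h1 : (3*j + t * 3^(n+1)) % 3 = 0 := by
            rw [e0, show 3*j + t*(3*3^n) = 3*(j + t*3^n) by ring]; omega
          have h2 : (3*j + t * 3^(n+1)) / 3 = j + t*3^n := by
            rw [e0, show 3*j + t*(3*3^n) = 3*(j + t*3^n) by ring]; omega
          rw [h1, h2]
          simp only [if_neg (show ¬ (0:ℕ) = 2 by norm_num), if_pos]
          congr 3
          ring
        have hv' : 0 < (3/4:ℝ)^s * (kap^K * v) := by positivity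
        have := neg_mink (range (3^(K+1))) lam
          (fun t => (4:ℝ)^(-s) * UU s kap h L (K+1) (4*(3*j + t * 3^(n+1))+2))
          (fun t => (3/4:ℝ)^s * UU s kap h L K (4*j + 4 * t * 3^n))
          (fun t _ => by have := UU_pos H L (K+1) (4*(3*j + t * 3^(n+1))+2); positivity)
          (fun t _ => by have := UU_pos H L K (4*j + 4 * t * 3^n); positivity)
          hu hv' hA hB
        have e4 : SS n lam s kap h (L+2) (K+1) (3*j) = ∑ t ∈ range (3^(K+1)),
          (((4:ℝ)^(-s) * UU s kap h L (K+1) (4*(3*j + t * 3^(n+1))+2)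
            + (3/4:ℝ)^s * UU s kap h L K (4*j + 4 * t * 3^n))^lam)⁻¹ := by
          unfold SS
          apply Finset.sum_congr rfl
          intro t _
          rw [hr]
        rw [e4]
        refine this.trans ?_
        apply mul_le_mul_of_nonneg_left _ (by positivity)
        apply inv_anti₀
        · have := hh (3*j); positivity
        · apply pow_le_pow_left₀ (by have := hh (3*j); positivity)
          calc kap^(K+1) * h (3*j) ≤ kap^(K+1) *
                ((4:ℝ)^(-s) * h (4*(3*j)+2) + (3/4:ℝ)^s * v / kap) :=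
                mul_le_mul_of_nonneg_left hle (by positivity)
            _ = _ := by rw [pow_succ]; field_simp
      · -- A only
        have hr : ∀ t, UU s kap h (L+2) (K+1) (3*j+1 + t * 3^(n+1)) =
            (4:ℝ)^(-s) * UU s kap h L (K+1) (4*(3*j+1 + t * 3^(n+1))+2) := by
          intro t
          unfold UU
          rw [W_LK]
          have e0 : 3^(n+1) = 3 * 3^n := by ring
          have h1 : (3*j+1 + t * 3^(n+1)) % 3 = 1 := by
            rw [e0, show 3*j+1 + t*(3*3^n) = 3*(j + t*3^n)+1 by ring]; omega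
          rw [h1]
          simp
        have e4 : SS n lam s kap h (L+2) (K+1) (3*j+1) = ∑ t ∈ range (3^(K+1)),
          (((4:ℝ)^(-s) * UU s kap h L (K+1) (4*(3*j+1 + t * 3^(n+1))+2))^lam)⁻¹ := by
          unfold SS
          apply Finset.sum_congr rfl
          intro t _
          rw [hr]
        rw [e4]
        refine hA.trans ?_
        apply mul_le_mul_of_nonneg_left _ (by positivity)
        apply inv_anti₀
        · have := hh (3*j+1); positivity
        · apply pow_le_pow_left₀ (by have := hh (3*j+1); positivity)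
          calc kap^(K+1) * h (3*j+1) ≤ kap^(K+1) * ((4:ℝ)^(-s) * h (4*(3*j+1)+2)) :=
                mul_le_mul_of_nonneg_left (H.h1 j) (by positivity)
            _ = _ := by ring
      · -- B
        obtain ⟨v, hv, hsum, hle⟩ := H.h2 j
        have hB := hBC ((3/2:ℝ)^s) v (2*j+1) 2 (L+1) (by positivity) hv (by norm_num) (ih1 K) hsum
        have hr : ∀ t, UU s kap h (L+2) (K+1) (3*j+2 + t * 3^(n+1)) =
            (4:ℝ)^(-s) * UU s kap h L (K+1) (4*(3*j+2 + t * 3^(n+1))+2)
            + (3/2:ℝ)^s * UU s kap h (L+1) K (2*j+1 + 2 * t * 3^n) := by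
          intro t
          unfold UU
          rw [W_LK]
          have e0 : 3^(n+1) = 3 * 3^n := by ring
          have h1 : (3*j+2 + t * 3^(n+1)) % 3 = 2 := by
            rw [e0, show 3*j+2 + t*(3*3^n) = 3*(j + t*3^n)+2 by ring]; omega
          have h2 : (3*j+2 + t * 3^(n+1)) / 3 = j + t*3^n := by
            rw [e0, show 3*j+2 + t*(3*3^n) = 3*(j + t*3^n)+2 by ring]; omega
          rw [h1, h2]
          simp only [if_pos]
          congr 3
          ring
        have hv' : 0 < (3/2:ℝ)^s * (kap^K * v) := by positivity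
        have := neg_mink (range (3^(K+1))) lam
          (fun t => (4:ℝ)^(-s) * UU s kap h L (K+1) (4*(3*j+2 + t * 3^(n+1))+2))
          (fun t => (3/2:ℝ)^s * UU s kap h (L+1) K (2*j+1 + 2 * t * 3^n))
          (fun t _ => by have := UU_pos H L (K+1) (4*(3*j+2 + t * 3^(n+1))+2); positivity)
          (fun t _ => by have := UU_pos H (L+1) K (2*j+1 + 2 * t * 3^n); positivity)
          hu hv' hA hB
        have e4 : SS n lam s kap h (L+2) (K+1) (3*j+2) = ∑ t ∈ range (3^(K+1)),
          (((4:ℝ)^(-s) * UU s kap h L (K+1) (4*(3*j+2 + t * 3^(n+1))+2)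
            + (3/2:ℝ)^s * UU s kap h (L+1) K (2*j+1 + 2 * t * 3^n))^lam)⁻¹ := by
          unfold SS
          apply Finset.sum_congr rfl
          intro t _
          rw [hr]
        rw [e4]
        refine this.trans ?_
        apply mul_le_mul_of_nonneg_left _ (by positivity)
        apply inv_anti₀
        · have := hh (3*j+2); positivity
        · apply pow_le_pow_left₀ (by have := hh (3*j+2); positivity)
          calc kap^(K+1) * h (3*j+2) ≤ kap^(K+1) *
                ((4:ℝ)^(-s) * h (4*(3*j+2)+2) + (3/2:ℝ)^s * v / kap) :=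
                mul_le_mul_of_nonneg_left hle (by positivity)
            _ = _ := by rw [pow_succ]; field_simp

lemma jensen_card (A : Finset ℕ) (U : ℕ → ℝ) (lam : ℕ) (hU : ∀ i ∈ A, 0 < U i) :
    (A.card : ℝ)^(lam+1) ≤ (∑ i ∈ A, U i)^lam * ∑ i ∈ A, ((U i)^lam)⁻¹ := by
  rcases A.eq_empty_or_nonempty with rfl | hne
  · simp
  have hc : (0:ℝ) < A.card := by exact_mod_cast hne.card_pos
  have hS : 0 < ∑ i ∈ A, U i := Finset.sum_pos hU hne
  have hconv := (convexOn_zpow (𝕜 := ℝ) (-(lam:ℤ))).map_sum_le (t := A)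
    (w := fun _ => (A.card:ℝ)⁻¹) (p := U) (fun _ _ => by positivity)
    (by rw [Finset.sum_const, nsmul_eq_mul]; field_simp)
    (fun i hi => hU i hi)
  simp only [smul_eq_mul, zpow_neg, zpow_natCast] at hconv
  rw [← Finset.mul_sum, ← Finset.mul_sum, mul_pow, mul_inv, inv_pow, inv_inv] at hconv
  have h1 : (A.card:ℝ)^lam * ((∑ i ∈ A, U i)^lam)⁻¹ * (A.card:ℝ) ≤ ∑ i ∈ A, ((U i)^lam)⁻¹ := by
    have := mul_le_mul_of_nonneg_right hconv hc.le
    rw [mul_comm (A.card:ℝ)⁻¹, mul_assoc _ (A.card:ℝ)⁻¹, inv_mul_cancel₀ hc.ne', mul_one] at this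
    exact this
  calc (A.card:ℝ)^(lam+1) = (∑ i ∈ A, U i)^lam * ((A.card:ℝ)^lam * ((∑ i ∈ A, U i)^lam)⁻¹ * (A.card:ℝ)) := by
        rw [pow_succ]; field_simp
    _ ≤ _ := mul_le_mul_of_nonneg_left h1 (by positivity)

lemma sum_range_mul' (P M : ℕ) (f : ℕ → ℝ) :
    ∑ i ∈ range (P * M), f i = ∑ c ∈ range P, ∑ t ∈ range M, f (c + t * P) := by
  rw [Finset.sum_comm]
  induction M with
  | zero => simp
  | succ M ih =>
    rw [Nat.mul_succ, Finset.sum_range_add, ih, Finset.sum_range_succ]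
    congr 1
    apply Finset.sum_congr rfl
    intro x _; congr 1; ring

lemma total_neg {n lam : ℕ} {s kap : ℝ} {h : ℕ → ℝ} {hmin : ℝ} (H : HSub n lam s kap h hmin)
    (L K : ℕ) : ∑ i ∈ range (3^(n+1) * 3^K), ((UU s kap h L K i)^lam)⁻¹ ≤
      3^(n+1) * 3^K * ((kap^K * hmin)^lam)⁻¹ := by
  have hk := H.kap_pos
  have hm := H.hmin_pos
  rw [sum_range_mul']
  calc ∑ c ∈ range (3^(n+1)), ∑ t ∈ range (3^K), ((UU s kap h L K (c + t * 3^(n+1)))^lam)⁻¹
      = ∑ c ∈ range (3^(n+1)), SS n lam s kap h L K c := rfl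
    _ ≤ ∑ c ∈ range (3^(n+1)), (3^K * ((kap^K * hmin)^lam)⁻¹ : ℝ) := by
        apply Finset.sum_le_sum
        intro c _
        refine (neg_moment H L K c).trans ?_
        apply mul_le_mul_of_nonneg_left _ (by positivity)
        apply inv_anti₀ (by positivity)
        apply pow_le_pow_left₀ (by positivity)
        exact mul_le_mul_of_nonneg_left (H.h_ge c) (by positivity)
    _ = _ := by
        rw [Finset.sum_const, Finset.card_range, nsmul_eq_mul]; push_cast; ring

lemma UU_mod {n lam : ℕ} {s kap : ℝ} {h : ℕ → ℝ} {hmin : ℝ} (H : HSub n lam s kap h hmin)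
    (L K i : ℕ) : UU s kap h L K (i % (3^(n+1) * 3^K)) = UU s kap h L K i := by
  have hp := W_periodic (al := (4:ℝ)^(-s)) (be := (3/2:ℝ)^s) (ga := (3/4:ℝ)^s) (f := h)
    (g := fun K i => kap^K * h i) (n := n+1) H.per (fun K i => by rw [H.per]) L K
  rw [pow_add] at hp
  exact hp.map_mod_nat i

lemma total_neg_inj {n lam : ℕ} {s kap : ℝ} {h : ℕ → ℝ} {hmin : ℝ} (H : HSub n lam s kap h hmin)
    (L K : ℕ) (A : Finset ℕ)
    (hinj : ∀ i ∈ A, ∀ i' ∈ A, i % (3^(n+1) * 3^K) = i' % (3^(n+1) * 3^K) → i = i') :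
    ∑ i ∈ A, ((UU s kap h L K i)^lam)⁻¹ ≤ 3^(n+1) * 3^K * ((kap^K * hmin)^lam)⁻¹ := by
  have hinj' : Set.InjOn (fun i => i % (3^(n+1) * 3^K)) (A : Set ℕ) := fun i hi i' hi' h =>
    hinj i hi i' hi' h
  calc ∑ i ∈ A, ((UU s kap h L K i)^lam)⁻¹
      = ∑ i ∈ A, ((UU s kap h L K (i % (3^(n+1) * 3^K)))^lam)⁻¹ := by
        apply Finset.sum_congr rfl
        intro i _
        rw [UU_mod H]
    _ = ∑ r ∈ A.image (fun i => i % (3^(n+1) * 3^K)), ((UU s kap h L K r)^lam)⁻¹ := by
        rw [Finset.sum_image hinj']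
    _ ≤ ∑ r ∈ range (3^(n+1) * 3^K), ((UU s kap h L K r)^lam)⁻¹ := by
        apply Finset.sum_le_sum_of_subset_of_nonneg
        · intro r hr
          rw [Finset.mem_image] at hr
          obtain ⟨i, _, rfl⟩ := hr
          rw [Finset.mem_range]
          exact Nat.mod_lt _ (by positivity)
        · intro r _ _
          have := UU_pos H L K r
          positivity
    _ ≤ _ := total_neg H L K

lemma sum_lower_inj {n lam : ℕ} (hlam : 0 < lam) {s kap : ℝ} {h : ℕ → ℝ} {hmin : ℝ}
    (H : HSub n lam s kap h hmin) (L K : ℕ) (A : Finset ℕ)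
    (hinj : ∀ i ∈ A, ∀ i' ∈ A, i % (3^(n+1) * 3^K) = i' % (3^(n+1) * 3^K) → i = i') :
    (A.card : ℝ) * (((A.card : ℝ) / (3^(n+1) * 3^K))^((1:ℝ)/lam) * (kap^K * hmin)) ≤
      ∑ i ∈ A, UU s kap h L K i := by
  have hk := H.kap_pos
  have hm := H.hmin_pos
  have hpos : ∀ i ∈ A, 0 < UU s kap h L K i := fun i _ => UU_pos H L K i
  have hS0 : 0 ≤ ∑ i ∈ A, UU s kap h L K i := Finset.sum_nonneg (fun i hi => (hpos i hi).le)
  have h1 := jensen_card A (UU s kap h L K) lam hpos
  have h2 := total_neg_inj H L K A hinj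
  have h3 : (A.card : ℝ)^(lam+1) ≤ (∑ i ∈ A, UU s kap h L K i)^lam *
      (3^(n+1) * 3^K * ((kap^K * hmin)^lam)⁻¹) :=
    h1.trans (mul_le_mul_of_nonneg_left h2 (by positivity))
  apply le_of_pow_le_pow_left₀ hlam.ne' hS0
  rw [mul_pow, mul_pow, ← Real.rpow_natCast (((A.card : ℝ) / (3^(n+1) * 3^K))^((1:ℝ)/lam)) lam,
    ← Real.rpow_mul (by positivity), one_div_mul_cancel (by positivity), Real.rpow_one]
  have hB : (0:ℝ) < 3^(n+1) * 3^K := by positivity
  have hC : (0:ℝ) < (kap^K * hmin)^lam := by positivity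
  have : (A.card:ℝ)^lam * ((A.card : ℝ) / (3^(n+1) * 3^K) * (kap^K * hmin)^lam) =
      (A.card : ℝ)^(lam+1) / ((3^(n+1) * 3^K) * ((kap^K * hmin)^lam)⁻¹) := by
    rw [pow_succ (A.card:ℝ) lam]; field_simp
  rw [this, div_le_iff₀ (by positivity)]
  exact h3

lemma UU_le {n lam : ℕ} {s kap : ℝ} {h : ℕ → ℝ} {hmin : ℝ} (H : HSub n lam s kap h hmin)
    (L K i : ℕ) : UU s kap h L K i ≤
      W ((4:ℝ)^(-s)) ((3/2:ℝ)^s) ((3/4:ℝ)^s) (fun _ => 1) (fun _ _ => 0) L K i +
      W ((4:ℝ)^(-s)) ((3/2:ℝ)^s) ((3/4:ℝ)^s) (fun _ => 0) (fun K _ => kap^K) L K i := by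
  have hk := H.kap_pos
  rw [← W_add]
  unfold UU
  apply W_mono (by positivity) (by positivity) (by positivity)
  · intro i; simpa using H.h_le i
  · intro K i
    have : kap^K * h i ≤ kap^K * 1 := mul_le_mul_of_nonneg_left (H.h_le i) (by positivity)
    simpa using this

end H62
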