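import Pool.Agent.Lib.H62u.D0

set_option autoImplicit false

namespace H62

open Finset

lemma rpow_split {a s' th : ℝ} (ha : 0 < a) : a^(s'+th) = a^s' * a^th := Real.rpow_add ha _ _

lemma R_upper {s' th rho kap : ℝ} {G : ℕ → ℝ} {Gmax : ℝ} (H : RSup s' rho G Gmax)
    (hth : 0 ≤ th) (hk : 0 ≤ kap) (hkr : kap ≤ rho) (L : ℕ) :
    ∀ K i : ℕ, W ((4:ℝ)^(-(s'+th))) ((3/2:ℝ)^(s'+th)) ((3/4:ℝ)^(s'+th)) (fun _ => 0)
      (fun K _ => kap^K) L K i ≤ (2:ℝ)^th * ((3:ℝ)^K / 2^L)^th * rho^K * G i := by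
  have hr := H.rho_pos
  have hG : ∀ i, 0 ≤ G i := fun i => zero_le_one.trans (H.G_ge i)
  have K0 : ∀ L i : ℕ, W ((4:ℝ)^(-(s'+th))) ((3/2:ℝ)^(s'+th)) ((3/4:ℝ)^(s'+th)) (fun _ => 0)
      (fun K _ => kap^K) L 0 i ≤ (2:ℝ)^th * ((3:ℝ)^0 / 2^L)^th * rho^0 * G i := by
    intro L i
    rw [W_K0]
    have := hG i
    positivity
  have base : ∀ L ≤ 1, ∀ K i : ℕ, kap^(K+1) ≤
      (2:ℝ)^th * ((3:ℝ)^(K+1) / 2^L)^th * rho^(K+1) * G i := by
    intro L hL K i
    have e1 : (2:ℝ)^th * ((3:ℝ)^(K+1) / 2^L)^th = (2 * ((3:ℝ)^(K+1) / 2^L))^th := by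
      rw [Real.mul_rpow (by norm_num) (by positivity)]
    have e2 : (1:ℝ) ≤ 2 * ((3:ℝ)^(K+1) / 2^L) := by
      have : (2:ℝ)^L ≤ 2 := by
        calc (2:ℝ)^L ≤ 2^1 := pow_le_pow_right₀ (by norm_num) hL
          _ = 2 := by norm_num
      have h3 : (1:ℝ) ≤ 3^(K+1) := one_le_pow₀ (by norm_num)
      rw [mul_div_assoc', le_div_iff₀ (by positivity)]
      nlinarith
    have e3 : (1:ℝ) ≤ (2 * ((3:ℝ)^(K+1) / 2^L))^th := Real.one_le_rpow e2 hth
    rw [e1]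
    calc kap^(K+1) ≤ rho^(K+1) := pow_le_pow_left₀ hk hkr _
      _ = 1 * rho^(K+1) * 1 := by ring
      _ ≤ _ := by
        apply mul_le_mul _ (H.G_ge i) (by norm_num) (by positivity)
        exact mul_le_mul_of_nonneg_right e3 (by positivity)
  induction L using ind2 with
  | h0 =>
    intro K i
    rcases K with _ | K
    · exact K0 0 i
    · rw [W_L0]; exact base 0 (by norm_num) K i
  | h1 =>
    intro K i
    rcases K with _ | K
    · exact K0 1 i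
    · rw [W_L1]; exact base 1 (by norm_num) K i
  | h2 L ih0 ih1 =>
    intro K i
    rcases K with _ | K
    · exact K0 (L+2) i
    · set V := W ((4:ℝ)^(-(s'+th))) ((3/2:ℝ)^(s'+th)) ((3/4:ℝ)^(s'+th)) (fun _ => (0:ℝ))
        (fun K _ => kap^K) with hV
      -- scale factors
      set F : ℝ := ((3:ℝ)^(K+1) / 2^(L+2))^th with hF
      have hF0 : 0 ≤ F := by positivity
      have p2 : (2:ℝ)^(L+2) = 4 * 2^L := by ring
      have p1 : (2:ℝ)^(L+1) = 2 * 2^L := by ring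
      have p3 : (3:ℝ)^(K+1) = 3 * 3^K := by ring
      have sA : (4:ℝ)^(-(s'+th)) * ((3:ℝ)^(K+1) / 2^L)^th = (4:ℝ)^(-s') * F := by
        have : ((3:ℝ)^(K+1) / 2^L) = 4 * ((3:ℝ)^(K+1) / 2^(L+2)) := by
          rw [p2]; field_simp
        rw [this, Real.mul_rpow (by norm_num) (by positivity), ← hF, neg_add,
          Real.rpow_add (by norm_num), Real.rpow_neg (by norm_num) th]
        field_simp
      have sB : (3/2:ℝ)^(s'+th) * ((3:ℝ)^K / 2^(L+1))^th = (3/2:ℝ)^s' * F := by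
        have : ((3:ℝ)^(K+1) / 2^(L+2)) = (3/2) * ((3:ℝ)^K / 2^(L+1)) := by
          rw [p2, p1, p3]; field_simp; norm_num
        rw [hF, this, Real.mul_rpow (by norm_num) (by positivity), Real.rpow_add (by norm_num)]
        ring
      have sC : (3/4:ℝ)^(s'+th) * ((3:ℝ)^K / 2^L)^th = (3/4:ℝ)^s' * F := by
        have : ((3:ℝ)^(K+1) / 2^(L+2)) = (3/4) * ((3:ℝ)^K / 2^L) := by
          rw [p2, p3]; field_simp
        rw [hF, this, Real.mul_rpow (by norm_num) (by positivity), Real.rpow_add (by norm_num)]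
        ring
      have hA : (4:ℝ)^(-(s'+th)) * V L (K+1) (4*i+2) ≤
          (2:ℝ)^th * F * rho^(K+1) * ((4:ℝ)^(-s') * G (4*i+2)) := by
        calc _ ≤ (4:ℝ)^(-(s'+th)) * ((2:ℝ)^th * ((3:ℝ)^(K+1) / 2^L)^th * rho^(K+1) * G (4*i+2)) :=
              mul_le_mul_of_nonneg_left (ih0 (K+1) (4*i+2)) (by positivity)
          _ = (2:ℝ)^th * ((4:ℝ)^(-(s'+th)) * ((3:ℝ)^(K+1) / 2^L)^th) * rho^(K+1) * G (4*i+2) := by
              ring
          _ = _ := by rw [sA]; ring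
      obtain ⟨j, hj⟩ : ∃ j, i = 3*j ∨ i = 3*j+1 ∨ i = 3*j+2 := ⟨i/3, by omega⟩
      rcases hj with rfl | rfl | rfl
      · have hC : (3/4:ℝ)^(s'+th) * V L K (4*j) ≤
            (2:ℝ)^th * F * rho^(K+1) * ((3/4:ℝ)^s' * G (4*j) / rho) := by
          calc _ ≤ (3/4:ℝ)^(s'+th) * ((2:ℝ)^th * ((3:ℝ)^K / 2^L)^th * rho^K * G (4*j)) :=
                mul_le_mul_of_nonneg_left (ih0 K (4*j)) (by positivity)
            _ = (2:ℝ)^th * ((3/4:ℝ)^(s'+th) * ((3:ℝ)^K / 2^L)^th) * rho^K * G (4*j) := by ring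
            _ = _ := by rw [sC, pow_succ]; field_simp
        have hr' : V (L+2) (K+1) (3*j) = (4:ℝ)^(-(s'+th)) * V L (K+1) (4*(3*j)+2)
            + (3/4:ℝ)^(s'+th) * V L K (4*j) := by
          rw [hV, W_LK]
          have h1 : (3*j) % 3 = 0 := by omega
          have h2 : (3*j) / 3 = j := by omega
          rw [h1, h2]; simp
        rw [hr']
        calc _ ≤ _ := add_le_add hA hC
          _ = (2:ℝ)^th * F * rho^(K+1) *
            ((4:ℝ)^(-s') * G (4*(3*j)+2) + (3/4:ℝ)^s' * G (4*j) / rho) := by ring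
          _ ≤ _ := mul_le_mul_of_nonneg_left (H.h0 j) (by positivity)
      · have hr' : V (L+2) (K+1) (3*j+1) = (4:ℝ)^(-(s'+th)) * V L (K+1) (4*(3*j+1)+2) := by
          rw [hV, W_LK]
          have h1 : (3*j+1) % 3 = 1 := by omega
          rw [h1]; simp
        rw [hr']
        refine hA.trans ?_
        exact mul_le_mul_of_nonneg_left (H.h1 j) (by positivity)
      · have hB : (3/2:ℝ)^(s'+th) * V (L+1) K (2*j+1) ≤
            (2:ℝ)^th * F * rho^(K+1) * ((3/2:ℝ)^s' * G (2*j+1) / rho) := by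
          calc _ ≤ (3/2:ℝ)^(s'+th) * ((2:ℝ)^th * ((3:ℝ)^K / 2^(L+1))^th * rho^K * G (2*j+1)) :=
                mul_le_mul_of_nonneg_left (ih1 K (2*j+1)) (by positivity)
            _ = (2:ℝ)^th * ((3/2:ℝ)^(s'+th) * ((3:ℝ)^K / 2^(L+1))^th) * rho^K * G (2*j+1) := by ring
            _ = _ := by rw [sB, pow_succ]; field_simp
        have hr' : V (L+2) (K+1) (3*j+2) = (4:ℝ)^(-(s'+th)) * V L (K+1) (4*(3*j+2)+2)
            + (3/2:ℝ)^(s'+th) * V (L+1) K (2*j+1) := by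
          rw [hV, W_LK]
          have h1 : (3*j+2) % 3 = 2 := by omega
          have h2 : (3*j+2) / 3 = j := by omega
          rw [h1, h2]; simp
        rw [hr']
        calc _ ≤ _ := add_le_add hA hB
          _ = (2:ℝ)^th * F * rho^(K+1) *
            ((4:ℝ)^(-s') * G (4*(3*j+2)+2) + (3/2:ℝ)^s' * G (2*j+1) / rho) := by ring
          _ ≤ _ := mul_le_mul_of_nonneg_left (H.h2 j) (by positivity)

end H62
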