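import Pool.Agent.Lib.H62u.VRel
import Pool.Agent.Lib.H62u.RUp
import Pool.Agent.Lib.H62u.Neg

set_option autoImplicit false

namespace H62

open Finset

lemma sum_cnt_le {X M N i : ℕ} (A : Finset ℕ) (hA : ∀ i' ∈ A, T^[N] (3*i'+2) = 3*i+2) :
    ∑ i' ∈ A, cnt X M i' ≤ cnt X (M+N) i := by
  have h1 : ∑ i' ∈ A, cnt X M i' =
      (A.biUnion (fun i' => (pairs X M i').image (fun p => (p.1, p.2 + N)))).card := by
    rw [Finset.card_biUnion]
    · apply Finset.sum_congr rfl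
      intro i' _
      rw [card_shift]; rfl
    · intro a _ b _ hab
      rw [Function.onFun, Finset.disjoint_left]
      intro p hp hp'
      rw [Finset.mem_image] at hp hp'
      obtain ⟨q, hq, rfl⟩ := hp
      obtain ⟨q', hq', h⟩ := hp'
      rw [mem_pairs] at hq hq'
      simp only [Prod.mk.injEq] at h
      have h2 : q'.2 = q.2 := by omega
      have e1 := hq'.2.2.2
      rw [h2, h.1, hq.2.2.2] at e1
      omega
  rw [h1]
  unfold cnt
  apply Finset.card_le_card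
  intro p hp
  rw [Finset.mem_biUnion] at hp
  obtain ⟨i', hi', hp⟩ := hp
  rw [Finset.mem_image] at hp
  obtain ⟨q, hq, rfl⟩ := hp
  rw [mem_pairs] at hq ⊢
  refine ⟨hq.1, ?_, hq.2.2.1, ?_⟩
  · have := hq.2.1; simp; exact this
  · rw [add_comm, Function.iterate_add_apply, hq.2.2.2, hA i' hi']

theorem core_rel {n lam : ℕ} (hlam : 0 < lam) {s s' th rho kap : ℝ} {h G : ℕ → ℝ}
    {hmin Gmax : ℝ} (hs0 : 0 < s) (HH : HSub n lam s kap h hmin)
    (HR : RSup s' rho G Gmax) (hs : s = s' + th) (hth : 0 ≤ th) (hkr : kap ≤ rho)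
    {c : ℝ} (hc : 0 ≤ c) {X Xc K L L1 N i : ℕ} (A : Finset ℕ)
    (hA : ∀ i' ∈ A, T^[N] (3*i'+2) = 3*i+2 ∧ 3*i'+2 ≤ Xc)
    (hinj : ∀ i ∈ A, ∀ i' ∈ A, i % (3^(n+1) * 3^K) = i' % (3^(n+1) * 3^K) → i = i')
    (hP : ∀ N' i' : ℕ, T^[N'] (3*i'+2) = 3*i+2 → N' ≤ N + L → 3*i'+2 ≤ X →
      c * ((X:ℝ)/(3*i'+2))^s ≤ (cnt X L1 i' : ℝ))
    (hXc : Xc * 2^L ≤ 3^K * X) :
    c * ((X:ℝ)/Xc)^s * ((A.card : ℝ) *
      ((((A.card : ℝ) / (3^(n+1) * 3^K))^((1:ℝ)/lam) * (kap^K * hmin))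
        - (2:ℝ)^th * ((3:ℝ)^K / 2^L)^th * rho^K * Gmax)) ≤
      (cnt X (L + L1 + N) i : ℝ) := by
  have hV : ∀ i' ∈ A, c * ((X:ℝ)/Xc)^s *
      (UU s kap h L K i' - (2:ℝ)^th * ((3:ℝ)^K / 2^L)^th * rho^K * Gmax) ≤
      (cnt X (L+L1) i' : ℝ) := by
    intro i' hi'
    obtain ⟨hT, hle⟩ := hA i' hi'
    have hv := V_rel hs0 hc (closed_reach (3*i+2)) hP L K N i' hT le_rfl
      (by
        calc (3*i'+2) * 2^L ≤ Xc * 2^L := Nat.mul_le_mul_right _ hle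
          _ ≤ _ := hXc)
    set V := W ((4:ℝ)^(-s)) ((3/2:ℝ)^s) ((3/4:ℝ)^s) (fun _ => (1:ℝ)) (fun _ _ => (0:ℝ)) L K i' with hVd
    have hV0 : 0 ≤ V := W_nonneg (by positivity) (by positivity) (by positivity) (by simp)
      (by simp) L K i'
    have hU := UU_le HH L K i'
    have hR := R_upper HR hth HH.kap_pos.le hkr L K i'
    rw [← hs] at hR
    have hr0 := HR.rho_pos
    have hR2 : (2:ℝ)^th * ((3:ℝ)^K / 2^L)^th * rho^K * G i' ≤
        (2:ℝ)^th * ((3:ℝ)^K / 2^L)^th * rho^K * Gmax :=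
      mul_le_mul_of_nonneg_left (HR.G_le i') (by positivity)
    have hUR : UU s kap h L K i' - (2:ℝ)^th * ((3:ℝ)^K / 2^L)^th * rho^K * Gmax ≤ V := by
      linarith
    have hratio : ((X:ℝ)/Xc)^s ≤ ((X:ℝ)/(3*i'+2))^s := by
      apply Real.rpow_le_rpow (by positivity) _ hs0.le
      apply div_le_div_of_nonneg_left (by positivity) (by positivity)
      exact_mod_cast hle
    calc _ ≤ c * ((X:ℝ)/Xc)^s * V :=
          mul_le_mul_of_nonneg_left hUR (by positivity)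
      _ ≤ c * ((X:ℝ)/(3*i'+2))^s * V := by
          apply mul_le_mul_of_nonneg_right _ hV0
          exact mul_le_mul_of_nonneg_left hratio hc
      _ ≤ _ := hv
  have hsum := sum_lower_inj hlam HH L K A hinj
  have hle : ((∑ i' ∈ A, cnt X (L+L1) i' : ℕ) : ℝ) ≤ (cnt X (L+L1+N) i : ℝ) := by
    exact_mod_cast sum_cnt_le (X := X) (M := L+L1) A (fun i' hi' => (hA i' hi').1)
  push_cast at hle
  refine le_trans ?_ hle
  calc _ ≤ c * ((X:ℝ)/Xc)^s *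
        (∑ i ∈ A, (UU s kap h L K i - (2:ℝ)^th * ((3:ℝ)^K / 2^L)^th * rho^K * Gmax)) := by
        apply mul_le_mul_of_nonneg_left _ (by positivity)
        rw [Finset.sum_sub_distrib, Finset.sum_const, nsmul_eq_mul, mul_sub]
        linarith
    _ = ∑ i ∈ A, (c * ((X:ℝ)/Xc)^s *
        (UU s kap h L K i - (2:ℝ)^th * ((3:ℝ)^K / 2^L)^th * rho^K * Gmax)) := by
        rw [Finset.mul_sum]
    _ ≤ _ := Finset.sum_le_sum hV

end H62
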