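import Mathlib.Analysis.SpecialFunctions.Pow.Real
import Mathlib.Analysis.SpecialFunctions.Log.Base
import Mathlib.Tactic

set_option autoImplicit false

namespace H62

open Finset

/-- The `3x+1` function. -/
def T (n : ℕ) : ℕ := if n % 2 = 0 then n / 2 else (3 * n + 1) / 2

lemma T_even (m : ℕ) : T (2 * m) = m := by
  unfold T
  have : (2 * m) % 2 = 0 := by omega
  rw [if_pos this]; omega

lemma T_two_A (i : ℕ) : T^[2] (3 * (4 * i + 2) + 2) = 3 * i + 2 := by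
  have h1 : 3 * (4 * i + 2) + 2 = 2 * (2 * (3 * i + 2)) := by ring
  rw [h1]
  simp [Function.iterate_succ, T_even]

lemma T_one_A (i : ℕ) : T (3 * (4 * i + 2) + 2) = 2 * (3 * i + 2) := by
  have h1 : 3 * (4 * i + 2) + 2 = 2 * (2 * (3 * i + 2)) := by ring
  rw [h1, T_even]

lemma T_B (j : ℕ) : T (3 * (2 * j + 1) + 2) = 3 * (3 * j + 2) + 2 := by
  unfold T
  have : ¬ (3 * (2 * j + 1) + 2) % 2 = 0 := by omega
  rw [if_neg this]; omega

lemma T_two_C (j : ℕ) : T^[2] (3 * (4 * j) + 2) = 3 * (3 * j) + 2 := by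
  have h1 : 3 * (4 * j) + 2 = 2 * (6 * j + 1) := by ring
  rw [h1]
  simp only [Function.iterate_succ, Function.iterate_zero, Function.comp, id, T_even]
  unfold T
  have : ¬ (6 * j + 1) % 2 = 0 := by omega
  rw [if_neg this]; omega

/-- Pairs `(n, N)` with `n ≤ X`, `N ≤ L`, `n ≡ 2 mod 3`, and `T^[N] n = 3 i + 2`. -/
def pairs (X L i : ℕ) : Finset (ℕ × ℕ) :=
  ((Finset.Icc 1 X) ×ˢ (Finset.range (L + 1))).filter
    (fun p => p.1 % 3 = 2 ∧ T^[p.2] p.1 = 3 * i + 2)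

/-- number of such pairs -/
def cnt (X L i : ℕ) : ℕ := (pairs X L i).card

lemma mem_pairs {X L i : ℕ} {p : ℕ × ℕ} :
    p ∈ pairs X L i ↔ (1 ≤ p.1 ∧ p.1 ≤ X) ∧ p.2 ≤ L ∧ p.1 % 3 = 2 ∧ T^[p.2] p.1 = 3 * i + 2 := by
  unfold pairs
  simp only [Finset.mem_filter, Finset.mem_product, Finset.mem_Icc, Finset.mem_range]
  constructor
  · rintro ⟨⟨h1, h2⟩, h3, h4⟩; exact ⟨h1, by omega, h3, h4⟩
  · rintro ⟨h1, h2, h3, h4⟩; exact ⟨⟨h1, by omega⟩, h3, h4⟩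

lemma cnt_mono_L {X L L' i : ℕ} (h : L ≤ L') : cnt X L i ≤ cnt X L' i := by
  unfold cnt
  apply Finset.card_le_card
  intro p hp
  rw [mem_pairs] at hp ⊢
  exact ⟨hp.1, by omega, hp.2.2⟩

lemma one_le_cnt {X L i : ℕ} (h : 3 * i + 2 ≤ X) : 1 ≤ cnt X L i := by
  unfold cnt
  rw [Nat.one_le_iff_ne_zero]
  apply Finset.card_ne_zero_of_mem (a := (3 * i + 2, 0))
  rw [mem_pairs]
  refine ⟨⟨by simp, h⟩, by simp, ?_, rfl⟩
  show (3 * i + 2) % 3 = 2
  omega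

lemma card_shift (S : Finset (ℕ × ℕ)) (a : ℕ) :
    (S.image (fun p => (p.1, p.2 + a))).card = S.card := by
  apply Finset.card_image_of_injective
  intro p q h
  simp only [Prod.mk.injEq, Nat.add_right_cancel_iff] at h
  exact Prod.ext h.1 h.2

/-- The A-move alone. -/
lemma cnt_A (X L i : ℕ) : cnt X L (4 * i + 2) ≤ cnt X (L + 2) i := by
  unfold cnt
  rw [← card_shift _ 2]
  apply Finset.card_le_card
  intro p hp
  rw [Finset.mem_image] at hp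
  obtain ⟨q, hq, rfl⟩ := hp
  rw [mem_pairs] at hq ⊢
  refine ⟨hq.1, ?_, hq.2.2.1, ?_⟩
  · have := hq.2.1; simp; exact this
  · rw [add_comm, Function.iterate_add_apply, hq.2.2.2, T_two_A]

lemma cnt_AB (X L j : ℕ) :
    cnt X L (4 * (3 * j + 2) + 2) + cnt X (L + 1) (2 * j + 1) ≤ cnt X (L + 2) (3 * j + 2) := by
  unfold cnt
  rw [← card_shift (pairs X L (4 * (3 * j + 2) + 2)) 2,
    ← card_shift (pairs X (L + 1) (2 * j + 1)) 1]
  rw [← Finset.card_union_of_disjoint]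
  · apply Finset.card_le_card
    intro p hp
    rw [Finset.mem_union, Finset.mem_image, Finset.mem_image] at hp
    rcases hp with ⟨q, hq, rfl⟩ | ⟨q, hq, rfl⟩
    · rw [mem_pairs] at hq ⊢
      refine ⟨hq.1, ?_, hq.2.2.1, ?_⟩
      · have := hq.2.1; simp; exact this
      · rw [add_comm, Function.iterate_add_apply, hq.2.2.2, T_two_A]
    · rw [mem_pairs] at hq ⊢
      refine ⟨hq.1, ?_, hq.2.2.1, ?_⟩
      · have := hq.2.1; simp; exact this
      · rw [add_comm, Function.iterate_add_apply, hq.2.2.2, Function.iterate_one, T_B]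
  · rw [Finset.disjoint_left]
    intro p hp hp'
    rw [Finset.mem_image] at hp hp'
    obtain ⟨q, hq, rfl⟩ := hp
    obtain ⟨q', hq', h⟩ := hp'
    rw [mem_pairs] at hq hq'
    simp only [Prod.mk.injEq] at h
    have h2 : q'.2 = q.2 + 1 := by omega
    have e1 := hq'.2.2.2
    rw [h2, h.1, add_comm, Function.iterate_add_apply, hq.2.2.2, Function.iterate_one,
      T_one_A] at e1
    omega

lemma cnt_AC (X L j : ℕ) :
    cnt X L (4 * (3 * j) + 2) + cnt X L (4 * j) ≤ cnt X (L + 2) (3 * j) := by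
  unfold cnt
  rw [← card_shift (pairs X L (4 * (3 * j) + 2)) 2,
    ← card_shift (pairs X L (4 * j)) 2]
  rw [← Finset.card_union_of_disjoint]
  · apply Finset.card_le_card
    intro p hp
    rw [Finset.mem_union, Finset.mem_image, Finset.mem_image] at hp
    rcases hp with ⟨q, hq, rfl⟩ | ⟨q, hq, rfl⟩
    · rw [mem_pairs] at hq ⊢
      refine ⟨hq.1, ?_, hq.2.2.1, ?_⟩
      · have := hq.2.1; simp; exact this
      · rw [add_comm, Function.iterate_add_apply, hq.2.2.2, T_two_A]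
    · rw [mem_pairs] at hq ⊢
      refine ⟨hq.1, ?_, hq.2.2.1, ?_⟩
      · have := hq.2.1; simp; exact this
      · rw [add_comm, Function.iterate_add_apply, hq.2.2.2, T_two_C]
  · rw [Finset.disjoint_left]
    intro p hp hp'
    rw [Finset.mem_image] at hp hp'
    obtain ⟨q, hq, rfl⟩ := hp
    obtain ⟨q', hq', h⟩ := hp'
    rw [mem_pairs] at hq hq'
    simp only [Prod.mk.injEq] at h
    have h2 : q'.2 = q.2 := by omega
    have e1 := hq'.2.2.2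
    rw [h2, h.1, hq.2.2.2] at e1
    omega

/-- Weighted backward tree sum.  `L` is the budget of steps of `T`, `K` the number of 3-adic digits
still to be used, `i` the current node (the number `3 i + 2`).  `f` is the value at `K = 0`,
`g` the value when the budget is exhausted first. -/
noncomputable def W (al be ga : ℝ) (f : ℕ → ℝ) (g : ℕ → ℕ → ℝ) : ℕ → ℕ → ℕ → ℝ
  | _, 0, i => f i
  | 0, K+1, i => g (K+1) i
  | 1, K+1, i => g (K+1) i
  | L+2, K+1, i => al * W al be ga f g L (K+1) (4*i+2) +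
      (if i % 3 = 2 then be * W al be ga f g (L+1) K (2*(i/3)+1)
       else if i % 3 = 0 then ga * W al be ga f g L K (4*(i/3)) else 0)

section
variable (al be ga : ℝ) (f : ℕ → ℝ) (g : ℕ → ℕ → ℝ)

lemma W_K0 (L i : ℕ) : W al be ga f g L 0 i = f i := by
  rcases L with _ | _ | L <;> simp [W]

lemma W_L0 (K i : ℕ) : W al be ga f g 0 (K+1) i = g (K+1) i := by
  simp [W]

lemma W_L1 (K i : ℕ) : W al be ga f g 1 (K+1) i = g (K+1) i := by
  simp [W]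

lemma W_LK (L K i : ℕ) : W al be ga f g (L+2) (K+1) i = al * W al be ga f g L (K+1) (4*i+2) +
      (if i % 3 = 2 then be * W al be ga f g (L+1) K (2*(i/3)+1)
       else if i % 3 = 0 then ga * W al be ga f g L K (4*(i/3)) else 0) := by
  simp [W]
end

/-- A two-step induction principle on the budget. -/
lemma ind2 {P : ℕ → Prop} (h0 : P 0) (h1 : P 1) (h2 : ∀ L, P L → P (L+1) → P (L+2)) : ∀ L, P L := by
  intro L
  have : P L ∧ P (L+1) := by
    induction L with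
    | zero => exact ⟨h0, h1⟩
    | succ L ih => exact ⟨ih.2, h2 L ih.1 ih.2⟩
  exact this.1

lemma W_add (al be ga : ℝ) (f f' : ℕ → ℝ) (g g' : ℕ → ℕ → ℝ) (L : ℕ) :
    ∀ K i, W al be ga (fun i => f i + f' i) (fun K i => g K i + g' K i) L K i =
      W al be ga f g L K i + W al be ga f' g' L K i := by
  induction L using ind2 with
  | h0 => intro K i; rcases K with _ | K <;> simp [W_K0, W_L0]
  | h1 => intro K i; rcases K with _ | K <;> simp [W_K0, W_L1]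
  | h2 L ih0 ih1 =>
    intro K i
    rcases K with _ | K
    · simp [W_K0]
    · rw [W_LK, W_LK, W_LK, ih0, ih1, ih0]
      split_ifs <;> ring

lemma W_mono {al be ga : ℝ} (hal : 0 ≤ al) (hbe : 0 ≤ be) (hga : 0 ≤ ga)
    {f f' : ℕ → ℝ} {g g' : ℕ → ℕ → ℝ} (hf : ∀ i, f i ≤ f' i) (hg : ∀ K i, g K i ≤ g' K i) (L : ℕ) :
    ∀ K i, W al be ga f g L K i ≤ W al be ga f' g' L K i := by
  induction L using ind2 with
  | h0 => intro K i; rcases K with _ | K <;> simp [W_K0, W_L0, hf, hg]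
  | h1 => intro K i; rcases K with _ | K <;> simp [W_K0, W_L1, hf, hg]
  | h2 L ih0 ih1 =>
    intro K i
    rcases K with _ | K
    · simp [W_K0, hf]
    · rw [W_LK, W_LK]
      apply add_le_add (mul_le_mul_of_nonneg_left (ih0 _ _) hal)
      split_ifs
      · exact mul_le_mul_of_nonneg_left (ih1 _ _) hbe
      · exact mul_le_mul_of_nonneg_left (ih0 _ _) hga
      · exact le_refl _

lemma W_nonneg {al be ga : ℝ} (hal : 0 ≤ al) (hbe : 0 ≤ be) (hga : 0 ≤ ga)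
    {f : ℕ → ℝ} {g : ℕ → ℕ → ℝ} (hf : ∀ i, 0 ≤ f i) (hg : ∀ K i, 0 ≤ g K i) (L : ℕ) :
    ∀ K i, 0 ≤ W al be ga f g L K i := by
  induction L using ind2 with
  | h0 => intro K i; rcases K with _ | K <;> simp [W_K0, W_L0, hf, hg]
  | h1 => intro K i; rcases K with _ | K <;> simp [W_K0, W_L1, hf, hg]
  | h2 L ih0 ih1 =>
    intro K i
    rcases K with _ | K
    · simp [W_K0, hf]
    · rw [W_LK]
      apply add_nonneg (mul_nonneg hal (ih0 _ _))
      split_ifs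
      · exact mul_nonneg hbe (ih1 _ _)
      · exact mul_nonneg hga (ih0 _ _)
      · exact le_refl _

/-! ### size estimates -/

lemma div_rpow_A {s X m : ℝ} (hX : 0 ≤ X) (hm : 0 < m) :
    (4:ℝ)^(-s) * (X / m)^s = (X / (4 * m))^s := by
  have e : X / (4 * m) = (4:ℝ)⁻¹ * (X / m) := by
    field_simp
  rw [e, Real.mul_rpow (by norm_num) (by positivity), Real.inv_rpow (by norm_num),
    Real.rpow_neg (by norm_num)]

lemma rpow_B {s X : ℝ} (hs : 0 ≤ s) (hX : 0 ≤ X) {m m' : ℝ} (hm : 0 < m) (hm' : 0 < m')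
    {r : ℝ} (hr : 0 ≤ r) (h : r * m' ≤ m) : r^s * (X / m)^s ≤ (X / m')^s := by
  rw [← Real.mul_rpow hr (by positivity)]
  apply Real.rpow_le_rpow (by positivity) _ hs
  rw [← mul_div_assoc, div_le_div_iff₀ hm hm']
  nlinarith [mul_le_mul_of_nonneg_left h hX]

/-! ### the worst-case lemma -/

/-- Worst-case subsolution. -/
structure PSub (s z : ℝ) (w : ℕ → ℝ) (wmin : ℝ) : Prop where
  s_pos : 0 < s
  z_pos : 0 < z
  z_lt : z < 1
  wmin_pos : 0 < wmin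
  w_ge : ∀ i, wmin ≤ w i
  w_le : ∀ i, w i ≤ 1
  h1 : ∀ j, w (3*j+1) ≤ z^2 * ((4:ℝ)^(-s) * w (4*(3*j+1)+2))
  h2 : ∀ j, w (3*j+2) ≤ z^2 * ((4:ℝ)^(-s) * w (4*(3*j+2)+2)) + z * ((3/2:ℝ)^s * w (2*j+1))
  h0 : ∀ j, w (3*j) ≤ z^2 * ((4:ℝ)^(-s) * w (4*(3*j)+2)) + z^2 * ((3/4:ℝ)^s * w (4*j))

/-- Worst-case supersolution at the smaller exponent `s'`. -/
structure RSup (s' rho : ℝ) (G : ℕ → ℝ) (Gmax : ℝ) : Prop where
  rho_pos : 0 < rho
  G_ge : ∀ i, 1 ≤ G i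
  G_le : ∀ i, G i ≤ Gmax
  h1 : ∀ j, (4:ℝ)^(-s') * G (4*(3*j+1)+2) ≤ G (3*j+1)
  h2 : ∀ j, (4:ℝ)^(-s') * G (4*(3*j+2)+2) + (3/2:ℝ)^s' * G (2*j+1) / rho ≤ G (3*j+2)
  h0 : ∀ j, (4:ℝ)^(-s') * G (4*(3*j)+2) + (3/4:ℝ)^s' * G (4*j) / rho ≤ G (3*j)

/-- Negative moment subsolution. -/
structure HSub (n lam : ℕ) (s kap : ℝ) (h : ℕ → ℝ) (hmin : ℝ) : Prop where
  per : ∀ i, h (i + 3^(n+1)) = h i
  kap_pos : 0 < kap
  hmin_pos : 0 < hmin
  h_ge : ∀ i, hmin ≤ h i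
  h_le : ∀ i, h i ≤ 1
  h1 : ∀ j, h (3*j+1) ≤ (4:ℝ)^(-s) * h (4*(3*j+1)+2)
  h2 : ∀ j, ∃ v : ℝ, 0 < v ∧
    ((h (2*j+1))^lam)⁻¹ + ((h (2*j+1+3^n))^lam)⁻¹ + ((h (2*j+1+2*3^n))^lam)⁻¹ ≤ 3 * (v^lam)⁻¹ ∧
    h (3*j+2) ≤ (4:ℝ)^(-s) * h (4*(3*j+2)+2) + (3/2:ℝ)^s * v / kap
  h0 : ∀ j, ∃ v : ℝ, 0 < v ∧
    ((h (4*j))^lam)⁻¹ + ((h (4*j+3^n))^lam)⁻¹ + ((h (4*j+2*3^n))^lam)⁻¹ ≤ 3 * (v^lam)⁻¹ ∧
    h (3*j) ≤ (4:ℝ)^(-s) * h (4*(3*j)+2) + (3/4:ℝ)^s * v / kap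

/-- The tree sum with boundary function `h`. -/
noncomputable def UU (s kap : ℝ) (h : ℕ → ℝ) (L K i : ℕ) : ℝ :=
  W ((4:ℝ)^(-s)) ((3/2:ℝ)^s) ((3/4:ℝ)^s) h (fun K i => kap^K * h i) L K i

/-- A relation `S N i` (the number `3 i + 2` is found at depth `N`), closed under the moves. -/
structure Closed (S : ℕ → ℕ → Prop) : Prop where
  A : ∀ N i, S N i → S (N+2) (4*i+2)
  B : ∀ N j, S N (3*j+2) → S (N+1) (2*j+1)
  C : ∀ N j, S N (3*j) → S (N+2) (4*j)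

lemma closed_reach (m : ℕ) : Closed (fun N i => T^[N] (3*i+2) = m) := by
  refine ⟨fun N i h => ?_, fun N j h => ?_, fun N j h => ?_⟩
  · show T^[N+2] (3*(4*i+2)+2) = m
    rw [Function.iterate_add_apply, T_two_A, h]
  · show T^[N+1] (3*(2*j+1)+2) = m
    rw [Function.iterate_add_apply, Function.iterate_one, T_B, h]
  · show T^[N+2] (3*(4*j)+2) = m
    rw [Function.iterate_add_apply, T_two_C, h]

/-- `m` is quasi-minimal at rate `v`: every number `n ≡ 2 mod 3` reaching `m` in `N` steps is at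
least `m * v ^ N`. -/
def QMin (v : ℝ) (m : ℕ) : Prop := ∀ N n : ℕ, T^[N] n = m → n % 3 = 2 → (m:ℝ) * v^N ≤ n

lemma QMin.mono {v v' : ℝ} (hv : 0 ≤ v) (h : v ≤ v') {m : ℕ} (H : QMin v' m) : QMin v m := by
  intro N n h1 h2
  refine le_trans ?_ (H N n h1 h2)
  exact mul_le_mul_of_nonneg_left (pow_le_pow_left₀ hv h N) (by positivity)

/-- uniform growth exponent over quasi-minimal roots, with logarithmic time -/
def UGood (δ : ℝ) : Prop :=
  ∃ v c D : ℝ, 0 < v ∧ v < 1 ∧ 0 < c ∧ 0 < D ∧ ∀ i X L : ℕ, 3*i+2 ≤ X → QMin v (3*i+2) →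
    D * (1 + Real.log ((X:ℝ)/(3*i+2))) ≤ L → c * ((X:ℝ)/(3*i+2))^δ ≤ (cnt X L i : ℝ)

lemma UGood.mono {δ δ' : ℝ} (h : δ' ≤ δ) (H : UGood δ) : UGood δ' := by
  obtain ⟨v, c, D, hv0, hv1, hc, hD, H⟩ := H
  refine ⟨v, c, D, hv0, hv1, hc, hD, fun i X L h1 h2 h3 => ?_⟩
  refine le_trans ?_ (H i X L h1 h2 h3)
  apply mul_le_mul_of_nonneg_left _ hc.le
  apply Real.rpow_le_rpow_of_exponent_le _ h
  rw [one_le_div (by positivity)]
  exact_mod_cast h1

/-- numbers `n ≤ x` reaching `a` in at most `C log n` steps -/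
noncomputable def reach (a : ℕ) (C : ℝ) (x : ℕ) : Finset ℕ :=
  open Classical in
  (Icc 1 x).filter (fun n => ∃ k : ℕ, T^[k] n = a ∧ (k:ℝ) ≤ C * Real.log n)

lemma mem_reach {a : ℕ} {C : ℝ} {x n : ℕ} : n ∈ reach a C x ↔
    (1 ≤ n ∧ n ≤ x) ∧ ∃ k : ℕ, T^[k] n = a ∧ (k:ℝ) ≤ C * Real.log n := by
  unfold reach
  simp [Finset.mem_filter]

end H62
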