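import Pool.Agent.Lib.H62u.D0

set_option autoImplicit false

namespace H62

open Finset

lemma P_rel {s z : ℝ} {w : ℕ → ℝ} {wmin : ℝ} (H : PSub s z w wmin) (X : ℕ)
    {S : ℕ → ℕ → Prop} (hS : Closed S) {B t : ℝ} (hB0 : 0 ≤ B) (ht : 1 ≤ t)
    (hSB : ∀ N i, S N i → 3*i+2 ≤ X → ((X:ℝ) / (3*i+2))^s ≤ B * t^N) (L : ℕ) :
    ∀ N i, S N i → 3*i+2 ≤ X → w i * ((X:ℝ) / (3*i+2))^s ≤
      ((4:ℝ)^s + z^L * (z⁻¹ * (B * t^(N+L)))) * (cnt X L i : ℝ) := by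
  have ht0 : 0 < t := by linarith
  have hs := H.s_pos
  have hz := H.z_pos
  have hz1 := H.z_lt
  have base : ∀ L ≤ 1, ∀ N i, S N i → 3*i+2 ≤ X → w i * ((X:ℝ) / (3*i+2))^s ≤
      ((4:ℝ)^s + z^L * (z⁻¹ * (B * t^(N+L)))) * (cnt X L i : ℝ) := by
    intro L hL N i hNi hi
    have hc : (1:ℝ) ≤ (cnt X L i : ℝ) := by exact_mod_cast one_le_cnt hi
    have h1 : w i * ((X:ℝ) / (3*i+2))^s ≤ B * t^(N+L) := by
      have h0 := hSB N i hNi hi
      have h01 : B * t^N ≤ B * t^(N+L) :=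
        mul_le_mul_of_nonneg_left (pow_le_pow_right₀ ht (by omega)) hB0
      calc w i * ((X:ℝ) / (3*i+2))^s ≤ 1 * ((X:ℝ) / (3*i+2))^s :=
            mul_le_mul_of_nonneg_right (H.w_le i) (by positivity)
        _ ≤ _ := by rw [one_mul]; exact h0.trans h01
    have h4 : (0:ℝ) ≤ B * t^(N+L) := by positivity
    have h2 : B * t^(N+L) ≤ z^L * (z⁻¹ * (B * t^(N+L))) := by
      have : 1 ≤ z^L * z⁻¹ := by
        have : z^1 ≤ z^L := pow_le_pow_of_le_one hz.le hz1.le hL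
        rw [le_mul_inv_iff₀ hz]; simpa using this
      calc B * t^(N+L) = 1 * (B * t^(N+L)) := (one_mul _).symm
        _ ≤ (z^L * z⁻¹) * (B * t^(N+L)) := mul_le_mul_of_nonneg_right this h4
        _ = _ := by ring
    have h3 : (0:ℝ) ≤ (4:ℝ)^s := by positivity
    calc w i * ((X:ℝ) / (3*i+2))^s ≤ ((4:ℝ)^s + z^L * (z⁻¹ * (B * t^(N+L)))) * 1 := by linarith
      _ ≤ _ := mul_le_mul_of_nonneg_left hc (by positivity)
  induction L using ind2 with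
  | h0 => exact base 0 (by norm_num)
  | h1 => exact base 1 (by norm_num)
  | h2 L ih0 ih1 =>
    intro N i hNi hi
    have hc : (1:ℝ) ≤ (cnt X (L+2) i : ℝ) := by exact_mod_cast one_le_cnt hi
    have hX0 : (0:ℝ) ≤ X := by positivity
    have hi0 : (0:ℝ) ≤ i := by positivity
    by_cases hbig : 3*(4*i+2)+2 ≤ X
    · -- genuine step
      show w i * ((X:ℝ) / (3*i+2))^s ≤
        ((4:ℝ)^s + z^(L+2) * (z⁻¹ * (B * t^(N+(L+2))))) * (cnt X (L+2) i : ℝ)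
      have hQ0 : 0 ≤ z⁻¹ * (B * t^(N+(L+2))) := by positivity
      obtain ⟨Q, hQ⟩ : ∃ Q, Q = z⁻¹ * (B * t^(N+(L+2))) := ⟨_, rfl⟩
      rw [← hQ] at hQ0 ⊢
      set E : ℕ → ℝ := fun L' => (4:ℝ)^s + z^L' * Q with hE
      have hEpos : ∀ L, 0 ≤ E L := fun L => by positivity
      have hE2 : ∀ L, z^2 * E L ≤ E (L+2) := by
        intro L
        have : z^2 ≤ 1 := pow_le_one₀ hz.le hz1.le
        have h4 : (0:ℝ) ≤ (4:ℝ)^s := by positivity
        simp only [hE]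
        rw [mul_add, pow_add]
        have : z^2 * (4:ℝ)^s ≤ (4:ℝ)^s := by nlinarith
        nlinarith
      have hE1 : ∀ L, z * E L ≤ E (L+1) := by
        intro L
        have h4 : (0:ℝ) ≤ (4:ℝ)^s := by positivity
        simp only [hE]
        rw [mul_add, pow_add, pow_one]
        have : z * (4:ℝ)^s ≤ (4:ℝ)^s := by nlinarith
        nlinarith
      have hi2 : ∀ i', S (N+2) i' → 3*i'+2 ≤ X → w i' * ((X:ℝ) / (3*i'+2))^s ≤
          E L * (cnt X L i' : ℝ) := by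
        intro i' h1 h2
        have := ih0 (N+2) i' h1 h2
        rw [show N + 2 + L = N + (L+2) by ring, ← hQ] at this
        exact this
      have hi1 : ∀ i', S (N+1) i' → 3*i'+2 ≤ X → w i' * ((X:ℝ) / (3*i'+2))^s ≤
          E (L+1) * (cnt X (L+1) i' : ℝ) := by
        intro i' h1 h2
        have := ih1 (N+1) i' h1 h2
        rw [show N + 1 + (L+1) = N + (L+2) by ring, ← hQ] at this
        exact this
      have hA : (4:ℝ)^(-s) * w (4*i+2) * ((X:ℝ) / (3*i+2))^s ≤ E L * (cnt X L (4*i+2) : ℝ) := by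
        have e1 : (4:ℝ)^(-s) * w (4*i+2) * ((X:ℝ) / (3*i+2))^s
            = w (4*i+2) * ((X:ℝ) / (3*((4*i+2 : ℕ):ℝ)+2))^s := by
          have := div_rpow_A (s := s) (X := X) (m := 3*i+2) hX0 (by positivity)
          have e : (3*((4*i+2 : ℕ):ℝ)+2) = 4 * (3*(i:ℝ)+2) := by push_cast; ring
          rw [e, ← this]; ring
        rw [e1]
        exact hi2 (4*i+2) (hS.A _ _ hNi) hbig
      obtain ⟨j, hj⟩ : ∃ j, i = 3*j ∨ i = 3*j+1 ∨ i = 3*j+2 := ⟨i/3, by omega⟩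
      rcases hj with rfl | rfl | rfl
      · -- C
        have hcnt : (cnt X L (4 * (3 * j) + 2) : ℝ) + cnt X L (4 * j) ≤ cnt X (L + 2) (3 * j) := by
          exact_mod_cast cnt_AC X L j
        have hCle : 3*(4*j)+2 ≤ X := by omega
        have hC : (3/4:ℝ)^s * w (4*j) * ((X:ℝ) / (3*((3*j:ℕ):ℝ)+2))^s ≤ E L * (cnt X L (4*j) : ℝ) := by
          have hw : 0 ≤ w (4*j) := H.wmin_pos.le.trans (H.w_ge _)
          have e1 := rpow_B (s := s) (X := X) hs.le hX0 (m := 3*((3*j:ℕ):ℝ)+2)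
            (m' := 3*((4*j:ℕ):ℝ)+2) (by positivity) (by positivity) (r := 3/4) (by norm_num)
            (by push_cast; have : (0:ℝ) ≤ j := by positivity
                linarith)
          calc (3/4:ℝ)^s * w (4*j) * ((X:ℝ) / (3*((3*j:ℕ):ℝ)+2))^s
              = w (4*j) * ((3/4:ℝ)^s * ((X:ℝ) / (3*((3*j:ℕ):ℝ)+2))^s) := by ring
            _ ≤ w (4*j) * ((X:ℝ) / (3*((4*j:ℕ):ℝ)+2))^s := mul_le_mul_of_nonneg_left e1 hw
            _ ≤ _ := hi2 (4*j) (hS.C _ _ hNi) hCle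
        calc w (3*j) * ((X:ℝ) / (3*((3*j:ℕ):ℝ)+2))^s
            ≤ (z^2 * ((4:ℝ)^(-s) * w (4*(3*j)+2)) + z^2 * ((3/4:ℝ)^s * w (4*j))) *
              ((X:ℝ) / (3*((3*j:ℕ):ℝ)+2))^s :=
              mul_le_mul_of_nonneg_right (H.h0 j) (by positivity)
          _ = z^2 * ((4:ℝ)^(-s) * w (4*(3*j)+2) * ((X:ℝ) / (3*((3*j:ℕ):ℝ)+2))^s) +
              z^2 * ((3/4:ℝ)^s * w (4*j) * ((X:ℝ) / (3*((3*j:ℕ):ℝ)+2))^s) := by ring
          _ ≤ z^2 * (E L * (cnt X L (4 * (3 * j) + 2) : ℝ)) + z^2 * (E L * (cnt X L (4*j) : ℝ)) := by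
              gcongr
          _ = (z^2 * E L) * ((cnt X L (4 * (3 * j) + 2) : ℝ) + cnt X L (4 * j)) := by ring
          _ ≤ E (L+2) * ((cnt X L (4 * (3 * j) + 2) : ℝ) + cnt X L (4 * j)) :=
              mul_le_mul_of_nonneg_right (hE2 L) (by positivity)
          _ ≤ E (L+2) * (cnt X (L + 2) (3 * j) : ℝ) := mul_le_mul_of_nonneg_left hcnt (hEpos _)
      · -- A only
        have hcnt : (cnt X L (4 * (3 * j + 1) + 2) : ℝ) ≤ cnt X (L + 2) (3 * j + 1) := by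
          exact_mod_cast cnt_A X L (3*j+1)
        calc w (3*j+1) * ((X:ℝ) / (3*((3*j+1:ℕ):ℝ)+2))^s
            ≤ (z^2 * ((4:ℝ)^(-s) * w (4*(3*j+1)+2))) * ((X:ℝ) / (3*((3*j+1:ℕ):ℝ)+2))^s :=
              mul_le_mul_of_nonneg_right (H.h1 j) (by positivity)
          _ = z^2 * ((4:ℝ)^(-s) * w (4*(3*j+1)+2) * ((X:ℝ) / (3*((3*j+1:ℕ):ℝ)+2))^s) := by ring
          _ ≤ z^2 * (E L * (cnt X L (4 * (3 * j+1) + 2) : ℝ)) := by gcongr
          _ = (z^2 * E L) * (cnt X L (4 * (3 * j+1) + 2) : ℝ) := by ring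
          _ ≤ E (L+2) * (cnt X L (4 * (3 * j+1) + 2) : ℝ) :=
              mul_le_mul_of_nonneg_right (hE2 L) (by positivity)
          _ ≤ E (L+2) * (cnt X (L + 2) (3 * j+1) : ℝ) := mul_le_mul_of_nonneg_left hcnt (hEpos _)
      · -- B
        have hcnt : (cnt X L (4 * (3 * j + 2) + 2) : ℝ) + cnt X (L+1) (2 * j + 1)
            ≤ cnt X (L + 2) (3 * j + 2) := by
          exact_mod_cast cnt_AB X L j
        have hBle : 3*(2*j+1)+2 ≤ X := by omega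
        have hB : (3/2:ℝ)^s * w (2*j+1) * ((X:ℝ) / (3*((3*j+2:ℕ):ℝ)+2))^s
            ≤ E (L+1) * (cnt X (L+1) (2*j+1) : ℝ) := by
          have hw : 0 ≤ w (2*j+1) := H.wmin_pos.le.trans (H.w_ge _)
          have e1 := rpow_B (s := s) (X := X) hs.le hX0 (m := 3*((3*j+2:ℕ):ℝ)+2)
            (m' := 3*((2*j+1:ℕ):ℝ)+2) (by positivity) (by positivity) (r := 3/2) (by norm_num)
            (by push_cast; have : (0:ℝ) ≤ j := by positivity
                linarith)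
          calc (3/2:ℝ)^s * w (2*j+1) * ((X:ℝ) / (3*((3*j+2:ℕ):ℝ)+2))^s
              = w (2*j+1) * ((3/2:ℝ)^s * ((X:ℝ) / (3*((3*j+2:ℕ):ℝ)+2))^s) := by ring
            _ ≤ w (2*j+1) * ((X:ℝ) / (3*((2*j+1:ℕ):ℝ)+2))^s := mul_le_mul_of_nonneg_left e1 hw
            _ ≤ _ := hi1 (2*j+1) (hS.B _ _ hNi) hBle
        calc w (3*j+2) * ((X:ℝ) / (3*((3*j+2:ℕ):ℝ)+2))^s
            ≤ (z^2 * ((4:ℝ)^(-s) * w (4*(3*j+2)+2)) + z * ((3/2:ℝ)^s * w (2*j+1))) *
              ((X:ℝ) / (3*((3*j+2:ℕ):ℝ)+2))^s :=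
              mul_le_mul_of_nonneg_right (H.h2 j) (by positivity)
          _ = z^2 * ((4:ℝ)^(-s) * w (4*(3*j+2)+2) * ((X:ℝ) / (3*((3*j+2:ℕ):ℝ)+2))^s) +
              z * ((3/2:ℝ)^s * w (2*j+1) * ((X:ℝ) / (3*((3*j+2:ℕ):ℝ)+2))^s) := by ring
          _ ≤ z^2 * (E L * (cnt X L (4 * (3 * j+2) + 2) : ℝ)) +
              z * (E (L+1) * (cnt X (L+1) (2*j+1) : ℝ)) := by
              gcongr
          _ = (z^2 * E L) * (cnt X L (4 * (3 * j+2) + 2) : ℝ)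
                + (z * E (L+1)) * (cnt X (L+1) (2*j+1) : ℝ) := by ring
          _ ≤ E (L+2) * (cnt X L (4 * (3 * j+2) + 2) : ℝ)
                + E (L+2) * (cnt X (L+1) (2*j+1) : ℝ) := by
              apply add_le_add
              · exact mul_le_mul_of_nonneg_right (hE2 L) (by positivity)
              · exact mul_le_mul_of_nonneg_right (hE1 (L+1)) (by positivity)
          _ = E (L+2) * ((cnt X L (4 * (3 * j+2) + 2) : ℝ) + (cnt X (L+1) (2*j+1) : ℝ)) := by ring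
          _ ≤ E (L+2) * (cnt X (L + 2) (3 * j+2) : ℝ) := mul_le_mul_of_nonneg_left hcnt (hEpos _)
    · -- stop
      have h1 : w i * ((X:ℝ) / (3*i+2))^s ≤ (4:ℝ)^s := by
        have : ((X:ℝ) / (3*i+2))^s ≤ (4:ℝ)^s := by
          apply Real.rpow_le_rpow (by positivity) _ hs.le
          rw [div_le_iff₀ (by positivity)]
          have : X ≤ 4 * (3*i+2) := by omega
          exact_mod_cast this
        calc w i * ((X:ℝ) / (3*i+2))^s ≤ 1 * ((X:ℝ) / (3*i+2))^s :=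
              mul_le_mul_of_nonneg_right (H.w_le i) (by positivity)
          _ ≤ (4:ℝ)^s := by rw [one_mul]; exact this
      have h3 : (0:ℝ) ≤ z^(L+2) * (z⁻¹ * (B * t^(N+(L+2)))) := by positivity
      have h4 : (0:ℝ) ≤ (4:ℝ)^s := by positivity
      calc w i * ((X:ℝ) / (3*i+2))^s ≤
            ((4:ℝ)^s + z^(L+2) * (z⁻¹ * (B * t^(N+(L+2))))) * 1 := by linarith
        _ ≤ _ := mul_le_mul_of_nonneg_left hc (by positivity)

end H62
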