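import Pool.Agent.Lib.H62u.Win

set_option autoImplicit false

namespace H62

open Finset

lemma exists_pow3 {x : ℝ} (hx : 1 ≤ x) : ∃ E : ℕ, x ≤ 3^E ∧ (3:ℝ)^E ≤ 3*x := by
  obtain ⟨n, h1, h2⟩ := exists_nat_pow_near hx (show (1:ℝ) < 3 by norm_num)
  refine ⟨n+1, h2.le, ?_⟩
  rw [pow_succ]; linarith

lemma poly_geom {r : ℝ} (hr : 1 < r) (d : ℕ) : ∃ C : ℝ, 1 ≤ C ∧ ∀ K : ℕ, ((K:ℝ)+1)^d ≤ C * r^K := by
  have h := (tendsto_pow_const_div_const_pow_of_one_lt d hr).bddAbove_range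
  obtain ⟨B, hB⟩ := h
  refine ⟨max 1 (B * r), le_max_left _ _, fun K => ?_⟩
  have h1 : (((K+1:ℕ):ℝ))^d / r^(K+1) ≤ B := hB ⟨K+1, rfl⟩
  have hr0 : 0 < r := by linarith
  rw [div_le_iff₀ (by positivity)] at h1
  push_cast at h1
  calc ((K:ℝ)+1)^d ≤ B * r^(K+1) := h1
    _ = (B * r) * r^K := by ring
    _ ≤ _ := mul_le_mul_of_nonneg_right (le_max_right _ _) (by positivity)

lemma exists_v {v0 g1 : ℝ} (h0 : 0 < v0) (h1 : v0 < 1) (hg : 1 < g1) (b : ℕ) (hb : 0 < b) :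
    ∃ v, v0 ≤ v ∧ v < 1 ∧ (v⁻¹)^b ≤ g1 := by
  have hg0 : 0 < g1 := by linarith
  have hb' : (0:ℝ) < b := by exact_mod_cast hb
  set u : ℝ := (g1⁻¹)^((1:ℝ)/b) with hu
  have hu0 : 0 < u := by positivity
  have hu1 : u < 1 := Real.rpow_lt_one (by positivity) (inv_lt_one_of_one_lt₀ hg) (by positivity)
  have hub : u^b = g1⁻¹ := by
    rw [hu, ← Real.rpow_natCast, ← Real.rpow_mul (by positivity), one_div_mul_cancel hb'.ne',
      Real.rpow_one]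
  refine ⟨max v0 u, le_max_left _ _, max_lt h1 hu1, ?_⟩
  have hm0 : 0 < max v0 u := lt_of_lt_of_le h0 (le_max_left _ _)
  rw [inv_pow, inv_le_comm₀ (by positivity) hg0, ← hub]
  exact pow_le_pow_left₀ hu0.le (le_max_right _ _) b

/-- choosing a large class of nodes in a short window -/
lemma stageA {δ : ℝ} (Hd : UGood δ) {g v0 : ℝ} (hg : 1 < g) (hv00 : 0 < v0) (hv01 : v0 < 1)
    (n : ℕ) :
    ∃ v, v0 ≤ v ∧ v < 1 ∧ ∃ c4 C1 : ℝ, 0 < c4 ∧ 1 ≤ C1 ∧ ∃ b : ℕ, ∀ i, QMin v (3*i+2) →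
      ∀ K0 : ℕ, ∃ (N : ℕ) (A : Finset ℕ) (E : ℕ), N ≤ b * (K0+1) ∧
        (∀ i' ∈ A, T^[N] (3*i'+2) = 3*i+2 ∧ 3*i'+2 ≤ 3^K0 * (3*i+2)) ∧
        (∀ i' ∈ A, ∀ i'' ∈ A, i' % (3^(n+1) * 3^(K0+E)) = i'' % (3^(n+1) * 3^(K0+E)) → i' = i'') ∧
        (3:ℝ)^E ≤ C1 * g^K0 ∧ c4 * ((3:ℝ)^δ / g)^K0 ≤ (A.card : ℝ) := by
  obtain ⟨vd, cd, Dd, hvd0, hvd1, hcd, hDd, H⟩ := Hd
  have hg0 : 0 < g := by linarith
  have hl3 : 0 < Real.log 3 := Real.log_pos (by norm_num)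
  obtain ⟨b, hb⟩ : ∃ b : ℕ, Dd * (1 + Real.log 3) + 2 ≤ b := exists_nat_ge _
  have hb0 : 0 < b := by
    have h1 : 0 < Dd * (1 + Real.log 3) := by positivity
    have : (0:ℝ) < b := by linarith
    exact_mod_cast this
  -- bound for the budget
  have hL0 : ∀ K0 : ℕ, ((⌈Dd * (1 + K0 * Real.log 3)⌉₊ : ℝ)) + 1 ≤ b * (K0 + 1) := by
    intro K0
    have h1 : (⌈Dd * (1 + K0 * Real.log 3)⌉₊ : ℝ) < Dd * (1 + K0 * Real.log 3) + 1 :=
      Nat.ceil_lt_add_one (by positivity)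
    have hK : (0:ℝ) ≤ K0 := by positivity
    have h2 : (Dd * (1 + Real.log 3) + 2) * (K0+1) ≤ b * (K0+1) :=
      mul_le_mul_of_nonneg_right hb (by positivity)
    have h3 : 0 ≤ Dd * K0 := by positivity
    have h4 : 0 ≤ Dd * Real.log 3 := by positivity
    nlinarith
  set g1 := Real.sqrt g with hg1
  have hg11 : 1 < g1 := by rw [hg1]; exact Real.lt_sqrt_of_sq_lt (by simpa using hg)
  have hg1sq : g1 * g1 = g := Real.mul_self_sqrt hg0.le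
  have hg10 : 0 < g1 := by linarith
  obtain ⟨v, hv0, hv1, hvb⟩ := exists_v (v0 := max v0 vd) (lt_of_lt_of_le hv00 (le_max_left _ _))
    (max_lt hv01 hvd1) hg11 b hb0
  have hvv0 : v0 ≤ v := (le_max_left _ _).trans hv0
  have hvvd : vd ≤ v := (le_max_right _ _).trans hv0
  have hvpos : 0 < v := lt_of_lt_of_le hv00 hvv0
  obtain ⟨P1, hP1, hP1'⟩ := poly_geom hg11 1
  obtain ⟨P2, hP2, hP2'⟩ := poly_geom hg 2
  have hb1 : (1:ℝ) ≤ b := by exact_mod_cast hb0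
  refine ⟨v, hvv0, hv1, cd / (b^2 * P2), 3 * (4/3 * b * g1 * P1), by positivity, ?_, b, ?_⟩
  · have h1 : 1 ≤ b * g1 := one_le_mul_of_one_le_of_one_le hb1 hg11.le
    have h2 : 1 ≤ b * g1 * P1 := one_le_mul_of_one_le_of_one_le h1 hP1
    linarith
  intro i hq K0
  set L0 := ⌈Dd * (1 + K0 * Real.log 3)⌉₊ with hL0d
  have hL0K := hL0 K0
  rw [← hL0d] at hL0K
  have hm0 : (0:ℝ) < 3*(i:ℝ)+2 := by positivity
  have hle : 3*i+2 ≤ 3^K0 * (3*i+2) := Nat.le_mul_of_pos_left _ (by positivity)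
  have hratio : (((3^K0 * (3*i+2) : ℕ):ℝ))/(3*i+2) = (3:ℝ)^K0 := by
    push_cast; field_simp
  have hcnt := H i (3^K0 * (3*i+2)) L0 hle (hq.mono hvd0.le hvvd) (by
    rw [hratio, Real.log_pow]; exact Nat.le_ceil _)
  rw [hratio] at hcnt
  obtain ⟨N, A, hN, hA, hoc, hcard⟩ := big_class (X := 3^K0 * (3*i+2)) (L := L0) (i := i)
  have hNb : (N:ℝ) + 1 ≤ b * (K0+1) := by
    have : (N:ℝ) ≤ L0 := by exact_mod_cast hN
    linarith
  have hNb' : N + 1 ≤ b * (K0+1) := by exact_mod_cast hNb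
  -- window exponent
  have hvinv : 1 ≤ v⁻¹ := (one_le_inv₀ hvpos).mpr hv1.le
  have hwin : 4/3 * (N:ℝ) * (v⁻¹)^(N+1) ≤ 4/3 * b * g1 * P1 * g^K0 := by
    have h1 : (v⁻¹)^(N+1) ≤ g1^(K0+1) := by
      calc (v⁻¹)^(N+1) ≤ (v⁻¹)^(b*(K0+1)) := pow_le_pow_right₀ hvinv hNb'
        _ = ((v⁻¹)^b)^(K0+1) := pow_mul _ _ _
        _ ≤ _ := pow_le_pow_left₀ (by positivity) hvb _
    have h2 := hP1' K0
    rw [pow_one] at h2
    calc 4/3 * (N:ℝ) * (v⁻¹)^(N+1) ≤ 4/3 * (b * (K0+1)) * g1^(K0+1) := by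
          apply mul_le_mul _ h1 (by positivity) (by positivity)
          linarith
      _ = 4/3 * b * g1 * ((K0+1) * g1^K0) := by rw [pow_succ]; ring
      _ ≤ 4/3 * b * g1 * ((P1 * g1^K0) * g1^K0) := by gcongr
      _ = 4/3 * b * g1 * P1 * g^K0 := by rw [← hg1sq, mul_pow]; ring
  have hx1 : 1 ≤ 4/3 * b * g1 * P1 * g^K0 := by
    have h1 : 1 ≤ b * g1 := one_le_mul_of_one_le_of_one_le hb1 hg11.le
    have h2 : 1 ≤ b * g1 * P1 := one_le_mul_of_one_le_of_one_le h1 hP1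
    have h3 : 1 ≤ b * g1 * P1 * g^K0 := one_le_mul_of_one_le_of_one_le h2 (one_le_pow₀ hg.le)
    linarith
  obtain ⟨E, hE1, hE2⟩ := exists_pow3 hx1
  refine ⟨N, A, E, by omega, hA, ?_, ?_, ?_⟩
  · apply inj_of_window
    intro i' hi' i'' hi''
    obtain ⟨hT', hle'⟩ := hA i' hi'
    obtain ⟨hT'', hle''⟩ := hA i'' hi''
    have e : (((3^K0 * (3*i+2) : ℕ)):ℝ) = ((3*i+2 : ℕ):ℝ) * (3:ℝ)^K0 := by push_cast; ring
    have hw := window hvpos hv1 (m := 3*i+2) (by omega) hq hT' (by omega) hT'' (by omega)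
      (hoc i' hi' i'' hi'') (R := (3:ℝ)^K0) (by rw [← e]; exact_mod_cast hle')
      (by rw [← e]; exact_mod_cast hle'')
    calc _ ≤ _ := hw
      _ ≤ (4/3 * b * g1 * P1 * g^K0) * (3:ℝ)^K0 := mul_le_mul_of_nonneg_right hwin (by positivity)
      _ ≤ (3:ℝ)^E * (3:ℝ)^K0 := mul_le_mul_of_nonneg_right hE1 (by positivity)
      _ = _ := by rw [← pow_add, add_comm]
  · calc (3:ℝ)^E ≤ _ := hE2
      _ = _ := by ring
  · refine le_trans ?_ hcard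
    have h1 : ((L0:ℝ)+1)^2 ≤ b^2 * P2 * g^K0 := by
      calc ((L0:ℝ)+1)^2 ≤ (b * (K0+1))^2 := pow_le_pow_left₀ (by positivity) hL0K 2
        _ = b^2 * ((K0:ℝ)+1)^2 := by ring
        _ ≤ b^2 * (P2 * g^K0) := mul_le_mul_of_nonneg_left (hP2' K0) (by positivity)
        _ = _ := by ring
    rw [le_div_iff₀ (by positivity)]
    refine le_trans ?_ hcnt
    have e3K : (((3:ℝ)^K0))^δ = ((3:ℝ)^δ)^K0 := by
      rw [← Real.rpow_natCast 3 K0, ← Real.rpow_natCast ((3:ℝ)^δ) K0,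
        ← Real.rpow_mul (by norm_num), ← Real.rpow_mul (by norm_num), mul_comm]
    rw [e3K]
    calc cd / (b^2 * P2) * ((3:ℝ)^δ / g)^K0 * ((L0:ℝ)+1)^2
        ≤ cd / (b^2 * P2) * ((3:ℝ)^δ / g)^K0 * (b^2 * P2 * g^K0) :=
          mul_le_mul_of_nonneg_left h1 (by positivity)
      _ = cd * ((3:ℝ)^δ)^K0 := by rw [div_pow]; field_simp

end H62
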