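import Pool.Agent.Lib.H62u.D0

set_option autoImplicit false

namespace H62

open Finset

lemma exists_qmin {v : ℝ} (hv0 : 0 < v) (hv1 : v < 1) {m : ℕ} (hm : m % 3 = 2) :
    ∃ n0 N0 : ℕ, T^[N0] n0 = m ∧ n0 % 3 = 2 ∧ QMin v n0 ∧ (n0:ℝ) ≤ m * v^N0 := by
  have hm0 : (0:ℝ) < m := by
    have : 0 < m := by omega
    exact_mod_cast this
  obtain ⟨B, hB⟩ : ∃ B : ℕ, v^B < 1/m := exists_pow_lt_of_lt_one (by positivity) hv1
  set P : Set (ℕ × ℕ) := {p | T^[p.2] p.1 = m ∧ p.1 % 3 = 2 ∧ (p.1:ℝ) ≤ m * v^p.2} with hP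
  have hfin : P.Finite := by
    apply Set.Finite.subset ((Set.finite_Iic m).prod (Set.finite_Iic B))
    rintro ⟨n, N⟩ ⟨h1, h2, h3⟩
    simp only at h1 h2 h3
    have hn1 : 1 ≤ n := by omega
    have hn1' : (1:ℝ) ≤ n := by exact_mod_cast hn1
    constructor
    · show n ≤ m
      have : (n:ℝ) ≤ m := h3.trans (by
        have : v^N ≤ 1 := pow_le_one₀ hv0.le hv1.le
        calc (m:ℝ) * v^N ≤ m * 1 := mul_le_mul_of_nonneg_left this hm0.le
          _ = m := mul_one _)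
      exact_mod_cast this
    · show N ≤ B
      by_contra hcon
      push Not at hcon
      have h4 : v^N ≤ v^B := pow_le_pow_of_le_one hv0.le hv1.le hcon.le
      have h5 : (m:ℝ) * v^N < 1 := by
        calc (m:ℝ) * v^N ≤ m * v^B := mul_le_mul_of_nonneg_left h4 hm0.le
          _ < m * (1/m) := mul_lt_mul_of_pos_left hB hm0
          _ = 1 := by field_simp
      linarith
  have hne : P.Nonempty := ⟨(m, 0), rfl, hm, by simp⟩
  obtain ⟨⟨n0, N0⟩, hmem, hmin⟩ := Set.exists_min_image P (fun p => (p.1:ℝ) * (v⁻¹)^p.2) hfin hne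
  obtain ⟨h1, h2, h3⟩ := hmem
  simp only at h1 h2 h3
  refine ⟨n0, N0, h1, h2, ?_, h3⟩
  intro N' n' hN' hn'
  by_contra hcon
  push Not at hcon
  have hmem' : (n', N0 + N') ∈ P := by
    refine ⟨?_, hn', ?_⟩
    · show T^[N0 + N'] n' = m
      rw [Function.iterate_add_apply, hN', h1]
    · show (n':ℝ) ≤ m * v^(N0+N')
      calc (n':ℝ) ≤ n0 * v^N' := hcon.le
        _ ≤ (m * v^N0) * v^N' := mul_le_mul_of_nonneg_right h3 (by positivity)
        _ = _ := by rw [pow_add]; ring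
  have := hmin _ hmem'
  simp only at this
  have h4 : (n':ℝ) * (v⁻¹)^(N0+N') < (n0:ℝ) * (v⁻¹)^N0 := by
    calc (n':ℝ) * (v⁻¹)^(N0+N') < (n0 * v^N') * (v⁻¹)^(N0+N') :=
          mul_lt_mul_of_pos_right hcon (by positivity)
      _ = _ := by rw [pow_add, inv_pow, inv_pow]; field_simp
  linarith

lemma cnt_shift {X L i i0 N0 : ℕ} (h : T^[N0] (3*i0+2) = 3*i+2) :
    cnt X L i0 ≤ cnt X (L+N0) i := by
  unfold cnt
  rw [← card_shift _ N0]
  apply Finset.card_le_card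
  intro p hp
  rw [Finset.mem_image] at hp
  obtain ⟨q, hq, rfl⟩ := hp
  rw [mem_pairs] at hq ⊢
  refine ⟨hq.1, ?_, hq.2.2.1, ?_⟩
  · have := hq.2.1; simp; exact this
  · rw [add_comm, Function.iterate_add_apply, hq.2.2.2, h]

/-- lower bound for every node of the tree of a quasi-minimal root -/
lemma rel_lower {s : ℝ} (hs : 0 < s) (H : UGood s) : ∃ v0 c D : ℝ, 0 < v0 ∧ v0 < 1 ∧ 0 < c ∧ 0 < D ∧
    ∀ v, v0 ≤ v → v < 1 → ∀ i, QMin v (3*i+2) → ∀ X N i' L : ℕ, T^[N] (3*i'+2) = 3*i+2 →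
      3*i+2 ≤ X → 3*i'+2 ≤ X → D * (1 + Real.log ((X:ℝ)/(3*i+2)) + N) ≤ L →
      c * ((X:ℝ)/(3*i'+2))^s ≤ (cnt X L i' : ℝ) := by
  obtain ⟨vs, c, Ds, hvs0, hvs1, hc, hDs, H⟩ := H
  set es := Real.log vs⁻¹ with hes
  have hes0 : 0 < es := Real.log_pos (by rw [one_lt_inv₀ hvs0]; exact hvs1)
  have hsq0 : 0 < Real.sqrt vs := Real.sqrt_pos.mpr hvs0
  have hsq1 : Real.sqrt vs < 1 := by
    rw [Real.sqrt_lt' one_pos]; simpa using hvs1
  refine ⟨Real.sqrt vs, c, (2/es+1) + Ds*(3+2*es) + Ds, hsq0, hsq1, hc, by positivity, ?_⟩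
  intro v hv hv1 i hq X N i' L hT hiX hi'X hL
  have hv0 : 0 < v := lt_of_lt_of_le hsq0 hv
  set e := Real.log v⁻¹ with he
  have he0 : 0 < e := Real.log_pos (by rw [one_lt_inv₀ hv0]; exact hv1)
  have hee : e ≤ es/2 := by
    have : Real.log v ≥ Real.log (Real.sqrt vs) := Real.log_le_log hsq0 hv
    rw [Real.log_sqrt hvs0.le] at this
    rw [he, hes, Real.log_inv, Real.log_inv]; linarith
  obtain ⟨n0, N0, h1, h2, h3, h4⟩ := exists_qmin hvs0 hvs1 (m := 3*i'+2) (by omega)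
  obtain ⟨i0, hi0⟩ : ∃ i0, n0 = 3*i0+2 := ⟨n0/3, by omega⟩
  subst hi0
  have hm0 : (0:ℝ) < 3*(i:ℝ)+2 := by positivity
  have hy0 : (0:ℝ) < 3*(i':ℝ)+2 := by positivity
  have hn0 : (0:ℝ) < 3*(i0:ℝ)+2 := by positivity
  have hX0 : (0:ℝ) < X := by
    have : 0 < X := by omega
    exact_mod_cast this
  push_cast at h4
  have h5 : (3*(i:ℝ)+2) * v^(N+N0) ≤ 3*i0+2 := by
    have := hq (N+N0) (3*i0+2) (by rw [Function.iterate_add_apply, h1, hT]) (by omega)
    push_cast at this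
    exact this
  set lR := Real.log ((X:ℝ)/(3*i+2)) with hlR
  have hiX' : 3*(i:ℝ)+2 ≤ X := by exact_mod_cast hiX
  have hi'X' : 3*(i':ℝ)+2 ≤ X := by exact_mod_cast hi'X
  have hlR0 : 0 ≤ lR := Real.log_nonneg (by rw [one_le_div hm0]; exact hiX')
  have hlR' : lR = Real.log X - Real.log (3*i+2) := Real.log_div hX0.ne' hm0.ne'
  have hNr : (0:ℝ) ≤ N := by positivity
  have hN0r : (0:ℝ) ≤ N0 := by positivity
  -- bound on N0
  have h6 : Real.log (3*(i:ℝ)+2) - (N+N0)*e ≤ Real.log (3*(i0:ℝ)+2) := by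
    have := Real.log_le_log (by positivity) h5
    rw [Real.log_mul hm0.ne' (by positivity), Real.log_pow] at this
    have e1 : Real.log v = -e := by rw [he, Real.log_inv]; ring
    rw [e1] at this
    push_cast at this
    linarith
  have h7 : Real.log (3*(i0:ℝ)+2) ≤ Real.log X - N0*es := by
    have h8 : 3*(i0:ℝ)+2 ≤ X * vs^N0 := h4.trans (mul_le_mul_of_nonneg_right hi'X' (by positivity))
    have := Real.log_le_log hn0 h8
    rw [Real.log_mul hX0.ne' (by positivity), Real.log_pow] at this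
    have e1 : Real.log vs = -es := by rw [hes, Real.log_inv]; ring
    rw [e1] at this
    linarith
  have hN0le : (N0:ℝ) ≤ 2/es * lR + N := by
    have h8 : N0 * es ≤ lR + (N+N0)*e := by rw [hlR']; linarith
    have h9 : (N+N0)*e ≤ (N+N0)*(es/2) := mul_le_mul_of_nonneg_left hee (by positivity)
    have h10 : N0 * (es/2) ≤ lR + N*(es/2) := by
      have : N0 * es ≤ lR + (N+N0)*(es/2) := h8.trans (by linarith)
      linarith [this]
    have h11 : (N0:ℝ) * (es/2) ≤ (2/es * lR + N) * (es/2) := by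
      have : (2/es * lR + N) * (es/2) = lR + N*(es/2) := by field_simp
      rw [this]; exact h10
    exact le_of_mul_le_mul_right h11 (by positivity)
  -- bound on log (X/n0)
  have h12 : Real.log ((X:ℝ)/(3*i0+2)) ≤ lR + (N+N0)*es := by
    rw [Real.log_div hX0.ne' hn0.ne']
    have : (N+N0:ℝ)*e ≤ (N+N0)*es := mul_le_mul_of_nonneg_left (by linarith) (by positivity)
    rw [hlR']; linarith
  have hn0y : 3*(i0:ℝ)+2 ≤ 3*i'+2 := by
    refine h4.trans ?_
    have : vs^N0 ≤ 1 := pow_le_one₀ hvs0.le hvs1.le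
    calc (3*(i':ℝ)+2) * vs^N0 ≤ (3*i'+2) * 1 := mul_le_mul_of_nonneg_left this hy0.le
      _ = _ := mul_one _
  have hn0X : 3*i0+2 ≤ X := by
    have : 3*(i0:ℝ)+2 ≤ X := hn0y.trans hi'X'
    exact_mod_cast this
  -- budget
  have hbud : (N0:ℝ) + Ds * (1 + (lR + (N+N0)*es)) ≤ L := by
    refine le_trans ?_ hL
    have h13 : (N0:ℝ) * es ≤ 2 * lR + N * es := by
      calc (N0:ℝ) * es ≤ (2/es * lR + N) * es := mul_le_mul_of_nonneg_right hN0le hes0.le
        _ = _ := by field_simp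
    have h14 : Ds * (1 + (lR + (N+N0)*es)) ≤ Ds * (1 + 3*lR + 2*es*N) := by
      apply mul_le_mul_of_nonneg_left _ hDs.le
      linarith
    have h15 : 0 ≤ 2/es := by positivity
    have h16 : 0 ≤ 2/es * N := by positivity
    have h17 : 0 ≤ Ds * es := by positivity
    have h18 : 0 ≤ Ds * es * lR := by positivity
    have h19 : 0 ≤ Ds * N := by positivity
    have h20 : 0 ≤ Ds * lR := by positivity
    calc (N0:ℝ) + Ds * (1 + (lR + (N+N0)*es)) ≤ (2/es * lR + N) + Ds * (1 + 3*lR + 2*es*N) := by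
          linarith
      _ ≤ _ := by nlinarith
  have hN0L : N0 ≤ L := by
    have h21 : 0 ≤ Ds * (1 + (lR + (N+N0)*es)) := by positivity
    have : (N0:ℝ) ≤ L := by linarith
    exact_mod_cast this
  have h22 := H i0 X (L - N0) hn0X h3 (by
    rw [Nat.cast_sub hN0L]
    have : Ds * (1 + Real.log ((X:ℝ)/(3*i0+2))) ≤ Ds * (1 + (lR + (N+N0)*es)) :=
      mul_le_mul_of_nonneg_left (by linarith) hDs.le
    linarith)
  have h23 : cnt X (L - N0) i0 ≤ cnt X L i' := by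
    have := cnt_shift (X := X) (L := L - N0) h1
    rwa [Nat.sub_add_cancel hN0L] at this
  have h24 : ((X:ℝ)/(3*i'+2))^s ≤ ((X:ℝ)/(3*i0+2))^s := by
    apply Real.rpow_le_rpow (by positivity) _ hs.le
    exact div_le_div_of_nonneg_left hX0.le hn0 hn0y
  calc c * ((X:ℝ)/(3*i'+2))^s ≤ c * ((X:ℝ)/(3*i0+2))^s := mul_le_mul_of_nonneg_left h24 hc.le
    _ ≤ _ := h22
    _ ≤ _ := by exact_mod_cast h23

end H62
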