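import Mathlib.Analysis.Complex.ExponentialBounds
import Pool.Agent.Lib.H62u.CoreR
import Pool.Agent.Lib.H62u.StA
import Pool.Agent.Lib.H62u.Brk
import Pool.Agent.Lib.H62u.UBase

set_option autoImplicit false

namespace H62

open Finset

theorem uimprove {n lam : ℕ} (hlam : 0 < lam) {s s' th rho kap : ℝ} {h G : ℕ → ℝ}
    {hmin Gmax : ℝ} (hs0 : 0 < s) (HH : HSub n lam s kap h hmin)
    (HR : RSup s' rho G Gmax) (hs : s = s' + th) (hth : 0 ≤ th) (hk1 : 1 ≤ kap) (hkr : kap ≤ rho)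
    (hr3 : rho ≤ 3) (Hs : UGood s)
    {p q : ℕ} (hp : 0 < p) (hpq : p < q) {δ : ℝ} (Hd : UGood δ)
    (hstar : rho * (3:ℝ)^(-(((q:ℝ)-p)/p * th)) < kap * (3:ℝ)^(-((1-δ)/lam)))
    {δ' : ℝ} (hδ' : δ' < s + (p:ℝ)/q * (δ - s - (1-δ)/lam + Real.logb 3 kap)) : UGood δ' := by
  have hk := HH.kap_pos
  have hr := HR.rho_pos
  have hhm := HH.hmin_pos
  have hp' : (0:ℝ) < p := by exact_mod_cast hp
  have hq' : (0:ℝ) < q := by exact_mod_cast (hp.trans hpq)
  have hl3 : 0 < Real.log 3 := Real.log_pos (by norm_num)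
  have hGm : 0 ≤ Gmax := zero_le_one.trans ((HR.G_ge 0).trans (HR.G_le 0))
  obtain ⟨tau, htau⟩ : ∃ tau : ℝ, tau = ((q:ℝ)-p)/p := ⟨_, rfl⟩
  obtain ⟨mu, hmu⟩ : ∃ mu : ℝ, mu = kap * (3:ℝ)^(-((1-δ)/lam)) := ⟨_, rfl⟩
  obtain ⟨nu, hnu⟩ : ∃ nu : ℝ, nu = rho * (3:ℝ)^(-(tau * th)) := ⟨_, rfl⟩
  obtain ⟨pq, hpqd⟩ : ∃ pq : ℝ, pq = (p:ℝ)/q := ⟨_, rfl⟩
  rw [← htau, ← hmu, ← hnu] at hstar
  rw [← hpqd] at hδ'
  have hmu0 : 0 < mu := by rw [hmu]; positivity
  have hnu0 : 0 < nu := by rw [hnu]; positivity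
  have hpq0 : 0 < pq := by rw [hpqd]; positivity
  have hpq1 : pq ≤ 1 := by
    rw [hpqd, div_le_one hq']; exact_mod_cast hpq.le
  -- choice of g = 3 ^ e
  obtain ⟨e, he0, he1, he2, he3⟩ : ∃ e : ℝ, 0 < e ∧ e ≤ 1 ∧ nu * ((3:ℝ)^e)^3 < mu ∧
      δ' ≤ s + pq * (δ - s - (1-δ)/lam + Real.logb 3 kap - 3*e) := by
    set gap := (s + pq * (δ - s - (1-δ)/lam + Real.logb 3 kap) - δ')/3 with hgap
    have hgap0 : 0 < gap := by rw [hgap]; linarith
    set e0 := Real.logb 3 (mu/nu) / 6 with he0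
    have hmn : 1 < mu/nu := by rw [one_lt_div hnu0]; exact hstar
    have he00 : 0 < e0 := by
      rw [he0]
      have : 0 < Real.logb 3 (mu/nu) := Real.logb_pos (by norm_num) hmn
      linarith
    refine ⟨min 1 (min gap e0), lt_min one_pos (lt_min hgap0 he00), min_le_left _ _, ?_, ?_⟩
    · have h1 : min 1 (min gap e0) ≤ e0 := (min_le_right _ _).trans (min_le_right _ _)
      have h2 : ((3:ℝ)^(min 1 (min gap e0)))^3 ≤ (3:ℝ)^(3*e0) := by
        rw [← Real.rpow_natCast, ← Real.rpow_mul (by norm_num)]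
        apply Real.rpow_le_rpow_of_exponent_le (by norm_num)
        push_cast; linarith
      have h3 : (3:ℝ)^(3*e0) < mu/nu := by
        have h4 : mu/nu = (3:ℝ)^(Real.logb 3 (mu/nu)) := by
          rw [Real.rpow_logb (by norm_num) (by norm_num) (by positivity)]
        rw [h4]
        apply Real.rpow_lt_rpow_of_exponent_lt (by norm_num)
        rw [he0] at he00 ⊢; linarith
      calc nu * ((3:ℝ)^(min 1 (min gap e0)))^3 ≤ nu * (3:ℝ)^(3*e0) :=
            mul_le_mul_of_nonneg_left h2 hnu0.le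
        _ < nu * (mu/nu) := mul_lt_mul_of_pos_left h3 hnu0
        _ = mu := by field_simp
    · have h1 : min 1 (min gap e0) ≤ gap := (min_le_right _ _).trans (min_le_left _ _)
      have h5 : 0 ≤ min 1 (min gap e0) := le_min zero_le_one (le_min hgap0.le he00.le)
      have h2 : pq * (3 * min 1 (min gap e0)) ≤ 3 * gap := by
        calc pq * (3 * min 1 (min gap e0)) ≤ 1 * (3 * min 1 (min gap e0)) :=
              mul_le_mul_of_nonneg_right hpq1 (by positivity)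
          _ ≤ _ := by linarith
      have h3 : 3 * gap = s + pq * (δ - s - (1-δ)/lam + Real.logb 3 kap) - δ' := by
        rw [hgap]; ring
      have h4 : pq * (δ - s - (1-δ)/lam + Real.logb 3 kap - 3 * min 1 (min gap e0)) =
          pq * (δ - s - (1-δ)/lam + Real.logb 3 kap) - pq * (3 * min 1 (min gap e0)) := by ring
      rw [h4]
      linarith
  set g : ℝ := (3:ℝ)^e with hgd
  have hg1 : 1 < g := Real.one_lt_rpow (by norm_num) he0
  have hg0 : 0 < g := by linarith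
  have hg3 : g ≤ 3 := by
    calc g ≤ (3:ℝ)^(1:ℝ) := Real.rpow_le_rpow_of_exponent_le (by norm_num) he1
      _ = 3 := Real.rpow_one _
  obtain ⟨v0, cs, Ds, hv00, hv01, hcs, hDs, Hrel⟩ := rel_lower hs0 Hs
  obtain ⟨v, hv0v, hv1, c4, C1, hc4, hC1, b, HA⟩ := stageA Hd hg1 hv00 hv01 n
  obtain ⟨c2, c3, hc2, Hbr⟩ := bracket (n := n) hlam (δ := δ) (tau := tau) (N := 0) hg1 hk1 hkr hr3
    hth hc4 hC1 hhm hGm
  rw [← hmu, ← hnu] at Hbr
  have hvpos : 0 < v := lt_of_lt_of_le hv00 hv0v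
  obtain ⟨K1, hK1⟩ := eventually_half (mu := mu/g^2) (nu := nu*g) (c2 := c2) (c3 := c3)
    (by positivity) (by positivity) (by
      rw [lt_div_iff₀ (by positivity)]
      calc nu * g * g^2 = nu * g^3 := by ring
        _ < mu := he2) hc2
  obtain ⟨M, hM⟩ : ∃ M : ℕ, C1 ≤ 3^M := by
    obtain ⟨M, hM, _⟩ := exists_pow3 hC1
    exact ⟨M, hM⟩
  set σ := δ - s - (1-δ)/lam + Real.logb 3 kap - 3*e with hσ
  set cfin : ℝ := min (cs * c4 * (c2/2) * (3:ℝ)^(-(2*|σ|)))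
    ((3:ℝ)^((q*(K1+1)+1) * |δ'|))⁻¹ with hcfin
  have hcfin0 : 0 < cfin := lt_min (by positivity) (by positivity)
  refine ⟨v, cfin, (2*M+4) + b + (Ds*(1+b+(2*M+4))+1), hvpos, hv1, hcfin0, by positivity, ?_⟩
  intro i X Ltot hiX hq hLtot
  have hm0 : (0:ℝ) < 3*(i:ℝ)+2 := by positivity
  have hX0 : (0:ℝ) < X := by
    have : 0 < X := by omega
    exact_mod_cast this
  obtain ⟨R, hR⟩ : ∃ R : ℝ, R = (X:ℝ)/(3*i+2) := ⟨_, rfl⟩
  rw [← hR] at hLtot ⊢
  have hR1 : 1 ≤ R := by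
    rw [hR, one_le_div hm0]; exact_mod_cast hiX
  have hR0 : 0 < R := by linarith
  have hlR : 0 ≤ Real.log R := Real.log_nonneg hR1
  -- k
  obtain ⟨k, hkd⟩ : ∃ k, k = Nat.log 3 (X/(3*i+2)) := ⟨_, rfl⟩
  have hdiv1 : 1 ≤ X/(3*i+2) := (Nat.one_le_div_iff (by omega)).mpr hiX
  have h3k : 3^k * (3*i+2) ≤ X := by
    have h1 : 3^k ≤ X/(3*i+2) := by rw [hkd]; exact Nat.pow_log_le_self 3 (by omega)
    exact (Nat.le_div_iff_mul_le (by omega)).mp h1
  have h3k1 : X < 3^(k+1) * (3*i+2) := by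
    have h1 : X/(3*i+2) < 3^(k+1) := by rw [hkd]; exact Nat.lt_pow_succ_log_self (by norm_num) _
    exact (Nat.div_lt_iff_lt_mul (by omega)).mp h1
  have h3kR : (3:ℝ)^k ≤ R := by
    rw [hR, le_div_iff₀ hm0]; exact_mod_cast h3k
  have h3k1R : R < (3:ℝ)^(k+1) := by
    rw [hR, div_lt_iff₀ hm0]; exact_mod_cast h3k1
  have hklog : (k:ℝ) ≤ Real.log R := by
    have h1 : (k:ℝ) * Real.log 3 ≤ Real.log R := by
      rw [← Real.log_pow]; exact Real.log_le_log (by positivity) h3kR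
    have h2 : (1:ℝ) ≤ Real.log 3 := by
      rw [Real.le_log_iff_exp_le (by norm_num)]
      have := Real.exp_one_lt_d9
      linarith
    have h3 : (k:ℝ) * 1 ≤ k * Real.log 3 := mul_le_mul_of_nonneg_left h2 (by positivity)
    linarith
  have hcnt1 : (1:ℝ) ≤ (cnt X Ltot i : ℝ) := by exact_mod_cast one_le_cnt hiX
  rcases Nat.lt_or_ge k (q*(K1+1)) with hsmall | hbig
  · -- small ratio
    refine le_trans ?_ hcnt1
    have h1 : R^δ' ≤ (3:ℝ)^((q*(K1+1)+1) * |δ'|) := by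
      calc R^δ' ≤ R^|δ'| := Real.rpow_le_rpow_of_exponent_le hR1 (le_abs_self _)
        _ ≤ ((3:ℝ)^(k+1))^|δ'| := Real.rpow_le_rpow hR0.le h3k1R.le (abs_nonneg _)
        _ = (3:ℝ)^(((k+1:ℕ):ℝ) * |δ'|) := by
          rw [← Real.rpow_natCast 3 (k+1), ← Real.rpow_mul (by norm_num)]
        _ ≤ _ := by
          apply Real.rpow_le_rpow_of_exponent_le (by norm_num)
          apply mul_le_mul_of_nonneg_right _ (abs_nonneg _)
          have : (k+1:ℕ) ≤ q*(K1+1)+1 := by omega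
          have h2 : ((k+1:ℕ):ℝ) ≤ ((q*(K1+1)+1 : ℕ):ℝ) := by exact_mod_cast this
          push_cast at h2 ⊢
          exact h2
    calc cfin * R^δ' ≤ ((3:ℝ)^((q*(K1+1)+1) * |δ'|))⁻¹ * (3:ℝ)^((q*(K1+1)+1) * |δ'|) :=
          mul_le_mul (min_le_right _ _) h1 (by positivity) (by positivity)
      _ = 1 := by field_simp
  -- large ratio
  obtain ⟨K0, hK0d⟩ : ∃ K0, K0 = (p*k)/q := ⟨_, rfl⟩
  have hq2 : 0 < q := by omega
  have hKle : q * K0 ≤ p * k := by rw [hK0d]; exact Nat.mul_div_le _ _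
  have hK0k : K0 ≤ k := by
    have h1 : p * k ≤ q * k := Nat.mul_le_mul_right _ hpq.le
    exact Nat.le_of_mul_le_mul_left (hKle.trans h1) hq2
  have hKlt : p * k < q * K0 + q := by
    have := Nat.lt_div_mul_add (a := p*k) (b := q) hq2
    rw [← hK0d] at this; linarith [mul_comm K0 q]
  have hK1K0 : K1 ≤ K0 := by
    have h1 : K1 + 1 ≤ K0 := by
      rw [hK0d, Nat.le_div_iff_mul_le hq2]
      calc (K1+1) * q = 1 * (q * (K1+1)) := by ring
        _ ≤ p * k := Nat.mul_le_mul hp hbig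
    omega
  obtain ⟨N, A, E, hN, hA, hinj, hE, hcard⟩ := HA i hq K0
  -- budget exponents
  have hEM : E ≤ M + K0 := by
    have h1 : (3:ℝ)^E ≤ (3:ℝ)^(M+K0) := by
      calc (3:ℝ)^E ≤ C1 * g^K0 := hE
        _ ≤ 3^M * 3^K0 := mul_le_mul hM (pow_le_pow_left₀ hg0.le hg3 _) (by positivity) (by positivity)
        _ = _ := by rw [pow_add]
    exact (pow_le_pow_iff_right₀ (by norm_num : (1:ℝ) < 3)).mp h1
  obtain ⟨L, hLd⟩ : ∃ L, L = Nat.log 2 (3^(E+k)) := ⟨_, rfl⟩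
  have h2L : 2^L ≤ 3^(E+k) := by rw [hLd]; exact Nat.pow_log_le_self 2 (by positivity)
  have h2L1 : 3^(E+k) < 2^(L+1) := by rw [hLd]; exact Nat.lt_pow_succ_log_self (by norm_num) _
  have hLle : L ≤ 2*(E+k) := by
    have h1 : 2^L ≤ 2^(2*(E+k)) := by
      calc 2^L ≤ 3^(E+k) := h2L
        _ ≤ 4^(E+k) := Nat.pow_le_pow_left (by norm_num) _
        _ = _ := by rw [pow_mul]; norm_num
    exact (Nat.pow_le_pow_iff_right (by norm_num)).mp h1
  obtain ⟨L1, hL1d⟩ : ∃ L1, L1 = ⌈Ds * (1 + Real.log R + ((N+L:ℕ):ℝ))⌉₊ := ⟨_, rfl⟩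
  have hPr : ∀ N' i' : ℕ, T^[N'] (3*i'+2) = 3*i+2 → N' ≤ N + L → 3*i'+2 ≤ X →
      cs * ((X:ℝ)/(3*i'+2))^s ≤ (cnt X L1 i' : ℝ) := by
    intro N' i' hT hN' hi'X
    apply Hrel v hv0v hv1 i hq X N' i' L1 hT hiX hi'X
    rw [← hR, hL1d]
    refine le_trans ?_ (Nat.le_ceil _)
    apply mul_le_mul_of_nonneg_left _ hDs.le
    have : (N':ℝ) ≤ ((N+L:ℕ):ℝ) := by exact_mod_cast hN'
    linarith
  have hXc : 3^K0 * (3*i+2) * 2^L ≤ 3^(K0+E) * X := by
    calc 3^K0 * (3*i+2) * 2^L ≤ 3^K0 * (3*i+2) * 3^(E+k) := Nat.mul_le_mul_left _ h2L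
      _ = 3^(K0+E) * (3^k * (3*i+2)) := by rw [pow_add, pow_add]; ring
      _ ≤ _ := Nat.mul_le_mul_left _ h3k
  have hcore := core_rel hlam hs0 HH HR hs hth hkr hcs.le A hA hinj hPr hXc
  have hLtau : (3:ℝ)^(K0+E) / 2^L ≤ 2 * (3:ℝ)^(-(tau*K0)) := by
    rw [div_le_iff₀ (by positivity)]
    have a1 : (3:ℝ)^(E+k) ≤ 2 * 2^L := by
      have : (3:ℝ)^(E+k) < 2^(L+1) := by exact_mod_cast h2L1
      rw [pow_succ] at this; linarith
    have a2 : (3:ℝ)^K0 ≤ (3:ℝ)^(-(tau*K0)) * 3^k := by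
      rw [← Real.rpow_natCast 3 K0, ← Real.rpow_natCast 3 k, ← Real.rpow_add (by norm_num)]
      apply Real.rpow_le_rpow_of_exponent_le (by norm_num)
      have : (q:ℝ) * K0 ≤ p * k := by exact_mod_cast hKle
      rw [htau]
      have e : -(((q:ℝ)-p)/p * K0) + k - K0 = (p*k - q*K0)/p := by field_simp; ring
      have : 0 ≤ (p*k - q*K0 : ℝ)/p := div_nonneg (by linarith) hp'.le
      linarith
    calc (3:ℝ)^(K0+E) = (3:ℝ)^K0 * 3^E := pow_add _ _ _
      _ ≤ ((3:ℝ)^(-(tau*K0)) * 3^k) * 3^E := mul_le_mul_of_nonneg_right a2 (by positivity)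
      _ = (3:ℝ)^(-(tau*K0)) * 3^(E+k) := by rw [pow_add 3 E k]; ring
      _ ≤ (3:ℝ)^(-(tau*K0)) * (2 * 2^L) := mul_le_mul_of_nonneg_left a1 (by positivity)
      _ = _ := by ring
  have hbr := Hbr K0 E L (A.card : ℝ) hE hcard hLtau
  have hhalf := hK1 K0 hK1K0
  have hratio : (X:ℝ)/((3^K0 * (3*i+2) : ℕ):ℝ) = R/3^K0 := by
    rw [hR]; push_cast; field_simp
  rw [hratio] at hcore
  have hlow : cs * (R/3^K0)^s * ((c4 * ((3:ℝ)^δ / g)^K0) * (c2/2 * (mu/g^2)^K0)) ≤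
      (cnt X (L + L1 + N) i : ℝ) := by
    refine le_trans ?_ hcore
    apply mul_le_mul_of_nonneg_left _ (by positivity)
    apply mul_le_mul hcard _ (by positivity) (by positivity)
    linarith
  -- exponents
  have hlb1 : (K0:ℝ) ≤ pq * Real.logb 3 R := by
    have h1 : (k:ℝ) ≤ Real.logb 3 R := by
      rw [Real.le_logb_iff_rpow_le (by norm_num) hR0, Real.rpow_natCast]; exact h3kR
    have h2 : (q:ℝ) * K0 ≤ p * k := by exact_mod_cast hKle
    have h3 : (p:ℝ) * k ≤ p * Real.logb 3 R := mul_le_mul_of_nonneg_left h1 hp'.le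
    rw [hpqd, div_mul_eq_mul_div, le_div_iff₀ hq', mul_comm (K0:ℝ)]
    exact h2.trans h3
  have hlb2 : pq * Real.logb 3 R - 2 ≤ K0 := by
    have h0 : Real.logb 3 R < k + 1 := by
      rw [Real.logb_lt_iff_lt_rpow (by norm_num) hR0]
      rw [← Real.rpow_natCast] at h3k1R
      push_cast at h3k1R; exact h3k1R
    have h1 : (p:ℝ) * k < q * K0 + q := by exact_mod_cast hKlt
    have h2 : pq * Real.logb 3 R ≤ pq * (k+1) := mul_le_mul_of_nonneg_left h0.le hpq0.le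
    have h3 : pq * (k+1) ≤ K0 + 2 := by
      rw [hpqd, div_mul_eq_mul_div, div_le_iff₀ hq']
      have e1 : (p:ℝ) * (k+1) = p*k + p := by ring
      have e2 : ((K0:ℝ)+2)*q = q*K0 + q + q := by ring
      have hpq' : (p:ℝ) < q := by exact_mod_cast hpq
      rw [e1, e2]
      linarith only [h1, hpq']
    linarith
  have hfe := final_exp (s := s) (δ := δ) (l := lam) (e := e) hR1 hk hlb1 hlb2 he3
  rw [← hσ, ← hmu, ← hgd] at hfe
  have htot : L + L1 + N ≤ Ltot := by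
    have h1 : (L:ℝ) ≤ (2*M+4) * (1 + Real.log R) := by
      have h2 : (L:ℝ) ≤ 2*(M + k + k) := by
        have h3 : L ≤ 2*(M+k+k) := by omega
        exact_mod_cast h3
      have hM0 : (0:ℝ) ≤ M := by positivity
      have h4 : 0 ≤ (M:ℝ) * Real.log R := by positivity
      have h5 : (2*(M:ℝ)+4) * (1 + Real.log R) = 2*M + 4 + 2*(M * Real.log R) + 4 * Real.log R := by
        ring
      rw [h5]
      linarith only [h2, hklog, h4, hlR]
    have h5 : (N:ℝ) ≤ b * (1 + Real.log R) := by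
      have h6 : (N:ℝ) ≤ b * (K0+1) := by exact_mod_cast hN
      have h7 : (K0:ℝ) ≤ k := by exact_mod_cast hK0k
      have h8 : (b:ℝ) * (K0+1) ≤ b * (1 + Real.log R) :=
        mul_le_mul_of_nonneg_left (by linarith) (by positivity)
      linarith
    have h9 : (L1:ℝ) ≤ (Ds*(1+b+(2*M+4))+1) * (1 + Real.log R) := by
      have h10 : (L1:ℝ) < Ds * (1 + Real.log R + ((N+L:ℕ):ℝ)) + 1 := by
        rw [hL1d]; exact Nat.ceil_lt_add_one (by positivity)
      have h11 : Ds * (1 + Real.log R + ((N+L:ℕ):ℝ)) ≤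
          Ds * ((1 + b + (2*M+4)) * (1 + Real.log R)) := by
        apply mul_le_mul_of_nonneg_left _ hDs.le
        push_cast
        linarith
      have h12 : (Ds*(1+b+(2*M+4))+1) * (1 + Real.log R) =
          Ds * ((1 + b + (2*M+4)) * (1 + Real.log R)) + (1 + Real.log R) := by ring
      linarith
    have h13 : ((L + L1 + N : ℕ):ℝ) ≤ Ltot := by
      refine le_trans ?_ hLtot
      push_cast
      have e1 : ((2*(M:ℝ)+4) + b + (Ds*(1+b+(2*M+4))+1)) * (1 + Real.log R) =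
        (2*M+4) * (1 + Real.log R) + b * (1 + Real.log R)
        + (Ds*(1+b+(2*M+4))+1) * (1 + Real.log R) := by ring
      rw [e1]
      linarith
    exact_mod_cast h13
  calc cfin * R^δ' ≤ (cs * c4 * (c2/2) * (3:ℝ)^(-(2*|σ|))) * R^δ' :=
        mul_le_mul_of_nonneg_right (min_le_left _ _) (by positivity)
    _ = cs * c4 * (c2/2) * (R^δ' * (3:ℝ)^(-(2*|σ|))) := by ring
    _ ≤ cs * c4 * (c2/2) * ((R/3^K0)^s * (((3:ℝ)^δ / g)^K0 * (mu / g^2)^K0)) :=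
        mul_le_mul_of_nonneg_left hfe (by positivity)
    _ = cs * (R/3^K0)^s * ((c4 * ((3:ℝ)^δ / g)^K0) * (c2/2 * (mu/g^2)^K0)) := by ring
    _ ≤ (cnt X (L + L1 + N) i : ℝ) := hlow
    _ ≤ _ := cnt_mono_L' htot

end H62
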