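import Pool.Agent.Lib.H62u.D0

set_option autoImplicit false

namespace H62

open Finset

lemma V_rel {s c : ℝ} (hs : 0 < s) (hc : 0 ≤ c) {X L1 Nmax : ℕ} {S : ℕ → ℕ → Prop}
    (hS : Closed S)
    (hP : ∀ N i : ℕ, S N i → N ≤ Nmax → 3*i+2 ≤ X →
      c * ((X:ℝ) / (3*i+2))^s ≤ (cnt X L1 i : ℝ)) (L : ℕ) :
    ∀ K N i : ℕ, S N i → N + L ≤ Nmax → (3*i+2) * 2^L ≤ 3^K * X →
      c * ((X:ℝ) / (3*i+2))^s *
        W ((4:ℝ)^(-s)) ((3/2:ℝ)^s) ((3/4:ℝ)^s) (fun _ => 1) (fun _ _ => 0) L K i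
        ≤ (cnt X (L+L1) i : ℝ) := by
  have K0 : ∀ L N i : ℕ, S N i → N + L ≤ Nmax → (3*i+2) * 2^L ≤ 3^0 * X →
      c * ((X:ℝ) / (3*i+2))^s *
        W ((4:ℝ)^(-s)) ((3/2:ℝ)^s) ((3/4:ℝ)^s) (fun _ => 1) (fun _ _ => 0) L 0 i
        ≤ (cnt X (L+L1) i : ℝ) := by
    intro L N i hNi hN h
    rw [W_K0, mul_one]
    have h1 : 3*i+2 ≤ X := by
      have : 1 ≤ 2^L := Nat.one_le_two_pow
      calc 3*i+2 = (3*i+2)*1 := (mul_one _).symm
        _ ≤ (3*i+2) * 2^L := Nat.mul_le_mul_left _ this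
        _ ≤ 3^0 * X := h
        _ = X := by simp
    refine (hP N i hNi (by omega) h1).trans ?_
    exact_mod_cast cnt_mono_L (by omega)
  induction L using ind2 with
  | h0 =>
    intro K N i hNi hN h
    rcases K with _ | K
    · exact K0 0 N i hNi hN h
    · rw [W_L0]; simp
  | h1 =>
    intro K N i hNi hN h
    rcases K with _ | K
    · exact K0 1 N i hNi hN h
    · rw [W_L1]; simp
  | h2 L ih0 ih1 =>
    intro K N i hNi hN h
    rcases K with _ | K
    · exact K0 (L+2) N i hNi hN h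
    · have hX0 : (0:ℝ) ≤ X := by positivity
      have hi0 : (0:ℝ) ≤ i := by positivity
      have hWn : ∀ L K i, 0 ≤ W ((4:ℝ)^(-s)) ((3/2:ℝ)^s) ((3/4:ℝ)^s) (fun _ => 1)
          (fun _ _ => 0) L K i := fun L K i =>
        W_nonneg (by positivity) (by positivity) (by positivity) (by simp) (by simp) L K i
      set V := W ((4:ℝ)^(-s)) ((3/2:ℝ)^s) ((3/4:ℝ)^s) (fun _ => (1:ℝ)) (fun _ _ => (0:ℝ)) with hV
      have h2L : 2^(L+2) = 4 * 2^L := by ring
      have h2L1 : 2^(L+1) = 2 * 2^L := by ring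
      have h3K : 3^(K+1) = 3 * 3^K := by ring
      have hAle : (3*(4*i+2)+2) * 2^L ≤ 3^(K+1) * X := by
        calc (3*(4*i+2)+2) * 2^L = (3*i+2) * 2^(L+2) := by rw [h2L]; ring
          _ ≤ _ := h
      have hA : c * ((X:ℝ) / (3*i+2))^s * ((4:ℝ)^(-s) * V L (K+1) (4*i+2))
          ≤ (cnt X (L+L1) (4*i+2) : ℝ) := by
        have := ih0 (K+1) (N+2) (4*i+2) (hS.A _ _ hNi) (by omega) hAle
        have e1 := div_rpow_A (s := s) (X := X) (m := 3*i+2) hX0 (by positivity)
        have e : (3*((4*i+2 : ℕ):ℝ)+2) = 4 * (3*(i:ℝ)+2) := by push_cast; ring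
        rw [e, ← e1] at this
        calc _ = c * ((4:ℝ)^(-s) * ((X:ℝ) / (3*i+2))^s) * V L (K+1) (4*i+2) := by ring
          _ ≤ _ := this
      obtain ⟨j, hj⟩ : ∃ j, i = 3*j ∨ i = 3*j+1 ∨ i = 3*j+2 := ⟨i/3, by omega⟩
      rcases hj with rfl | rfl | rfl
      · -- C
        have hcnt : (cnt X (L+L1) (4 * (3 * j) + 2) : ℝ) + cnt X (L+L1) (4 * j)
            ≤ cnt X (L + 2 + L1) (3 * j) := by
          have := cnt_AC X (L+L1) j
          rw [show L + L1 + 2 = L + 2 + L1 by ring] at this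
          exact_mod_cast this
        have hCle : (3*(4*j)+2) * 2^L ≤ 3^K * X := by
          have : 3 * ((3*(4*j)+2) * 2^L) ≤ 3 * (3^K * X) := by
            calc 3 * ((3*(4*j)+2) * 2^L) = (36*j+6) * 2^L := by ring
              _ ≤ (36*j+8) * 2^L := Nat.mul_le_mul_right _ (by omega)
              _ = (3*(3*j)+2) * 2^(L+2) := by rw [h2L]; ring
              _ ≤ 3^(K+1) * X := h
              _ = _ := by rw [h3K]; ring
          omega
        have hC : c * ((X:ℝ) / (3*((3*j:ℕ):ℝ)+2))^s * ((3/4:ℝ)^s * V L K (4*j))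
            ≤ (cnt X (L+L1) (4*j) : ℝ) := by
          have e1 := rpow_B (s := s) (X := X) hs.le hX0 (m := 3*((3*j:ℕ):ℝ)+2)
            (m' := 3*((4*j:ℕ):ℝ)+2) (by positivity) (by positivity) (r := 3/4) (by norm_num)
            (by push_cast; have : (0:ℝ) ≤ j := by positivity
                linarith)
          calc _ = c * ((3/4:ℝ)^s * ((X:ℝ) / (3*((3*j:ℕ):ℝ)+2))^s) * V L K (4*j) := by ring
            _ ≤ c * ((X:ℝ) / (3*((4*j:ℕ):ℝ)+2))^s * V L K (4*j) := by
              apply mul_le_mul_of_nonneg_right _ (hWn _ _ _)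
              exact mul_le_mul_of_nonneg_left e1 hc
            _ ≤ _ := ih0 K (N+2) (4*j) (hS.C _ _ hNi) (by omega) hCle
        have hr : V (L+2) (K+1) (3*j) = (4:ℝ)^(-s) * V L (K+1) (4*(3*j)+2)
            + (3/4:ℝ)^s * V L K (4*j) := by
          rw [hV, W_LK]
          have h1 : (3*j) % 3 = 0 := by omega
          have h2 : (3*j) / 3 = j := by omega
          rw [h1, h2]; simp
        rw [hr, mul_add]
        linarith
      · -- A only
        have hcnt : (cnt X (L+L1) (4 * (3 * j + 1) + 2) : ℝ) ≤ cnt X (L + 2 + L1) (3 * j + 1) := by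
          have := cnt_A X (L+L1) (3*j+1)
          rw [show L + L1 + 2 = L + 2 + L1 by ring] at this
          exact_mod_cast this
        have hr : V (L+2) (K+1) (3*j+1) = (4:ℝ)^(-s) * V L (K+1) (4*(3*j+1)+2) := by
          rw [hV, W_LK]
          have h1 : (3*j+1) % 3 = 1 := by omega
          rw [h1]; simp
        rw [hr]
        linarith
      · -- B
        have hcnt : (cnt X (L+L1) (4 * (3 * j + 2) + 2) : ℝ) + cnt X (L+1+L1) (2 * j + 1)
            ≤ cnt X (L + 2 + L1) (3 * j + 2) := by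
          have := cnt_AB X (L+L1) j
          rw [show L + L1 + 2 = L + 2 + L1 by ring, show L + L1 + 1 = L + 1 + L1 by ring] at this
          exact_mod_cast this
        have hBle : (3*(2*j+1)+2) * 2^(L+1) ≤ 3^K * X := by
          have : 3 * ((3*(2*j+1)+2) * 2^(L+1)) ≤ 3 * (3^K * X) := by
            calc 3 * ((3*(2*j+1)+2) * 2^(L+1)) = (36*j+30) * 2^L := by rw [h2L1]; ring
              _ ≤ (36*j+32) * 2^L := Nat.mul_le_mul_right _ (by omega)
              _ = (3*(3*j+2)+2) * 2^(L+2) := by rw [h2L]; ring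
              _ ≤ 3^(K+1) * X := h
              _ = _ := by rw [h3K]; ring
          omega
        have hB : c * ((X:ℝ) / (3*((3*j+2:ℕ):ℝ)+2))^s * ((3/2:ℝ)^s * V (L+1) K (2*j+1))
            ≤ (cnt X (L+1+L1) (2*j+1) : ℝ) := by
          have e1 := rpow_B (s := s) (X := X) hs.le hX0 (m := 3*((3*j+2:ℕ):ℝ)+2)
            (m' := 3*((2*j+1:ℕ):ℝ)+2) (by positivity) (by positivity) (r := 3/2) (by norm_num)
            (by push_cast; have : (0:ℝ) ≤ j := by positivity
                linarith)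
          calc _ = c * ((3/2:ℝ)^s * ((X:ℝ) / (3*((3*j+2:ℕ):ℝ)+2))^s) * V (L+1) K (2*j+1) := by ring
            _ ≤ c * ((X:ℝ) / (3*((2*j+1:ℕ):ℝ)+2))^s * V (L+1) K (2*j+1) := by
              apply mul_le_mul_of_nonneg_right _ (hWn _ _ _)
              exact mul_le_mul_of_nonneg_left e1 hc
            _ ≤ _ := ih1 K (N+1) (2*j+1) (hS.B _ _ hNi) (by omega) hBle
        have hr : V (L+2) (K+1) (3*j+2) = (4:ℝ)^(-s) * V L (K+1) (4*(3*j+2)+2)
            + (3/2:ℝ)^s * V (L+1) K (2*j+1) := by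
          rw [hV, W_LK]
          have h1 : (3*j+2) % 3 = 2 := by omega
          have h2 : (3*j+2) / 3 = j := by omega
          rw [h1, h2]; simp
        rw [hr, mul_add]
        linarith

end H62
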