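import Pool.Agent.Lib.H62u.D0
import Mathlib.Combinatorics.Pigeonhole

set_option autoImplicit false

namespace H62

open Finset

/-- number of odd numbers among the first `N` iterates -/
def oc : ℕ → ℕ → ℕ
  | 0, _ => 0
  | N+1, n => oc N (T n) + n % 2

lemma oc_le : ∀ N n, oc N n ≤ N := by
  intro N
  induction N with
  | zero => intro n; simp [oc]
  | succ N ih => intro n; have := ih (T n); simp only [oc]; omega

lemma two_T_even {n : ℕ} (h : n % 2 = 0) : 2 * T n = n := by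
  unfold T; rw [if_pos h]; omega

lemma two_T_odd {n : ℕ} (h : n % 2 = 1) : 2 * T n = 3*n+1 := by
  unfold T; rw [if_neg (by omega)]; omega

lemma iter_bounds {q : ℝ} (hq : 0 < q) : ∀ N n : ℕ, (∀ t < N, q ≤ ((T^[t] n : ℕ) : ℝ)) →
    (3:ℝ)^(oc N n) * n ≤ 2^N * ((T^[N] n : ℕ) : ℝ) ∧
    2^N * ((T^[N] n : ℕ) : ℝ) ≤ (3:ℝ)^(oc N n) * n * (1 + 1/(3*q))^N := by
  intro N
  induction N with
  | zero => intro n _; simp [oc]
  | succ N ih =>
    intro n hn
    have h1 : ∀ t < N, q ≤ ((T^[t] (T n) : ℕ) : ℝ) := by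
      intro t ht
      have := hn (t+1) (by omega)
      rwa [Function.iterate_succ_apply] at this
    obtain ⟨a1, a2⟩ := ih (T n) h1
    have hn0 := hn 0 (by omega)
    rw [Function.iterate_zero, id] at hn0
    have hnpos : (0:ℝ) < n := hq.trans_le hn0
    rw [Function.iterate_succ_apply]
    have hu : (1:ℝ) ≤ 1 + 1/(3*q) := by
      have : 0 < 1/(3*q) := by positivity
      linarith
    rcases Nat.mod_two_eq_zero_or_one n with h | h
    · have e : ((T n : ℕ):ℝ) = n/2 := by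
        have := two_T_even h
        have h2 : (2:ℝ) * ((T n : ℕ):ℝ) = n := by exact_mod_cast this
        linarith
      have e2 : oc (N+1) n = oc N (T n) := by simp [oc, h]
      rw [e2]
      rw [e] at a1 a2
      constructor
      · calc (3:ℝ)^(oc N (T n)) * n = 2 * ((3:ℝ)^(oc N (T n)) * (n/2)) := by ring
          _ ≤ 2 * (2^N * ((T^[N] (T n) : ℕ) : ℝ)) := by linarith
          _ = _ := by ring
      · have h3 : (1 + 1/(3*q))^N ≤ (1 + 1/(3*q))^(N+1) := pow_le_pow_right₀ hu (by omega)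
        calc 2^(N+1) * ((T^[N] (T n) : ℕ) : ℝ) = 2 * (2^N * ((T^[N] (T n) : ℕ) : ℝ)) := by ring
          _ ≤ 2 * ((3:ℝ)^(oc N (T n)) * (n/2) * (1 + 1/(3*q))^N) := by linarith
          _ = (3:ℝ)^(oc N (T n)) * n * (1 + 1/(3*q))^N := by ring
          _ ≤ _ := mul_le_mul_of_nonneg_left h3 (by positivity)
    · have e : ((T n : ℕ):ℝ) = (3*n+1)/2 := by
        have := two_T_odd h
        have h2 : (2:ℝ) * ((T n : ℕ):ℝ) = 3*n+1 := by exact_mod_cast this
        linarith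
      have e2 : oc (N+1) n = oc N (T n) + 1 := by simp [oc, h]
      rw [e2]
      rw [e] at a1 a2
      constructor
      · calc (3:ℝ)^(oc N (T n) + 1) * n = (3:ℝ)^(oc N (T n)) * (3*n) := by ring
          _ ≤ (3:ℝ)^(oc N (T n)) * (3*n+1) := by
              apply mul_le_mul_of_nonneg_left _ (by positivity)
              linarith
          _ = 2 * ((3:ℝ)^(oc N (T n)) * ((3*n+1)/2)) := by ring
          _ ≤ 2 * (2^N * ((T^[N] (T n) : ℕ) : ℝ)) := by linarith
          _ = _ := by ring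
      · have h3 : (3*n+1:ℝ) ≤ 3*n*(1+1/(3*q)) := by
          have : 1 ≤ 3*n*(1/(3*q)) := by
            rw [mul_one_div, one_le_div (by positivity)]
            linarith
          linarith
        calc 2^(N+1) * ((T^[N] (T n) : ℕ) : ℝ) = 2 * (2^N * ((T^[N] (T n) : ℕ) : ℝ)) := by ring
          _ ≤ 2 * ((3:ℝ)^(oc N (T n)) * ((3*n+1)/2) * (1 + 1/(3*q))^N) := by linarith
          _ = (3:ℝ)^(oc N (T n)) * (3*n+1) * (1 + 1/(3*q))^N := by ring
          _ ≤ (3:ℝ)^(oc N (T n)) * (3*n*(1+1/(3*q))) * (1 + 1/(3*q))^N := by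
              apply mul_le_mul_of_nonneg_right _ (by positivity)
              exact mul_le_mul_of_nonneg_left h3 (by positivity)
          _ = _ := by ring

lemma T_mod3 {n : ℕ} (h : n % 3 ≠ 0) : (T n) % 3 ≠ 0 := by
  unfold T
  split_ifs with h2 <;> omega

lemma iter_mod3 {n : ℕ} (h : n % 3 ≠ 0) : ∀ t, (T^[t] n) % 3 ≠ 0 := by
  intro t
  induction t with
  | zero => simpa using h
  | succ t ih => rw [Function.iterate_succ_apply']; exact T_mod3 ih

lemma inter_lower {v : ℝ} (hv0 : 0 < v) (hv1 : v < 1) {m : ℕ} (hq : QMin v m) {N n : ℕ}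
    (hT : T^[N] n = m) (hn : n % 3 = 2) : ∀ t < N, (m:ℝ) * v^(N+1) / 2 ≤ ((T^[t] n : ℕ) : ℝ) := by
  intro t ht
  set x := T^[t] n with hx
  have hx3 : x % 3 ≠ 0 := iter_mod3 (by omega) t
  have hTx : T^[N-t] x = m := by
    rw [hx, ← Function.iterate_add_apply, Nat.sub_add_cancel ht.le, hT]
  have hm0 : (0:ℝ) ≤ m := by positivity
  have hle : ∀ M ≤ N+1, (m:ℝ) * v^(N+1) ≤ m * v^M := fun M hM =>
    mul_le_mul_of_nonneg_left (pow_le_pow_of_le_one hv0.le hv1.le hM) hm0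
  have h12 : x % 3 = 1 ∨ x % 3 = 2 := by omega
  rcases h12 with h | h
  · have h1 := hq (N-t+1) (2*x) (by rw [Function.iterate_add_apply, Function.iterate_one, T_even, hTx])
      (by omega)
    have h2 := hle (N-t+1) (by omega)
    push_cast at h1
    linarith
  · have h1 := hq (N-t) x hTx h
    have h2 := hle (N-t) (by omega)
    have h3 : (0:ℝ) ≤ x := by positivity
    linarith

/-- The window lemma. -/
lemma window {v : ℝ} (hv0 : 0 < v) (hv1 : v < 1) {m : ℕ} (hm : 0 < m) (hq : QMin v m) {N n n' : ℕ}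
    (hT : T^[N] n = m) (hn : n % 3 = 2) (hT' : T^[N] n' = m) (hn' : n' % 3 = 2)
    (hoc : oc N n = oc N n') {R : ℝ} (hnR : (n:ℝ) ≤ m * R) (hnR' : (n':ℝ) ≤ m * R) :
    (n':ℝ) - n ≤ 4/3 * N * (v⁻¹)^(N+1) * R := by
  have hm0 : (0:ℝ) < m := by exact_mod_cast hm
  set q : ℝ := (m:ℝ) * v^(N+1) / 2 with hqd
  have hq0 : 0 < q := by positivity
  have hnn : (0:ℝ) ≤ n := by positivity
  have hmR : 0 ≤ (m:ℝ) * R := hnn.trans hnR
  have key : 4/3 * N * (v⁻¹)^(N+1) * R = (m*R) * (2 * (N * (1/(3*q)))) := by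
    rw [hqd, inv_pow]; field_simp; ring
  rw [key]
  have hu0 : (0:ℝ) ≤ N * (1/(3*q)) := by positivity
  rcases le_or_gt ((N:ℝ) * (1/(3*q))) 1 with h | h
  · obtain ⟨_, a2⟩ := iter_bounds hq0 N n (inter_lower hv0 hv1 hq hT hn)
    obtain ⟨b1, _⟩ := iter_bounds hq0 N n' (inter_lower hv0 hv1 hq hT' hn')
    rw [hT] at a2
    rw [hT', ← hoc] at b1
    have h3 : (n':ℝ) ≤ n * (1 + 1/(3*q))^N := by
      have : (3:ℝ)^(oc N n) * n' ≤ (3:ℝ)^(oc N n) * (n * (1 + 1/(3*q))^N) := by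
        calc _ ≤ _ := b1
          _ ≤ _ := a2
          _ = _ := by ring
      exact le_of_mul_le_mul_left this (by positivity)
    have h4 : (1 + 1/(3*q))^N ≤ 1 + 2 * (N * (1/(3*q))) := by
      have h5 : (1 + 1/(3*q))^N ≤ Real.exp (N * (1/(3*q))) := by
        rw [Real.exp_nat_mul]
        apply pow_le_pow_left₀ (by positivity)
        rw [add_comm]; exact Real.add_one_le_exp _
      have h6 : Real.exp (N * (1/(3*q))) ≤ 1 + 2 * (N * (1/(3*q))) := by
        set u := (N:ℝ) * (1/(3*q)) with hu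
        have h7 := Real.abs_exp_sub_one_sub_id_le (x := u) (by rw [abs_of_nonneg hu0]; exact h)
        have h8 := (abs_le.mp h7).2
        nlinarith
      exact h5.trans h6
    have h9 : (n':ℝ) ≤ n * (1 + 2 * (N * (1/(3*q)))) := h3.trans (mul_le_mul_of_nonneg_left h4 hnn)
    have h10 : (n:ℝ) * (2 * (N * (1/(3*q)))) ≤ (m*R) * (2 * (N * (1/(3*q)))) :=
      mul_le_mul_of_nonneg_right hnR (by positivity)
    linarith
  · have : (m*R) * 1 ≤ (m*R) * (2 * (N * (1/(3*q)))) :=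
      mul_le_mul_of_nonneg_left (by linarith) hmR
    linarith

/-! ### choosing a large class -/

lemma big_class {X L i : ℕ} : ∃ (N : ℕ) (A : Finset ℕ), N ≤ L ∧
    (∀ i' ∈ A, T^[N] (3*i'+2) = 3*i+2 ∧ 3*i'+2 ≤ X) ∧
    (∀ i' ∈ A, ∀ i'' ∈ A, oc N (3*i'+2) = oc N (3*i''+2)) ∧
    (cnt X L i : ℝ) / ((L:ℝ)+1)^2 ≤ (A.card : ℝ) := by
  set P := pairs X L i with hP
  set f : ℕ × ℕ → ℕ × ℕ := fun p => (p.2, oc p.2 p.1) with hf
  set Tg := (range (L+1)) ×ˢ (range (L+1)) with hTg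
  have hmaps : ∀ p ∈ P, f p ∈ Tg := by
    intro p hp
    rw [hP, mem_pairs] at hp
    rw [hTg, Finset.mem_product, Finset.mem_range, Finset.mem_range]
    have := oc_le p.2 p.1
    exact ⟨by show p.2 < L+1; omega, by show oc p.2 p.1 < L+1; omega⟩
  have hTne : Tg.Nonempty := by
    rw [hTg]
    exact ⟨(0,0), by simp⟩
  have hTc : (Tg.card : ℝ) = ((L:ℝ)+1)^2 := by
    rw [hTg, Finset.card_product, Finset.card_range]; push_cast; ring
  obtain ⟨⟨N, j⟩, hy, hcard⟩ := Finset.exists_le_card_fiber_of_nsmul_le_card_of_maps_to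
    (s := P) (t := Tg) (f := f) (b := (cnt X L i : ℝ) / ((L:ℝ)+1)^2) hmaps hTne (by
      rw [nsmul_eq_mul, hTc, mul_div_cancel₀ _ (by positivity)]
      rfl)
  set Fb := P.filter (fun p => f p = (N, j)) with hFb
  have hmem : ∀ p ∈ Fb, p ∈ P ∧ p.2 = N ∧ oc N p.1 = j := by
    intro p hp
    rw [hFb, Finset.mem_filter] at hp
    have h2 := hp.2
    simp only [hf, Prod.mk.injEq] at h2
    refine ⟨hp.1, h2.1, ?_⟩
    rw [← h2.1]; exact h2.2
  refine ⟨N, Fb.image (fun p => p.1 / 3), ?_, ?_, ?_, ?_⟩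
  · rw [hTg, Finset.mem_product, Finset.mem_range] at hy
    omega
  · intro i' hi'
    rw [Finset.mem_image] at hi'
    obtain ⟨p, hp, rfl⟩ := hi'
    obtain ⟨h1, h2, h3⟩ := hmem p hp
    rw [hP, mem_pairs] at h1
    have e : 3 * (p.1/3) + 2 = p.1 := by omega
    rw [e]
    refine ⟨?_, h1.1.2⟩
    have := h1.2.2.2
    rw [h2] at this
    exact this
  · intro i' hi' i'' hi''
    rw [Finset.mem_image] at hi' hi''
    obtain ⟨p, hp, rfl⟩ := hi'
    obtain ⟨p', hp', rfl⟩ := hi''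
    obtain ⟨h1, h2, h3⟩ := hmem p hp
    obtain ⟨h1', h2', h3'⟩ := hmem p' hp'
    rw [hP, mem_pairs] at h1 h1'
    have e : 3 * (p.1/3) + 2 = p.1 := by omega
    have e' : 3 * (p'.1/3) + 2 = p'.1 := by omega
    rw [e, e', h3, h3']
  · have hinj : Set.InjOn (fun p : ℕ × ℕ => p.1 / 3) (Fb : Set (ℕ × ℕ)) := by
      intro p hp p' hp' hpp
      obtain ⟨h1, h2, h3⟩ := hmem p hp
      obtain ⟨h1', h2', h3'⟩ := hmem p' hp'
      rw [hP, mem_pairs] at h1 h1'
      simp only at hpp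
      apply Prod.ext
      · omega
      · omega
    rw [Finset.card_image_of_injOn hinj]
    exact hcard

/-- Injectivity modulo `3 ^ (n+1+K)` from a short window. -/
lemma inj_of_window {A : Finset ℕ} {n K : ℕ}
    (h : ∀ i ∈ A, ∀ i' ∈ A, ((3*i'+2 : ℕ):ℝ) - ((3*i+2 : ℕ):ℝ) ≤ (3:ℝ)^K) :
    ∀ i ∈ A, ∀ i' ∈ A, i % (3^(n+1) * 3^K) = i' % (3^(n+1) * 3^K) → i = i' := by
  have hlt : ∀ i ∈ A, ∀ i' ∈ A, i' < i + 3^(n+1) * 3^K := by
    intro i hi i' hi'
    have h1 := h i hi i' hi'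
    have h2 : (3*i'+2 : ℕ) ≤ (3*i+2) + 3^K := by
      have : ((3*i'+2 : ℕ):ℝ) ≤ ((3*i+2 : ℕ):ℝ) + (3:ℝ)^K := by linarith
      exact_mod_cast this
    have h3 : 1 ≤ 3^K := Nat.one_le_pow _ _ (by norm_num)
    have h4 : 1 ≤ 3^(n+1) := Nat.one_le_pow _ _ (by norm_num)
    have h5 : 3^K ≤ 3^(n+1) * 3^K := Nat.le_mul_of_pos_left _ (by omega)
    omega
  intro i hi i' hi' hmod
  set P := 3^(n+1) * 3^K with hP
  rcases le_total i i' with hle | hle
  · have h1 := hlt i hi i' hi'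
    have h2 := (Nat.modEq_iff_dvd' hle).mp hmod
    obtain ⟨t, ht⟩ := h2
    rcases Nat.eq_zero_or_pos t with rfl | htp
    · omega
    · have : P ≤ P * t := Nat.le_mul_of_pos_right _ htp
      omega
  · have h1 := hlt i' hi' i hi
    have h2 := (Nat.modEq_iff_dvd' hle).mp hmod.symm
    obtain ⟨t, ht⟩ := h2
    rcases Nat.eq_zero_or_pos t with rfl | htp
    · omega
    · have : P ≤ P * t := Nat.le_mul_of_pos_right _ htp
      omega

end H62
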